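import Pool.Agent.Lib.MP_319742_pr.Defs

/-! Task B1 + B2: product rule for scaled `C^N` bounds, cutoffs, bootstrap step. -/

open MeasureTheory Set Filter Topology
open scoped ENNReal ContDiff

namespace MP319742

/-! ### Iterated derivatives of smooth functions -/

theorem contDiff_iteratedDeriv {w : ℝ → ℂ} (hw : ContDiff ℝ ∞ w) (i : ℕ) :
    ContDiff ℝ ∞ (iteratedDeriv i w) := by
  rw [iteratedDeriv_eq_iterate]
  exact ContDiff.iterate_deriv i hw

theorem contDiff_deriv {w : ℝ → ℂ} (hw : ContDiff ℝ ∞ w) : ContDiff ℝ ∞ (deriv w) := by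
  rw [← iteratedDeriv_one]
  exact contDiff_iteratedDeriv hw 1

theorem iteratedDeriv_comp_add (i j : ℕ) (w : ℝ → ℂ) :
    iteratedDeriv i (iteratedDeriv j w) = iteratedDeriv (i + j) w := by
  simp only [iteratedDeriv_eq_iterate]
  rw [← Function.iterate_add_apply]

theorem iteratedDeriv_deriv (i : ℕ) (w : ℝ → ℂ) :
    iteratedDeriv i (deriv w) = iteratedDeriv (i + 1) w := by
  rw [iteratedDeriv_succ']

theorem hasDerivAt_of_smooth {w : ℝ → ℂ} (hw : ContDiff ℝ ∞ w) (x : ℝ) :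
    HasDerivAt w (deriv w x) x :=
  (hw.differentiable (by simp)).differentiableAt.hasDerivAt

/-- Derivatives of a function vanishing off `[a,b]` vanish off `[a,b]`. -/
theorem iteratedDeriv_eq_zero_off {w : ℝ → ℂ} {a b : ℝ} (h0 : ∀ x, x ∉ Icc a b → w x = 0)
    (i : ℕ) : ∀ x, x ∉ Icc a b → iteratedDeriv i w x = 0 := by
  intro x hx
  have h1 : w =ᶠ[𝓝 x] fun _ => 0 := by
    filter_upwards [isClosed_Icc.isOpen_compl.mem_nhds hx] with y hy
    exact h0 y hy
  rw [h1.iteratedDeriv_eq i]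
  simp

theorem hasCompactSupport_of_off {w : ℝ → ℂ} {a b : ℝ} (h0 : ∀ x, x ∉ Icc a b → w x = 0) :
    HasCompactSupport w := HasCompactSupport.intro isCompact_Icc h0

theorem exists_bdd_of_off {w : ℝ → ℂ} (hw : Continuous w) {a b : ℝ}
    (h0 : ∀ x, x ∉ Icc a b → w x = 0) : ∃ C : ℝ, 0 ≤ C ∧ ∀ x, ‖w x‖ ≤ C := by
  obtain ⟨C, hC⟩ := (hasCompactSupport_of_off h0).exists_bound_of_continuous hw
  exact ⟨C, (norm_nonneg _).trans (hC 0), hC⟩

theorem exists_bdd_iteratedDeriv {w : ℝ → ℂ} (hw : ContDiff ℝ ∞ w) {a b : ℝ}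
    (h0 : ∀ x, x ∉ Icc a b → w x = 0) (N : ℕ) :
    ∃ C : ℝ, 0 ≤ C ∧ ∀ i ≤ N, ∀ x, ‖iteratedDeriv i w x‖ ≤ C := by
  induction N with
  | zero =>
    obtain ⟨C, hC0, hC⟩ := exists_bdd_of_off (contDiff_iteratedDeriv hw 0).continuous
      (iteratedDeriv_eq_zero_off h0 0)
    refine ⟨C, hC0, fun i hi x => ?_⟩
    obtain rfl : i = 0 := by omega
    exact hC x
  | succ N ih =>
    obtain ⟨C, hC0, hC⟩ := ih
    obtain ⟨D, hD0, hD⟩ := exists_bdd_of_off (contDiff_iteratedDeriv hw (N + 1)).continuous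
      (iteratedDeriv_eq_zero_off h0 (N + 1))
    refine ⟨max C D, le_max_of_le_left hC0, fun i hi x => ?_⟩
    rcases Nat.lt_or_ge N i with h | h
    · obtain rfl : i = N + 1 := by omega
      exact (hD x).trans (le_max_right _ _)
    · exact (hC i h x).trans (le_max_left _ _)

/-! ### The scaled bounds -/

theorem Sn.mono {N N' : ℕ} (hN : N' ≤ N) {h K : ℝ} {w : ℝ → ℂ} (H : Sn N h K w) :
    Sn N' h K w := fun i hi x => H i (hi.trans hN) x

theorem Sn.nonneg {N : ℕ} {h K : ℝ} {w : ℝ → ℂ} (H : Sn N h K w) : 0 ≤ K := by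
  have := H 0 (Nat.zero_le _) 0
  simp only [pow_zero, one_mul] at this
  exact (norm_nonneg _).trans this

theorem Sn.mul {N : ℕ} {h K C : ℝ} (hh : 0 < h) (hh1 : h ≤ 1) {c w : ℝ → ℂ}
    (hc : ContDiff ℝ ∞ c) (hw : ContDiff ℝ ∞ w) (hC0 : 0 ≤ C)
    (hC : ∀ i ≤ N, ∀ x, ‖iteratedDeriv i c x‖ ≤ C) (H : Sn N h K w) :
    Sn N h (2 ^ N * C * K) (c * w) := by
  intro i hi x
  have hK := H.nonneg
  rw [iteratedDeriv_mul (hc.contDiffAt.of_le (by exact_mod_cast le_top))
    (hw.contDiffAt.of_le (by exact_mod_cast le_top))]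
  calc h ^ i * ‖∑ j ∈ Finset.range (i + 1),
        (i.choose j : ℂ) * iteratedDeriv j c x * iteratedDeriv (i - j) w x‖
      ≤ h ^ i * ∑ j ∈ Finset.range (i + 1),
        ‖(i.choose j : ℂ) * iteratedDeriv j c x * iteratedDeriv (i - j) w x‖ := by
        gcongr
        exact norm_sum_le _ _
    _ = ∑ j ∈ Finset.range (i + 1),
        h ^ i * ‖(i.choose j : ℂ) * iteratedDeriv j c x * iteratedDeriv (i - j) w x‖ := by
        rw [Finset.mul_sum]
    _ ≤ ∑ j ∈ Finset.range (i + 1), (i.choose j : ℝ) * (C * K) := by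
        apply Finset.sum_le_sum
        intro j hj
        have hj' : j ≤ i := by simpa [Nat.lt_succ_iff] using hj
        rw [norm_mul, norm_mul, Complex.norm_natCast]
        have h1 : h ^ i = h ^ j * h ^ (i - j) := by rw [← pow_add]; congr 1; omega
        have h2 : h ^ (i - j) * ‖iteratedDeriv (i - j) w x‖ ≤ K := H (i - j) (by omega) x
        have h3 : ‖iteratedDeriv j c x‖ ≤ C := hC j (by omega) x
        have h4 : h ^ j ≤ 1 := pow_le_one₀ hh.le hh1
        calc h ^ i * ((i.choose j : ℝ) * ‖iteratedDeriv j c x‖ * ‖iteratedDeriv (i - j) w x‖)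
            = (i.choose j : ℝ) * ((h ^ j * ‖iteratedDeriv j c x‖) *
              (h ^ (i - j) * ‖iteratedDeriv (i - j) w x‖)) := by rw [h1]; ring
          _ ≤ (i.choose j : ℝ) * ((1 * C) * K) := by gcongr
          _ = (i.choose j : ℝ) * (C * K) := by ring
    _ = 2 ^ i * (C * K) := by
        rw [← Finset.sum_mul]
        congr 1
        exact_mod_cast Nat.sum_range_choose i
    _ ≤ 2 ^ N * (C * K) := by
        gcongr
        norm_num
    _ = 2 ^ N * C * K := by ring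

theorem Sn.iteratedDeriv {N j : ℕ} {h K : ℝ} (hh : 0 < h) {w : ℝ → ℂ} (H : Sn (N + j) h K w) :
    Sn N h (K * h⁻¹ ^ j) (iteratedDeriv j w) := by
  intro i hi x
  rw [iteratedDeriv_comp_add]
  have h1 := H (i + j) (by omega) x
  have h2 : h ^ i = h ^ (i + j) * h⁻¹ ^ j := by
    rw [pow_add, mul_assoc, ← mul_pow, mul_inv_cancel₀ hh.ne', one_pow, mul_one]
  rw [h2, mul_assoc, mul_comm (h⁻¹ ^ j), ← mul_assoc]
  gcongr

/-! ### B2 -/

theorem rpow_neg_mono {h s t : ℝ} (hh : 0 < h) (hh1 : h ≤ 1) (hst : s ≤ t) :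
    h ^ (-s) ≤ h ^ (-t) :=
  Real.rpow_le_rpow_of_exponent_ge hh hh1 (by linarith)

theorem Good.cutoff_aux {ν : Measure ℝ} [IsProbabilityMeasure ν] {ε : ℝ} (hε' : ε < 1) {M : ℕ}
    (hG : ∀ m ≤ M, Good ν ε m) {a b : ℝ} (ha : 0 < a) (hb : b < 1) (k : ℕ) :
    ∀ m : ℕ, m + k ≤ M → ∀ c : ℝ → ℂ, ContDiff ℝ ∞ c → (∀ x, x ∉ Icc a b → c x = 0) →
    ∃ N : ℕ, ∃ C : ℝ, 0 ≤ C ∧ ∀ h K : ℝ, 0 < h → h ≤ 1 → ∀ G : ℝ → ℂ, ContDiff ℝ ∞ G →
      Sn N h K G → ‖∫ x, iteratedDeriv m (c * iteratedDeriv k G) x ∂ν‖ ≤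
        C * K * h ^ (-((m + k : ℕ) * (1 - ε))) := by
  induction k with
  | zero =>
    intro m hm c hc hc0
    obtain ⟨N, C, hC0, hC⟩ := hG m (by omega) a b ha hb
    obtain ⟨D, hD0, hD⟩ := exists_bdd_iteratedDeriv hc hc0 N
    refine ⟨N, C * (2 ^ N * D), by positivity, fun h K hh hh1 G hGs hS => ?_⟩
    have h1 := hC h (2 ^ N * D * K) hh hh1 (c * G) (hc.mul hGs)
      (fun x hx => by simp [hc0 x hx]) (hS.mul hh hh1 hc hGs hD0 hD)
    rw [iteratedDeriv_zero]
    refine h1.trans (le_of_eq ?_)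
    simp only [add_zero]
    ring
  | succ k ih =>
    intro m hm c hc hc0
    obtain ⟨N₁, C₁, hC₁, H₁⟩ := ih (m + 1) (by omega) c hc hc0
    have hc0' : ∀ x, x ∉ Icc a b → deriv c x = 0 := by
      have := iteratedDeriv_eq_zero_off hc0 1
      rwa [iteratedDeriv_one] at this
    obtain ⟨N₂, C₂, hC₂, H₂⟩ := ih m (by omega) (deriv c) (contDiff_deriv hc) hc0'
    refine ⟨max N₁ N₂, C₁ + C₂, by positivity, fun h K hh hh1 G hGs hS => ?_⟩
    have hK := hS.nonneg
    have e1 := H₁ h K hh hh1 G hGs (hS.mono (le_max_left _ _))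
    have e2 := H₂ h K hh hh1 G hGs (hS.mono (le_max_right _ _))
    have hGk := contDiff_iteratedDeriv hGs k
    have key : ∀ x, iteratedDeriv m (c * iteratedDeriv (k + 1) G) x =
        iteratedDeriv (m + 1) (c * iteratedDeriv k G) x -
          iteratedDeriv m (deriv c * iteratedDeriv k G) x := by
      intro x
      have h1 : c * iteratedDeriv (k + 1) G =
          deriv (c * iteratedDeriv k G) - deriv c * iteratedDeriv k G := by
        funext y
        have := ((hasDerivAt_of_smooth hc y).mul (hasDerivAt_of_smooth hGk y)).deriv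
        simp only [Pi.mul_apply, Pi.sub_apply]
        rw [this, iteratedDeriv_succ]
        ring
      have hA : ContDiff ℝ ∞ (deriv (c * iteratedDeriv k G)) := contDiff_deriv (hc.mul hGk)
      have hB : ContDiff ℝ ∞ (deriv c * iteratedDeriv k G) := (contDiff_deriv hc).mul hGk
      rw [h1, iteratedDeriv_sub (hA.contDiffAt.of_le (by exact_mod_cast le_top))
        (hB.contDiffAt.of_le (by exact_mod_cast le_top)), iteratedDeriv_deriv]
    have off1 : ∀ x, x ∉ Icc a b → (c * iteratedDeriv k G) x = 0 := fun x hx => by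
      simp [hc0 x hx]
    have off2 : ∀ x, x ∉ Icc a b → (deriv c * iteratedDeriv k G) x = 0 := fun x hx => by
      simp [hc0' x hx]
    have i1 : Integrable (iteratedDeriv (m + 1) (c * iteratedDeriv k G)) ν :=
      (contDiff_iteratedDeriv (hc.mul hGk) _).continuous.integrable_of_hasCompactSupport
        (hasCompactSupport_of_off (iteratedDeriv_eq_zero_off off1 _))
    have i2 : Integrable (iteratedDeriv m (deriv c * iteratedDeriv k G)) ν :=
      (contDiff_iteratedDeriv ((contDiff_deriv hc).mul hGk)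
        _).continuous.integrable_of_hasCompactSupport
        (hasCompactSupport_of_off (iteratedDeriv_eq_zero_off off2 _))
    simp only [key]
    rw [integral_sub i1 i2]
    have hexp : h ^ (-(((m + k : ℕ) : ℝ) * (1 - ε))) ≤
        h ^ (-(((m + 1 + k : ℕ) : ℝ) * (1 - ε))) := by
      apply rpow_neg_mono hh hh1
      apply mul_le_mul_of_nonneg_right _ (by linarith)
      exact_mod_cast (by omega : m + k ≤ m + 1 + k)
    calc ‖∫ x, iteratedDeriv (m + 1) (c * iteratedDeriv k G) x ∂ν -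
          ∫ x, iteratedDeriv m (deriv c * iteratedDeriv k G) x ∂ν‖
        ≤ C₁ * K * h ^ (-(((m + 1 + k : ℕ) : ℝ) * (1 - ε))) +
          C₂ * K * h ^ (-(((m + k : ℕ) : ℝ) * (1 - ε))) := (norm_sub_le _ _).trans (add_le_add e1 e2)
      _ ≤ C₁ * K * h ^ (-(((m + 1 + k : ℕ) : ℝ) * (1 - ε))) +
          C₂ * K * h ^ (-(((m + 1 + k : ℕ) : ℝ) * (1 - ε))) := by gcongr
      _ = (C₁ + C₂) * K * h ^ (-(((m + (k + 1) : ℕ) : ℝ) * (1 - ε))) := by
          rw [show m + 1 + k = m + (k + 1) by omega]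
          ring

/-- B2. Cutoffs: a smooth cutoff `c` may stand outside of the derivative. -/
theorem Good.cutoff {ν : Measure ℝ} [IsProbabilityMeasure ν] (_hν : ν (Ioo 0 1)ᶜ = 0) {ε : ℝ}
    (_hε : 0 < ε) (hε' : ε < 1) {M : ℕ} (hG : ∀ m ≤ M, Good ν ε m) {a b : ℝ} (ha : 0 < a)
    (hb : b < 1) {c : ℝ → ℂ} (hc : ContDiff ℝ ∞ c) (hc0 : ∀ x, x ∉ Icc a b → c x = 0) :
    ∃ N : ℕ, ∃ C : ℝ, 0 ≤ C ∧ ∀ h K : ℝ, 0 < h → h ≤ 1 → ∀ G : ℝ → ℂ, ContDiff ℝ ∞ G →
      Sn N h K G → ‖∫ x, c x * iteratedDeriv M G x ∂ν‖ ≤ C * K * h ^ (-(M * (1 - ε))) := by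
  obtain ⟨N, C, hC0, H⟩ := Good.cutoff_aux hε' hG ha hb M 0 (by omega) c hc hc0
  refine ⟨N, C, hC0, fun h K hh hh1 G hGs hS => ?_⟩
  have := H h K hh hh1 G hGs hS
  rw [iteratedDeriv_zero] at this
  simpa using this

/-! ### Parameter integrals -/

/-- Derivative of `x ↦ ∫ r(y) f(x y) dν(y)`. -/
theorem hasDerivAt_paramInt {ν : Measure ℝ} [IsProbabilityMeasure ν] (hν : ν (Ioo 0 1)ᶜ = 0)
    {r f : ℝ → ℂ} (hr : Continuous r) {B : ℝ} (hB : ∀ y ∈ Ioo (0 : ℝ) 1, ‖r y‖ ≤ B)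
    (hf : ContDiff ℝ ∞ f) {A D : ℝ} (hA : ∀ x, ‖f x‖ ≤ A) (hD : ∀ x, ‖deriv f x‖ ≤ D) (x : ℝ) :
    HasDerivAt (fun x => ∫ y, r y * f (x * y) ∂ν) (∫ y, (r y * y) * deriv f (x * y) ∂ν) x := by
  have hB0 : 0 ≤ B := (norm_nonneg _).trans (hB (1 / 2) (by constructor <;> norm_num))
  have hA0 : 0 ≤ A := (norm_nonneg _).trans (hA 0)
  have hD0 : 0 ≤ D := (norm_nonneg _).trans (hD 0)
  have hfc := hf.continuous
  have hfd := (contDiff_deriv hf).continuous
  refine (hasDerivAt_integral_of_dominated_loc_of_deriv_le (μ := ν)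
    (F := fun x y => r y * f (x * y)) (F' := fun x y => (r y * y) * deriv f (x * y))
    (bound := fun _ => B * D) (x₀ := x) (s := univ) univ_mem ?_ ?_ ?_ ?_ ?_ ?_).2
  · exact Eventually.of_forall fun z => by
      have : Continuous fun y => r y * f (z * y) := by fun_prop
      exact this.aestronglyMeasurable
  · have : Continuous fun y => r y * f (x * y) := by fun_prop
    apply integrable_of_bdd hν this.aestronglyMeasurable (C := B * A)
    intro y hy
    rw [norm_mul]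
    exact mul_le_mul (hB y hy) (hA _) (norm_nonneg _) hB0
  · have : Continuous fun y : ℝ => (r y * y) * deriv f (x * y) := by fun_prop
    exact this.aestronglyMeasurable
  · filter_upwards [ae_mem_of_supp hν] with y hy z _
    rw [norm_mul, norm_mul, Complex.norm_real, Real.norm_eq_abs, abs_of_pos hy.1]
    have h1 := hB y hy
    have h2 := hD (z * y)
    calc ‖r y‖ * y * ‖deriv f (z * y)‖ ≤ B * 1 * D :=
          mul_le_mul (mul_le_mul h1 hy.2.le hy.1.le hB0) h2 (norm_nonneg _) (by positivity)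
      _ = B * D := by ring
  · exact integrable_const _
  · exact Eventually.of_forall fun y z _ => by
      have h1 : HasDerivAt (fun z : ℝ => z * y) y z := by simpa using (hasDerivAt_id z).mul_const y
      have h2 := (hasDerivAt_of_smooth hf (z * y)).scomp z h1
      have h3 := h2.const_mul (r y)
      have e : r y * y * deriv f (z * y) = r y * (y • deriv f (z * y)) := by
        rw [Complex.real_smul]; ring
      change HasDerivAt (fun x => r y * f (x * y)) (r y * y * deriv f (z * y)) z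
      rw [e]
      exact h3

/-- All derivatives of `x ↦ ∫ r(y) f(x y) dν(y)`, for `f` smooth and vanishing off `[a,b]`. -/
theorem iteratedDeriv_paramInt {ν : Measure ℝ} [IsProbabilityMeasure ν] (hν : ν (Ioo 0 1)ᶜ = 0)
    {a b : ℝ} (n : ℕ) : ∀ {r f : ℝ → ℂ}, Continuous r →
    (∃ B : ℝ, ∀ y ∈ Ioo (0 : ℝ) 1, ‖r y‖ ≤ B) → ContDiff ℝ ∞ f → (∀ x, x ∉ Icc a b → f x = 0) →
    iteratedDeriv n (fun x => ∫ y, r y * f (x * y) ∂ν) =
      fun x => ∫ y, (r y * (y : ℂ) ^ n) * iteratedDeriv n f (x * y) ∂ν := by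
  induction n with
  | zero =>
    intro r f hr hB hf h0
    simp
  | succ n ih =>
    intro r f hr hB hf h0
    obtain ⟨B, hB⟩ := hB
    obtain ⟨A, -, hA⟩ := exists_bdd_of_off hf.continuous h0
    have h0' : ∀ x, x ∉ Icc a b → deriv f x = 0 := by
      have := iteratedDeriv_eq_zero_off h0 1
      rwa [iteratedDeriv_one] at this
    obtain ⟨D, -, hD⟩ := exists_bdd_of_off (contDiff_deriv hf).continuous h0'
    have h1 : deriv (fun x => ∫ y, r y * f (x * y) ∂ν) =
        fun x => ∫ y, (r y * y) * deriv f (x * y) ∂ν := by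
      funext x
      exact (hasDerivAt_paramInt hν hr hB hf hA hD x).deriv
    rw [iteratedDeriv_succ', h1, ih (by fun_prop) ⟨B, fun y hy => ?_⟩ (contDiff_deriv hf) h0']
    · funext x
      simp only [iteratedDeriv_deriv]
      congr 1
      funext y
      ring
    · rw [norm_mul, Complex.norm_real, Real.norm_eq_abs, abs_of_pos hy.1]
      have := hB y hy
      nlinarith [norm_nonneg (r y), hy.1, hy.2]

theorem contDiff_paramInt {ν : Measure ℝ} [IsProbabilityMeasure ν] (hν : ν (Ioo 0 1)ᶜ = 0)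
    {a b : ℝ} {r f : ℝ → ℂ} (hr : Continuous r)
    (hB : ∃ B : ℝ, ∀ y ∈ Ioo (0 : ℝ) 1, ‖r y‖ ≤ B) (hf : ContDiff ℝ ∞ f)
    (h0 : ∀ x, x ∉ Icc a b → f x = 0) :
    ContDiff ℝ ∞ (fun x => ∫ y, r y * f (x * y) ∂ν) := by
  apply contDiff_of_differentiable_iteratedDeriv
  intro m _
  rw [iteratedDeriv_paramInt hν m hr hB hf h0]
  intro x
  obtain ⟨B, hB⟩ := hB
  obtain ⟨A, -, hA⟩ := exists_bdd_of_off (contDiff_iteratedDeriv hf m).continuous
    (iteratedDeriv_eq_zero_off h0 m)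
  obtain ⟨D, -, hD⟩ := exists_bdd_of_off (contDiff_iteratedDeriv hf (m + 1)).continuous
    (iteratedDeriv_eq_zero_off h0 (m + 1))
  refine (hasDerivAt_paramInt hν (r := fun y => r y * (y : ℂ) ^ m) (by fun_prop) (B := B)
    (fun y hy => ?_) (contDiff_iteratedDeriv hf m) hA (D := D) (fun x => ?_) x).differentiableAt
  · rw [norm_mul, norm_pow, Complex.norm_real, Real.norm_eq_abs, abs_of_pos hy.1]
    have h1 := hB y hy
    have h2 : y ^ m ≤ 1 := pow_le_one₀ hy.1.le hy.2.le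
    have h3 : 0 ≤ y ^ m := pow_nonneg hy.1.le _
    nlinarith [norm_nonneg (r y)]
  · rw [← iteratedDeriv_succ]
    exact hD x

/-! ### The key bound -/

theorem mul_lt_of_mem {a x y : ℝ} (ha : 0 < a) (hx : x < a) (hy : y ∈ Ioo (0 : ℝ) 1) :
    x * y < a := by
  rcases le_or_gt x 0 with h | h
  · nlinarith [hy.1]
  · nlinarith [hy.1, hy.2]

/-- Key bound for `∫ r(y) w'(x y) dν(y)`. -/
theorem TBd.key {ν : Measure ℝ} [IsProbabilityMeasure ν] (hν : ν (Ioo 0 1)ᶜ = 0) {ε C : ℝ}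
    (hε : 0 < ε) (hε' : ε < 1) (hT : TBd ν ε C) {a b : ℝ} (ha : 0 < a) {r : ℝ → ℂ}
    (hr : ContDiff ℝ ∞ r) {B : ℝ} (hB1 : 1 ≤ B) (hB : ∀ x, ‖r x‖ ≤ B)
    (hB' : ∀ x, ‖deriv r x‖ ≤ B) {h K : ℝ} (hh : 0 < h) (hh1 : h ≤ 1) {w : ℝ → ℂ}
    (hw : ContDiff ℝ ∞ w) (h0 : ∀ x, x ∉ Icc a b → w x = 0) (hK : ∀ x, ‖w x‖ ≤ K)
    (hK' : ∀ x, ‖deriv w x‖ ≤ K * h⁻¹) (x : ℝ) :
    ‖∫ y, r y * deriv w (x * y) ∂ν‖ ≤ (1 + 1 / a) * B * (|C| + 1) * K * h ^ (-(1 - ε)) := by
  have hK0 : 0 ≤ K := (norm_nonneg _).trans (hK 0)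
  have hh' : 1 ≤ h⁻¹ := (one_le_inv₀ hh).2 hh1
  have hpow1 : 1 ≤ h ^ (-(1 - ε)) := by
    rw [Real.rpow_neg hh.le, ← Real.inv_rpow hh.le]
    exact Real.one_le_rpow hh' (by linarith)
  have h0' : ∀ x, x ∉ Icc a b → deriv w x = 0 := by
    have := iteratedDeriv_eq_zero_off h0 1
    rwa [iteratedDeriv_one] at this
  have hrhs : 0 ≤ (1 + 1 / a) * B * (|C| + 1) * K * h ^ (-(1 - ε)) := by
    have := abs_nonneg C
    positivity
  rcases lt_or_ge x a with hxa | hxa
  · have : ∫ y, r y * deriv w (x * y) ∂ν = 0 := by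
      apply integral_eq_zero_of_ae
      filter_upwards [ae_mem_of_supp hν] with y hy
      have h1 := mul_lt_of_mem ha hxa hy
      rw [h0' (x * y) (fun h => absurd h.1 (not_le.2 h1)), mul_zero]
      rfl
    rw [this, norm_zero]
    exact hrhs
  · have hx0 : 0 < x := lt_of_lt_of_le ha hxa
    rcases hK0.eq_or_lt with hK00 | hKpos
    · have hdw : ∀ y, deriv w y = 0 := fun y => by
        have := hK' y
        rw [← hK00, zero_mul] at this
        exact norm_le_zero_iff.1 this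
      simp only [hdw, mul_zero, integral_zero, norm_zero]
      exact hrhs
    · set v : ℝ → ℂ := fun y => r y * w (x * y) with hv
      have hvs : ContDiff ℝ ∞ v := by
        apply hr.mul
        exact hw.comp (contDiff_const.mul contDiff_id)
      have hdv : ∀ y, deriv v y = deriv r y * w (x * y) + r y * (x * deriv w (x * y)) := by
        intro y
        have h1 : HasDerivAt (fun y : ℝ => x * y) x y := by
          simpa using (hasDerivAt_id y).const_mul x
        have h2 := (hasDerivAt_of_smooth hw (x * y)).scomp y h1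
        have h3 := (hasDerivAt_of_smooth hr y).mul h2
        have e : deriv r y * w (x * y) + r y * (x * deriv w (x * y)) =
            deriv r y * (w ∘ fun y => x * y) y + r y * (x • deriv w (x * y)) := by
          rw [Complex.real_smul]; rfl
        rw [e]
        exact h3.deriv
      set L : ℝ := B * K with hL
      have hLpos : 0 < L := by positivity
      set R : ℝ := (1 + x) * h⁻¹ with hR
      have hRpos : 0 < R := by positivity
      have hv1 : ∀ y, ‖v y‖ ≤ L := fun y => by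
        rw [hv]
        simp only [norm_mul]
        exact mul_le_mul (hB y) (hK _) (norm_nonneg _) (by linarith)
      have hv2 : ∀ y, ‖deriv v y‖ ≤ L * R := fun y => by
        rw [hdv]
        refine (norm_add_le _ _).trans ?_
        rw [norm_mul, norm_mul, norm_mul, Complex.norm_real, Real.norm_eq_abs, abs_of_pos hx0]
        calc ‖deriv r y‖ * ‖w (x * y)‖ + ‖r y‖ * (x * ‖deriv w (x * y)‖)
            ≤ B * K + B * (x * (K * h⁻¹)) := by
              have e1 := hB y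
              have e2 := hB' y
              have e3 := hK (x * y)
              have e4 := hK' (x * y)
              gcongr
          _ ≤ B * K * h⁻¹ + B * (x * (K * h⁻¹)) := by
              have : B * K ≤ B * K * h⁻¹ := le_mul_of_one_le_right (by positivity) hh'
              linarith
          _ = L * R := by rw [hL, hR]; ring
      have hT' := hT R hRpos (fun y => (L⁻¹ : ℂ) * v y) (contDiff_const.mul hvs)
        (fun y => by
          rw [norm_mul, ← Complex.ofReal_inv, Complex.norm_real, Real.norm_eq_abs,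
            abs_of_pos (inv_pos.2 hLpos), inv_mul_le_iff₀ hLpos, mul_one]
          exact hv1 y)
        (fun y => by
          rw [deriv_const_mul _ (hasDerivAt_of_smooth hvs y).differentiableAt, norm_mul,
            ← Complex.ofReal_inv, Complex.norm_real, Real.norm_eq_abs,
            abs_of_pos (inv_pos.2 hLpos), inv_mul_le_iff₀ hLpos]
          exact hv2 y)
      have hdc : ∀ y, deriv (fun y => (L⁻¹ : ℂ) * v y) y = (L⁻¹ : ℂ) * deriv v y := fun y =>
        deriv_const_mul _ (hasDerivAt_of_smooth hvs y).differentiableAt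
      simp only [hdc] at hT'
      rw [integral_const_mul, norm_mul, ← Complex.ofReal_inv, Complex.norm_real,
        Real.norm_eq_abs, abs_of_pos (inv_pos.2 hLpos), inv_mul_le_iff₀ hLpos] at hT'
      -- integrability
      have hrc := hr.continuous
      have hwc := hw.continuous
      have hdr := (contDiff_deriv hr).continuous
      have hdw := (contDiff_deriv hw).continuous
      have i1 : Integrable (fun y => deriv r y * w (x * y)) ν := by
        have : Continuous fun y => deriv r y * w (x * y) := by fun_prop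
        apply integrable_of_bdd hν this.aestronglyMeasurable (C := B * K)
        intro y _
        rw [norm_mul]
        exact mul_le_mul (hB' y) (hK _) (norm_nonneg _) (by linarith)
      have i2 : Integrable (fun y => r y * deriv w (x * y)) ν := by
        have : Continuous fun y => r y * deriv w (x * y) := by fun_prop
        apply integrable_of_bdd hν this.aestronglyMeasurable (C := B * (K * h⁻¹))
        intro y _
        rw [norm_mul]
        exact mul_le_mul (hB y) (hK' _) (norm_nonneg _) (by linarith)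
      have hsplit : ∫ y, deriv v y ∂ν =
          ∫ y, deriv r y * w (x * y) ∂ν + x * ∫ y, r y * deriv w (x * y) ∂ν := by
        have e : ∀ y, deriv v y = deriv r y * w (x * y) + x * (r y * deriv w (x * y)) := by
          intro y; rw [hdv]; ring
        simp only [e]
        rw [integral_add i1 (i2.const_mul _), integral_const_mul]
      have hI : (x : ℂ) * ∫ y, r y * deriv w (x * y) ∂ν =
          ∫ y, deriv v y ∂ν - ∫ y, deriv r y * w (x * y) ∂ν := by rw [hsplit]; ring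
      have hI2 : x * ‖∫ y, r y * deriv w (x * y) ∂ν‖ ≤
          L * (C * R ^ (1 - ε)) + B * K := by
        have e1 : x * ‖∫ y, r y * deriv w (x * y) ∂ν‖ =
            ‖(x : ℂ) * ∫ y, r y * deriv w (x * y) ∂ν‖ := by
          rw [norm_mul, Complex.norm_real, Real.norm_eq_abs, abs_of_pos hx0]
        rw [e1, hI]
        refine (norm_sub_le _ _).trans (add_le_add hT' ?_)
        apply norm_integral_le_of_bdd hν
        intro y _
        rw [norm_mul]
        exact mul_le_mul (hB' y) (hK _) (norm_nonneg _) (by linarith)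
      have hRpow : R ^ (1 - ε) ≤ (1 + x) * h ^ (-(1 - ε)) := by
        rw [hR, Real.mul_rpow (by linarith) (by positivity), Real.inv_rpow hh.le,
          ← Real.rpow_neg hh.le]
        gcongr
        calc (1 + x) ^ (1 - ε) ≤ (1 + x) ^ (1 : ℝ) :=
              Real.rpow_le_rpow_of_exponent_le (by linarith) (by linarith)
          _ = 1 + x := Real.rpow_one _
      have hfin : x * ‖∫ y, r y * deriv w (x * y) ∂ν‖ ≤
          (1 + x) * (B * (|C| + 1) * K * h ^ (-(1 - ε))) := by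
        refine hI2.trans ?_
        calc L * (C * R ^ (1 - ε)) + B * K
            ≤ L * (|C| * ((1 + x) * h ^ (-(1 - ε)))) + B * K * ((1 + x) * h ^ (-(1 - ε))) := by
              apply add_le_add
              · apply mul_le_mul_of_nonneg_left _ hLpos.le
                apply mul_le_mul (le_abs_self C) hRpow (by positivity) (abs_nonneg _)
              · apply le_mul_of_one_le_right (by positivity)
                nlinarith
          _ = (1 + x) * (B * (|C| + 1) * K * h ^ (-(1 - ε))) := by rw [hL]; ring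
      have hx1 : (1 + x) ≤ x * (1 + 1 / a) := by
        have : 1 ≤ x * (1 / a) := by
          rw [mul_one_div, le_div_iff₀ ha]
          linarith
        linarith
      have hQ : 0 ≤ B * (|C| + 1) * K * h ^ (-(1 - ε)) := by
        have := abs_nonneg C
        positivity
      have : x * ‖∫ y, r y * deriv w (x * y) ∂ν‖ ≤
          x * ((1 + 1 / a) * B * (|C| + 1) * K * h ^ (-(1 - ε))) := by
        refine hfin.trans ?_
        calc (1 + x) * (B * (|C| + 1) * K * h ^ (-(1 - ε)))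
            ≤ (x * (1 + 1 / a)) * (B * (|C| + 1) * K * h ^ (-(1 - ε))) := by gcongr
          _ = x * ((1 + 1 / a) * B * (|C| + 1) * K * h ^ (-(1 - ε))) := by ring
      exact le_of_mul_le_mul_left this hx0

/-- Scaled bounds for the parameter integral. -/
theorem TBd.paramInt_Sn {ν : Measure ℝ} [IsProbabilityMeasure ν] (hν : ν (Ioo 0 1)ᶜ = 0)
    {ε C : ℝ} (hε : 0 < ε) (hε' : ε < 1) (hT : TBd ν ε C) {a b : ℝ} (ha : 0 < a) {r : ℝ → ℂ}
    (hr : ContDiff ℝ ∞ r) {a' b' : ℝ} (hr0 : ∀ x, x ∉ Icc a' b' → r x = 0) (N : ℕ) :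
    ∃ D : ℝ, 0 ≤ D ∧ ∀ h K : ℝ, 0 < h → h ≤ 1 → ∀ w : ℝ → ℂ, ContDiff ℝ ∞ w →
      (∀ x, x ∉ Icc a b → w x = 0) → Sn (N + 1) h K w →
      Sn N h (D * K * h ^ (-(1 - ε))) (fun x => ∫ y, r y * deriv w (x * y) ∂ν) := by
  have hri : ∀ i : ℕ, ContDiff ℝ ∞ (fun x : ℝ => r x * (x : ℂ) ^ i) := fun i =>
    hr.mul (Complex.ofRealCLM.contDiff.pow i)
  have hri0 : ∀ i : ℕ, ∀ x, x ∉ Icc a' b' → r x * (x : ℂ) ^ i = 0 := fun i x hx => by
    rw [hr0 x hx, zero_mul]
  have h1 : ∀ i : ℕ, ∃ B : ℝ, 1 ≤ B ∧ (∀ x : ℝ, ‖r x * (x : ℂ) ^ i‖ ≤ B) ∧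
      ∀ x : ℝ, ‖deriv (fun x : ℝ => r x * (x : ℂ) ^ i) x‖ ≤ B := by
    intro i
    obtain ⟨B1, hB1, H1⟩ := exists_bdd_of_off (hri i).continuous (hri0 i)
    have h2 := iteratedDeriv_eq_zero_off (hri0 i) 1
    rw [iteratedDeriv_one] at h2
    obtain ⟨B2, hB2, H2⟩ := exists_bdd_of_off (contDiff_deriv (hri i)).continuous h2
    refine ⟨1 + B1 + B2, by linarith, fun x => (H1 x).trans (by linarith),
      fun x => (H2 x).trans (by linarith)⟩
  choose Bf hBf1 hBf2 hBf3 using h1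
  have hC := abs_nonneg C
  have hBsum : ∀ i ≤ N, Bf i ≤ ∑ j ∈ Finset.range (N + 1), Bf j := fun i hi =>
    Finset.single_le_sum (f := Bf) (fun j _ => by linarith [hBf1 j])
      (Finset.mem_range.2 (by omega))
  set B : ℝ := ∑ j ∈ Finset.range (N + 1), Bf j with hBdef
  have hB1 : 1 ≤ B := (hBf1 0).trans (hBsum 0 (Nat.zero_le _))
  refine ⟨(1 + 1 / a) * B * (|C| + 1), by positivity, ?_⟩
  intro h K hh hh1 w hw h0 hS i hi x
  have h0' : ∀ x, x ∉ Icc a b → deriv w x = 0 := by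
    have := iteratedDeriv_eq_zero_off h0 1
    rwa [iteratedDeriv_one] at this
  have hrb : ∃ B : ℝ, ∀ y ∈ Ioo (0 : ℝ) 1, ‖r y‖ ≤ B := by
    obtain ⟨B1, -, H1⟩ := exists_bdd_of_off hr.continuous hr0
    exact ⟨B1, fun y _ => H1 y⟩
  rw [iteratedDeriv_paramInt hν i hr.continuous hrb (contDiff_deriv hw) h0']
  have e : iteratedDeriv i (deriv w) = deriv (iteratedDeriv i w) := by
    rw [iteratedDeriv_deriv, iteratedDeriv_succ]
  rw [e]
  have hhi : 0 < h ^ i := pow_pos hh i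
  have hK1 : ∀ y, ‖iteratedDeriv i w y‖ ≤ K * h⁻¹ ^ i := fun y => by
    have := hS i (by omega) y
    rw [inv_pow, ← div_eq_mul_inv, le_div_iff₀ hhi, mul_comm]
    exact this
  have hK2 : ∀ y, ‖deriv (iteratedDeriv i w) y‖ ≤ K * h⁻¹ ^ i * h⁻¹ := fun y => by
    have := hS (i + 1) (by omega) y
    rw [← iteratedDeriv_succ, mul_assoc, ← pow_succ, inv_pow, ← div_eq_mul_inv,
      le_div_iff₀ (pow_pos hh _), mul_comm]
    exact this
  have key := hT.key hν hε hε' ha (hri i) hB1 (fun x => (hBf2 i x).trans (hBsum i hi))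
    (fun x => (hBf3 i x).trans (hBsum i hi)) hh hh1 (contDiff_iteratedDeriv hw i)
    (iteratedDeriv_eq_zero_off h0 i) hK1 hK2 x
  calc h ^ i * ‖∫ y, (r y * (y : ℂ) ^ i) * deriv (iteratedDeriv i w) (x * y) ∂ν‖
      ≤ h ^ i * ((1 + 1 / a) * B * (|C| + 1) * (K * h⁻¹ ^ i) * h ^ (-(1 - ε))) := by gcongr
    _ = (1 + 1 / a) * B * (|C| + 1) * K * h ^ (-(1 - ε)) * (h ^ i * h⁻¹ ^ i) := by ring
    _ = (1 + 1 / a) * B * (|C| + 1) * K * h ^ (-(1 - ε)) := by
        rw [← mul_pow, mul_inv_cancel₀ hh.ne', one_pow, mul_one]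

/-! ### Smooth steps -/

/-- A smooth step: `0` for `x ≤ l`, `1` for `u ≤ x`. -/
noncomputable def stp (l u x : ℝ) : ℂ := (Real.smoothTransition ((x - l) / (u - l)) : ℝ)

theorem contDiff_stp (l u : ℝ) : ContDiff ℝ ∞ (stp l u) := by
  unfold stp
  apply Complex.ofRealCLM.contDiff.comp
  apply Real.smoothTransition.contDiff.comp
  exact (contDiff_id.sub contDiff_const).div_const _

theorem stp_of_le {l u x : ℝ} (hlu : l < u) (hx : x ≤ l) : stp l u x = 0 := by
  unfold stp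
  rw [Real.smoothTransition.zero_of_nonpos, Complex.ofReal_zero]
  exact div_nonpos_of_nonpos_of_nonneg (by linarith) (by linarith)

theorem stp_of_ge {l u x : ℝ} (hlu : l < u) (hx : u ≤ x) : stp l u x = 1 := by
  unfold stp
  rw [Real.smoothTransition.one_of_one_le, Complex.ofReal_one]
  rw [le_div_iff₀ (by linarith)]
  linarith

theorem norm_stp_le (l u x : ℝ) : ‖stp l u x‖ ≤ 1 := by
  unfold stp
  rw [Complex.norm_real, Real.norm_eq_abs, abs_of_nonneg (Real.smoothTransition.nonneg _)]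
  exact Real.smoothTransition.le_one _

/-- A smooth function with compact support in `(0, ∞)`, equal to `y^(-M)` on `[a,1]`. -/
theorem exists_rho {a : ℝ} (ha : 0 < a) (M : ℕ) : ∃ ρ : ℝ → ℂ, ContDiff ℝ ∞ ρ ∧
    (∀ x, x ∉ Icc (a / 2) 2 → ρ x = 0) ∧ ∀ y, a ≤ y → y ≤ 1 → ρ y * (y : ℂ) ^ M = 1 := by
  refine ⟨fun y => stp (a / 2) a y * (1 - stp 1 2 y) * ((y : ℂ) ^ M)⁻¹, ?_, ?_, ?_⟩
  · rw [contDiff_iff_contDiffAt]
    intro y
    rcases lt_or_ge y (a / 2) with h | h
    · have h1 : (fun y : ℝ => stp (a / 2) a y * (1 - stp 1 2 y) * ((y : ℂ) ^ M)⁻¹)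
          =ᶠ[𝓝 y] fun _ => 0 := by
        filter_upwards [Iio_mem_nhds h] with z hz
        rw [stp_of_le (by linarith) (le_of_lt hz), zero_mul, zero_mul]
      exact contDiffAt_const.congr_of_eventuallyEq h1
    · have hy : (y : ℂ) ^ M ≠ 0 := pow_ne_zero _ (Complex.ofReal_ne_zero.2 (by linarith))
      have h1 : ContDiff ℝ ∞ (fun y : ℝ => stp (a / 2) a y * (1 - stp 1 2 y)) :=
        (contDiff_stp _ _).mul (contDiff_const.sub (contDiff_stp _ _))
      have h2 : ContDiff ℝ ∞ (fun y : ℝ => (y : ℂ) ^ M) := Complex.ofRealCLM.contDiff.pow M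
      exact h1.contDiffAt.mul (h2.contDiffAt.inv hy)
  · intro x hx
    simp only [mem_Icc, not_and_or, not_le] at hx
    beta_reduce
    rcases hx with hx | hx
    · rw [stp_of_le (by linarith : a / 2 < a) hx.le, zero_mul, zero_mul]
    · rw [stp_of_ge (by norm_num : (1 : ℝ) < 2) hx.le, sub_self, mul_zero, zero_mul]
  · intro y hy hy1
    have hy0 : (y : ℂ) ^ M ≠ 0 := pow_ne_zero _ (Complex.ofReal_ne_zero.2 (by linarith))
    beta_reduce
    rw [stp_of_ge (by linarith : a / 2 < a) hy, stp_of_le (by norm_num : (1 : ℝ) < 2) hy1,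
      sub_zero, one_mul, one_mul, inv_mul_cancel₀ hy0]

/-! ### B1 -/

/-- B1 (bootstrap step). -/
theorem Good.mulC_succ {ν₁ ν₂ : Measure ℝ} [IsProbabilityMeasure ν₁] [IsProbabilityMeasure ν₂]
    (h₁ : ν₁ (Ioo 0 1)ᶜ = 0) (h₂ : ν₂ (Ioo 0 1)ᶜ = 0) {ε C : ℝ} (hε : 0 < ε) (hε' : ε < 1)
    (hT₁ : TBd ν₁ ε C) (hT₂ : TBd ν₂ ε C) {M : ℕ} (hG₁ : ∀ m ≤ M, Good ν₁ ε m)
    (hG₂ : ∀ m ≤ M, Good ν₂ ε m) : Good (mulC ν₁ ν₂) ε (M + 1) := by
  intro a b ha hb
  rcases lt_or_ge b a with hab | hab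
  · refine ⟨0, 0, le_rfl, fun h K hh hh1 w hw h0 hS => ?_⟩
    have hw0 : w = fun _ => 0 := by
      funext x
      apply h0
      rw [Icc_eq_empty (not_le.2 hab)]
      simp
    rw [hw0]
    simp
  have hb0 : 0 < b := lt_of_lt_of_le ha hab
  set s : ℝ := Real.sqrt b with hs
  have hs0 : 0 < s := Real.sqrt_pos.2 hb0
  have hss : s * s = b := Real.mul_self_sqrt hb0.le
  have hs1 : s < 1 := by nlinarith
  have hbs : b ≤ s := by nlinarith
  set b1 : ℝ := (s + 1) / 2 with hb1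
  have hsb1 : s < b1 := by rw [hb1]; linarith
  have hb11 : b1 < 1 := by rw [hb1]; linarith
  set ζ : ℝ → ℂ := stp s b1 with hζ
  have hζs : ContDiff ℝ ∞ ζ := contDiff_stp _ _
  set c : ℝ → ℂ := fun x => (1 - ζ x) * stp (a / 2) a x with hc
  have hcs : ContDiff ℝ ∞ c := (contDiff_const.sub hζs).mul (contDiff_stp _ _)
  have hc0 : ∀ x, x ∉ Icc (a / 2) b1 → c x = 0 := by
    intro x hx
    simp only [mem_Icc, not_and_or, not_le] at hx
    rcases hx with hx | hx
    · rw [hc]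
      simp only [stp_of_le (by linarith : a / 2 < a) hx.le, mul_zero]
    · rw [hc, hζ]
      simp only [stp_of_ge hsb1 hx.le, sub_self, zero_mul]
  obtain ⟨ρ, hρs, hρ0, hρ1⟩ := exists_rho ha M
  set r2 : ℝ → ℂ := fun x => ζ x * ρ x with hr2
  have hr2s : ContDiff ℝ ∞ r2 := hζs.mul hρs
  have hr20 : ∀ x, x ∉ Icc (a / 2) 2 → r2 x = 0 := fun x hx => by
    rw [hr2]; simp only [hρ0 x hx, mul_zero]
  obtain ⟨N₁, C₁, hC₁, H₁⟩ := Good.cutoff h₁ hε hε' hG₁ (half_pos ha) hb11 hcs hc0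
  obtain ⟨N₂, C₂, hC₂, H₂⟩ := hG₂ M le_rfl a s ha hs1
  obtain ⟨D₁, hD₁, K₁⟩ := hT₂.paramInt_Sn h₂ hε hε' (b := b) ha hρs hρ0 N₁
  obtain ⟨D₂, hD₂, K₂⟩ := hT₁.paramInt_Sn h₁ hε hε' (b := b) ha hr2s hr20 N₂
  refine ⟨max N₁ N₂ + 1, C₁ * D₁ + C₂ * D₂, by positivity, fun h K hh hh1 w hw h0 hS => ?_⟩
  have hK := hS.nonneg
  have h0' : ∀ x, x ∉ Icc a b → deriv w x = 0 := by
    have := iteratedDeriv_eq_zero_off h0 1
    rwa [iteratedDeriv_one] at this
  have hdw := contDiff_deriv hw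
  set G : ℝ → ℂ := fun x => ∫ y, ρ y * deriv w (x * y) ∂ν₂ with hGdef
  set H : ℝ → ℂ := fun y => ∫ x, r2 x * deriv w (y * x) ∂ν₁ with hHdef
  have hρb : ∃ B : ℝ, ∀ y ∈ Ioo (0 : ℝ) 1, ‖ρ y‖ ≤ B := by
    obtain ⟨B1, -, H1⟩ := exists_bdd_of_off hρs.continuous hρ0
    exact ⟨B1, fun y _ => H1 y⟩
  have hr2b : ∃ B : ℝ, ∀ y ∈ Ioo (0 : ℝ) 1, ‖r2 y‖ ≤ B := by
    obtain ⟨B1, -, H1⟩ := exists_bdd_of_off hr2s.continuous hr20
    exact ⟨B1, fun y _ => H1 y⟩
  have hGs : ContDiff ℝ ∞ G := contDiff_paramInt h₂ hρs.continuous hρb hdw h0'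
  have hHs : ContDiff ℝ ∞ H := contDiff_paramInt h₁ hr2s.continuous hr2b hdw h0'
  set W : ℝ → ℂ := iteratedDeriv (M + 1) w with hW
  have hWs : ContDiff ℝ ∞ W := contDiff_iteratedDeriv hw _
  have hW0 : ∀ x, x ∉ Icc a b → W x = 0 := iteratedDeriv_eq_zero_off h0 _
  have hGM : ∀ x, iteratedDeriv M G x = ∫ y, (ρ y * (y : ℂ) ^ M) * W (x * y) ∂ν₂ := by
    intro x
    rw [hGdef, iteratedDeriv_paramInt h₂ M hρs.continuous hρb hdw h0']
    simp only [iteratedDeriv_deriv, hW]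
  have hHM : ∀ y, iteratedDeriv M H y = ∫ x, (r2 x * (x : ℂ) ^ M) * W (y * x) ∂ν₁ := by
    intro x
    rw [hHdef, iteratedDeriv_paramInt h₁ M hr2s.continuous hr2b hdw h0']
    simp only [iteratedDeriv_deriv, hW]
  have hH0 : ∀ y, y ∉ Icc a s → H y = 0 := by
    intro y hy
    rw [hHdef]
    apply integral_eq_zero_of_ae
    filter_upwards [ae_mem_of_supp h₁] with x hx
    simp only [mem_Icc, not_and_or, not_le] at hy
    rcases hy with hy | hy
    · rw [h0' (y * x) (fun h => absurd h.1 (not_le.2 (mul_lt_of_mem ha hy hx))), mul_zero]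
      rfl
    · rcases le_or_gt x s with hxs | hxs
      · rw [hr2, hζ]
        simp only [stp_of_le hsb1 hxs, zero_mul]
        rfl
      · rw [h0' (y * x) (fun h => absurd h.2 (not_le.2 (by nlinarith))), mul_zero]
        rfl
  -- bounds
  have B₁ := H₁ h (D₁ * K * h ^ (-(1 - ε))) hh hh1 G hGs
    (K₁ h K hh hh1 w hw h0 (hS.mono (by omega)))
  have B₂ := H₂ h (D₂ * K * h ^ (-(1 - ε))) hh hh1 H hHs hH0
    (K₂ h K hh hh1 w hw h0 (hS.mono (by omega)))
  -- decomposition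
  obtain ⟨A, hA0, hA⟩ := exists_bdd_of_off hWs.continuous hW0
  have hWc := hWs.continuous
  have hWint : Integrable W (mulC ν₁ ν₂) :=
    hWc.integrable_of_hasCompactSupport (hasCompactSupport_of_off hW0)
  have hζc := hζs.continuous
  have inner1 : ∀ᵐ x ∂ν₁, ∫ y, W (x * y) ∂ν₂ = iteratedDeriv M G x := by
    filter_upwards [ae_mem_of_supp h₁] with x hx
    rw [hGM]
    apply integral_congr_ae
    filter_upwards [ae_mem_of_supp h₂] with y hy
    rcases lt_or_ge y a with hya | hya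
    · have : x * y < a := by rw [mul_comm]; exact mul_lt_of_mem ha hya hx
      rw [hW0 (x * y) (fun h => absurd h.1 (not_le.2 this)), mul_zero]
    · rw [hρ1 y hya hy.2.le, one_mul]
  have inner2 : ∀ᵐ x ∂ν₁, (1 - ζ x) * iteratedDeriv M G x = c x * iteratedDeriv M G x := by
    filter_upwards [ae_mem_of_supp h₁] with x hx
    rcases lt_or_ge x a with hxa | hxa
    · have : iteratedDeriv M G x = 0 := by
        rw [hGM]
        apply integral_eq_zero_of_ae
        filter_upwards [ae_mem_of_supp h₂] with y hy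
        rw [hW0 (x * y) (fun h => absurd h.1 (not_le.2 (mul_lt_of_mem ha hxa hy))), mul_zero]
        rfl
      rw [this, mul_zero, mul_zero]
    · rw [hc]
      simp only [stp_of_ge (by linarith : a / 2 < a) hxa, mul_one]
  have inner3 : ∀ᵐ y ∂ν₂, ∫ x, ζ x * W (x * y) ∂ν₁ = iteratedDeriv M H y := by
    filter_upwards [ae_mem_of_supp h₂] with y hy
    rw [hHM]
    apply integral_congr_ae
    filter_upwards [ae_mem_of_supp h₁] with x hx
    rcases le_or_gt x s with hxs | hxs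
    · rw [hr2, hζ]
      simp only [stp_of_le hsb1 hxs, zero_mul]
    · have hxa : a ≤ x := by linarith
      rw [hr2]
      simp only
      rw [mul_assoc (ζ x) (ρ x), hρ1 x hxa hx.2.le, mul_one, mul_comm y x]
  have hbz : ∀ x, ‖ζ x‖ ≤ 1 := norm_stp_le s b1
  have hprodint : Integrable (fun z : ℝ × ℝ => ζ z.1 * W (z.1 * z.2)) (ν₁.prod ν₂) := by
    have : Continuous (fun z : ℝ × ℝ => ζ z.1 * W (z.1 * z.2)) := by fun_prop
    refine Integrable.of_bound this.aestronglyMeasurable A (Eventually.of_forall fun z => ?_)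
    rw [norm_mul]
    calc ‖ζ z.1‖ * ‖W (z.1 * z.2)‖ ≤ 1 * A :=
          mul_le_mul (hbz _) (hA _) (norm_nonneg _) zero_le_one
      _ = A := one_mul _
  have hprodint' : Integrable (fun z : ℝ × ℝ => W (z.1 * z.2)) (ν₁.prod ν₂) := by
    have : Continuous (fun z : ℝ × ℝ => W (z.1 * z.2)) := by fun_prop
    exact Integrable.of_bound this.aestronglyMeasurable A (Eventually.of_forall fun z => hA _)
  have total : ∫ x, W x ∂(mulC ν₁ ν₂) =
      ∫ x, c x * iteratedDeriv M G x ∂ν₁ + ∫ y, iteratedDeriv M H y ∂ν₂ := by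
    rw [integral_mulC hWint]
    have e1 : ∫ x, ∫ y, W (x * y) ∂ν₂ ∂ν₁ =
        ∫ x, (1 - ζ x) * ∫ y, W (x * y) ∂ν₂ ∂ν₁ + ∫ x, ∫ y, ζ x * W (x * y) ∂ν₂ ∂ν₁ := by
      have i0 : Integrable (fun x => ∫ y, W (x * y) ∂ν₂) ν₁ := hprodint'.integral_prod_left
      have i2 : Integrable (fun x => ∫ y, ζ x * W (x * y) ∂ν₂) ν₁ := hprodint.integral_prod_left
      have i1 : Integrable (fun x => (1 - ζ x) * ∫ y, W (x * y) ∂ν₂) ν₁ := by
        have := i0.sub i2
        refine this.congr (Eventually.of_forall fun x => ?_)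
        simp only [Pi.sub_apply, integral_const_mul]
        ring
      rw [← integral_add i1 i2]
      congr 1
      funext x
      rw [integral_const_mul]
      ring
    rw [e1]
    congr 1
    · apply integral_congr_ae
      filter_upwards [inner1, inner2] with x hx1 hx2
      rw [hx1, hx2]
    · rw [integral_integral_swap hprodint]
      exact integral_congr_ae inner3
  have hpow : h ^ (-(1 - ε)) * h ^ (-((M : ℝ) * (1 - ε))) =
      h ^ (-(((M + 1 : ℕ) : ℝ) * (1 - ε))) := by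
    rw [← Real.rpow_add hh]
    congr 1
    push_cast
    ring
  calc ‖∫ x, W x ∂(mulC ν₁ ν₂)‖
      ≤ C₁ * (D₁ * K * h ^ (-(1 - ε))) * h ^ (-((M : ℝ) * (1 - ε))) +
        C₂ * (D₂ * K * h ^ (-(1 - ε))) * h ^ (-((M : ℝ) * (1 - ε))) := by
        rw [total]
        exact (norm_add_le _ _).trans (add_le_add B₁ B₂)
    _ = (C₁ * D₁ + C₂ * D₂) * K * (h ^ (-(1 - ε)) * h ^ (-((M : ℝ) * (1 - ε)))) := by ring
    _ = (C₁ * D₁ + C₂ * D₂) * K * h ^ (-(((M + 1 : ℕ) : ℝ) * (1 - ε))) := by rw [hpow]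

end MP319742
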