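import Pool.Agent.Lib.MP_319742_pr.Bootstrap

/-! Task S2: rapid decay of the Fourier transform of `χ μ`. -/

open MeasureTheory Set Filter Topology
open scoped ENNReal ContDiff

namespace MP319742

theorem contDiff_cexp_I (t : ℝ) : ContDiff ℝ ∞ (fun x : ℝ => Complex.exp (Complex.I * t * x)) := by
  apply ContDiff.cexp
  exact contDiff_const.mul Complex.ofRealCLM.contDiff

theorem iteratedDeriv_cexp_I (t : ℝ) (n : ℕ) :
    iteratedDeriv n (fun x : ℝ => Complex.exp (Complex.I * t * x)) =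
      fun x : ℝ => (Complex.I * t) ^ n * Complex.exp (Complex.I * t * x) := by
  induction n with
  | zero => simp
  | succ n ih =>
    rw [iteratedDeriv_succ, ih]
    funext x
    have h1 : HasDerivAt (fun x : ℝ => Complex.I * t * (x : ℂ)) (Complex.I * t) x := by
      simpa using (Complex.ofRealCLM.hasDerivAt (x := x)).const_mul (Complex.I * t)
    rw [(h1.cexp.const_mul ((Complex.I * t) ^ n)).deriv]
    ring

theorem norm_cexp_I (t x : ℝ) : ‖Complex.exp (Complex.I * t * x)‖ = 1 := by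
  rw [mul_assoc, mul_comm, ← Complex.ofReal_mul]
  exact Complex.norm_exp_ofReal_mul_I _

/-- S2. The hypothesis of S1 follows from `Good` of all orders (uses B2 with
`G = exp (i t x)`, `h = 1/|t|`). -/
theorem decay_of_good {μ : Measure ℝ} [IsProbabilityMeasure μ] (hμ : μ (Ioo 0 1)ᶜ = 0) {ε : ℝ}
    (hε : 0 < ε) (hε' : ε < 1) (hG : ∀ m, Good μ ε m) :
    ∀ (a b : ℝ), 0 < a → b < 1 → ∀ χ : ℝ → ℂ, ContDiff ℝ ∞ χ →
      (∀ x, x ∉ Icc a b → χ x = 0) → ∀ k : ℕ, ∃ C : ℝ, ∀ t : ℝ, 1 ≤ |t| →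
        ‖∫ x, χ x * Complex.exp (Complex.I * t * x) ∂μ‖ * |t| ^ k ≤ C := by
  intro a b ha hb χ hχ hχ0 k
  obtain ⟨M, hM⟩ := exists_nat_ge ((k : ℝ) / ε)
  rw [div_le_iff₀ hε] at hM
  obtain ⟨N, C, hC0, H⟩ := Good.cutoff hμ hε hε' (M := M) (fun m _ => hG m) ha hb hχ hχ0
  refine ⟨C, fun t ht => ?_⟩
  have ht0 : 0 < |t| := by linarith
  have hh1 : |t|⁻¹ ≤ 1 := inv_le_one_of_one_le₀ ht
  have hS : Sn N |t|⁻¹ 1 (fun x : ℝ => Complex.exp (Complex.I * t * x)) := by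
    intro i _ x
    rw [iteratedDeriv_cexp_I, norm_mul, norm_cexp_I, mul_one, norm_pow, norm_mul, Complex.norm_I,
      one_mul, Complex.norm_real, Real.norm_eq_abs, ← mul_pow, inv_mul_cancel₀ ht0.ne', one_pow]
  have h1 := H |t|⁻¹ 1 (inv_pos.2 ht0) hh1 _ (contDiff_cexp_I t) hS
  rw [iteratedDeriv_cexp_I] at h1
  have h2 : ∫ x, χ x * ((Complex.I * t) ^ M * Complex.exp (Complex.I * t * x)) ∂μ =
      (Complex.I * t) ^ M * ∫ x, χ x * Complex.exp (Complex.I * t * x) ∂μ := by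
    rw [← integral_const_mul]
    congr 1
    funext x
    ring
  rw [h2, norm_mul, norm_pow, norm_mul, Complex.norm_I, one_mul, Complex.norm_real,
    Real.norm_eq_abs, mul_one, Real.inv_rpow ht0.le, ← Real.rpow_neg ht0.le, neg_neg] at h1
  set X : ℝ := ‖∫ x, χ x * Complex.exp (Complex.I * t * x) ∂μ‖ with hX
  have h3 : |t| ^ ((M : ℝ) * (1 - ε)) * |t| ^ k ≤ |t| ^ M := by
    rw [← Real.rpow_natCast |t| k, ← Real.rpow_natCast |t| M, ← Real.rpow_add ht0]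
    apply Real.rpow_le_rpow_of_exponent_le ht
    linarith
  have hp : 0 < |t| ^ ((M : ℝ) * (1 - ε)) := Real.rpow_pos_of_pos ht0 _
  have h4 : X * |t| ^ k * |t| ^ ((M : ℝ) * (1 - ε)) ≤ C * |t| ^ ((M : ℝ) * (1 - ε)) := by
    calc X * |t| ^ k * |t| ^ ((M : ℝ) * (1 - ε)) = X * (|t| ^ ((M : ℝ) * (1 - ε)) * |t| ^ k) := by
          ring
      _ ≤ X * |t| ^ M := mul_le_mul_of_nonneg_left h3 (norm_nonneg _)
      _ = |t| ^ M * X := mul_comm _ _
      _ ≤ C * |t| ^ ((M : ℝ) * (1 - ε)) := h1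
  exact le_of_mul_le_mul_right h4 hp

end MP319742
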