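import Mathlib

/-! Definitions and basic lemmas for MP_319742_pr (smooth density of the nontrivial solution of the
cooperative-branching RDE). -/

open MeasureTheory Set
open scoped ENNReal ContDiff

namespace MP319742

/-- Law of the product of two independent variables. -/
noncomputable def mulC (ν₁ ν₂ : Measure ℝ) : Measure ℝ :=
  (ν₁.prod ν₂).map (fun z => z.1 * z.2)

/-- Law of `x ⊕ v = v + (1 - v) x = 1 - (1 - x) (1 - v)`, for independent `x`, `v`. -/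
noncomputable def opl (ν₁ ν₂ : Measure ℝ) : Measure ℝ :=
  (ν₁.prod ν₂).map (fun z => z.2 + (1 - z.2) * z.1)

/-- `μ` is a probability measure on `(0,1)` which solves `X = X₁X₂` (probability `p < 1/2`) or
`X = X₁ ⊕ X₂X₃` (probability `q = 1 - p`). -/
structure Sol (p q : ℝ) (μ : Measure ℝ) : Prop where
  prob : IsProbabilityMeasure μ
  p_pos : 0 < p
  p_lt : p < 1 / 2
  pq : p + q = 1
  supp : μ (Ioo 0 1)ᶜ = 0
  rde : μ = ENNReal.ofReal p • mulC μ μ + ENNReal.ofReal q • opl μ (mulC μ μ)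

/-- Law of the affine map `x ↦ a + b x` of the first step. -/
noncomputable def sig (p q : ℝ) (μ : Measure ℝ) : Measure (ℝ × ℝ) :=
  ENNReal.ofReal p • μ.map (fun y => ((0 : ℝ), y)) +
    ENNReal.ofReal q • (mulC μ μ).map (fun v => (v, 1 - v))

/-- `k`-fold multiplicative convolution power. -/
noncomputable def mulPow (μ : Measure ℝ) : ℕ → Measure ℝ
  | 0 => Measure.dirac 1
  | k + 1 => mulC (mulPow μ k) μ

/-- `|∫ v' dν| ≤ C R^(1-ε)` for all smooth `v` with `|v| ≤ 1`, `|v'| ≤ R`. -/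
def TBd (ν : Measure ℝ) (ε C : ℝ) : Prop :=
  ∀ R : ℝ, 0 < R → ∀ v : ℝ → ℂ, ContDiff ℝ ∞ v → (∀ x, ‖v x‖ ≤ 1) → (∀ x, ‖deriv v x‖ ≤ R) →
    ‖∫ x, deriv v x ∂ν‖ ≤ C * R ^ (1 - ε)

/-- Scaled `C^N` bounds: `h^i |w^(i)| ≤ K` for `i ≤ N`. -/
def Sn (N : ℕ) (h K : ℝ) (w : ℝ → ℂ) : Prop :=
  ∀ i ≤ N, ∀ x, h ^ i * ‖iteratedDeriv i w x‖ ≤ K

/-- Local regularity of order `m ε`: for each compact `[a, b] ⊂ (0,1)` there are `N, C` with
`|∫ w^(m) dν| ≤ C K h^(-m(1-ε))` for all `0 < h ≤ 1` and all smooth `w`, vanishing off `[a,b]`, with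
`h^i |w^(i)| ≤ K` for `i ≤ N`. -/
def Good (ν : Measure ℝ) (ε : ℝ) (m : ℕ) : Prop :=
  ∀ a b : ℝ, 0 < a → b < 1 → ∃ N : ℕ, ∃ C : ℝ, 0 ≤ C ∧ ∀ h K : ℝ, 0 < h → h ≤ 1 → ∀ w : ℝ → ℂ,
    ContDiff ℝ ∞ w → (∀ x, x ∉ Icc a b → w x = 0) → Sn N h K w →
      ‖∫ x, iteratedDeriv m w x ∂ν‖ ≤ C * K * h ^ (-(m * (1 - ε)))

section basic

variable {ν₁ ν₂ : Measure ℝ}

theorem measurable_mul' : Measurable (fun z : ℝ × ℝ => z.1 * z.2) := by fun_prop

theorem measurable_opl' : Measurable (fun z : ℝ × ℝ => z.2 + (1 - z.2) * z.1) := by fun_prop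

instance [IsProbabilityMeasure ν₁] [IsProbabilityMeasure ν₂] :
    IsProbabilityMeasure (mulC ν₁ ν₂) :=
  Measure.isProbabilityMeasure_map measurable_mul'.aemeasurable

instance [IsProbabilityMeasure ν₁] [IsProbabilityMeasure ν₂] :
    IsProbabilityMeasure (opl ν₁ ν₂) :=
  Measure.isProbabilityMeasure_map measurable_opl'.aemeasurable

instance [IsFiniteMeasure ν₁] [IsFiniteMeasure ν₂] : IsFiniteMeasure (mulC ν₁ ν₂) := by
  unfold mulC; infer_instance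

instance [IsFiniteMeasure ν₁] [IsFiniteMeasure ν₂] : IsFiniteMeasure (opl ν₁ ν₂) := by
  unfold opl; infer_instance

instance (μ : Measure ℝ) [IsProbabilityMeasure μ] (k : ℕ) : IsProbabilityMeasure (mulPow μ k) := by
  induction k with
  | zero => unfold mulPow; infer_instance
  | succ k ih => unfold mulPow; infer_instance

theorem mul_mem_Ioo {x y : ℝ} (hx : x ∈ Ioo (0 : ℝ) 1) (hy : y ∈ Ioo (0 : ℝ) 1) :
    x * y ∈ Ioo (0 : ℝ) 1 :=
  ⟨mul_pos hx.1 hy.1, by nlinarith [hx.1, hx.2, hy.1, hy.2]⟩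

theorem opl_mem_Ioo {x v : ℝ} (hx : x ∈ Ioo (0 : ℝ) 1) (hv : v ∈ Ioo (0 : ℝ) 1) :
    v + (1 - v) * x ∈ Ioo (0 : ℝ) 1 :=
  ⟨by nlinarith [hx.1, hx.2, hv.1, hv.2, mul_pos (sub_pos.2 hv.2) hx.1],
    by nlinarith [mul_pos (sub_pos.2 hv.2) (sub_pos.2 hx.2)]⟩

theorem ae_mem_of_supp {ν : Measure ℝ} (h : ν (Ioo 0 1)ᶜ = 0) : ∀ᵐ x ∂ν, x ∈ Ioo (0 : ℝ) 1 := by
  rw [ae_iff]
  exact h

theorem mulC_supp [SFinite ν₁] [SFinite ν₂] (h₁ : ν₁ (Ioo 0 1)ᶜ = 0) (h₂ : ν₂ (Ioo 0 1)ᶜ = 0) :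
    mulC ν₁ ν₂ (Ioo 0 1)ᶜ = 0 := by
  rw [mulC, Measure.map_apply measurable_mul' measurableSet_Ioo.compl]
  have h1 : ∀ᵐ z ∂(ν₁.prod ν₂), z.1 ∈ Ioo (0 : ℝ) 1 :=
    Measure.quasiMeasurePreserving_fst.ae (ae_mem_of_supp h₁)
  have h2 : ∀ᵐ z ∂(ν₁.prod ν₂), z.2 ∈ Ioo (0 : ℝ) 1 :=
    Measure.quasiMeasurePreserving_snd.ae (ae_mem_of_supp h₂)
  have h3 : ∀ᵐ z ∂(ν₁.prod ν₂), z.1 * z.2 ∈ Ioo (0 : ℝ) 1 := by
    filter_upwards [h1, h2] with z hz1 hz2 using mul_mem_Ioo hz1 hz2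
  exact ae_iff.1 h3

theorem opl_supp [SFinite ν₁] [SFinite ν₂] (h₁ : ν₁ (Ioo 0 1)ᶜ = 0) (h₂ : ν₂ (Ioo 0 1)ᶜ = 0) :
    opl ν₁ ν₂ (Ioo 0 1)ᶜ = 0 := by
  rw [opl, Measure.map_apply measurable_opl' measurableSet_Ioo.compl]
  have h1 : ∀ᵐ z ∂(ν₁.prod ν₂), z.1 ∈ Ioo (0 : ℝ) 1 :=
    Measure.quasiMeasurePreserving_fst.ae (ae_mem_of_supp h₁)
  have h2 : ∀ᵐ z ∂(ν₁.prod ν₂), z.2 ∈ Ioo (0 : ℝ) 1 :=
    Measure.quasiMeasurePreserving_snd.ae (ae_mem_of_supp h₂)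
  have h3 : ∀ᵐ z ∂(ν₁.prod ν₂), z.2 + (1 - z.2) * z.1 ∈ Ioo (0 : ℝ) 1 := by
    filter_upwards [h1, h2] with z hz1 hz2 using opl_mem_Ioo hz1 hz2
  exact ae_iff.1 h3

variable {E : Type*} [NormedAddCommGroup E]

theorem lintegral_mulC [SFinite ν₁] [SFinite ν₂] {f : ℝ → ℝ≥0∞} (hf : Measurable f) :
    ∫⁻ x, f x ∂(mulC ν₁ ν₂) = ∫⁻ x, ∫⁻ y, f (x * y) ∂ν₂ ∂ν₁ := by
  rw [mulC, lintegral_map hf measurable_mul', lintegral_prod _ (by fun_prop)]

theorem lintegral_opl [SFinite ν₁] [SFinite ν₂] {f : ℝ → ℝ≥0∞} (hf : Measurable f) :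
    ∫⁻ x, f x ∂(opl ν₁ ν₂) = ∫⁻ x, ∫⁻ v, f (v + (1 - v) * x) ∂ν₂ ∂ν₁ := by
  rw [opl, lintegral_map hf measurable_opl', lintegral_prod _ (by fun_prop)]

/-- A measurable function bounded on `(0,1)` is integrable for a finite measure on `(0,1)`. -/
theorem integrable_of_bdd {ν : Measure ℝ} [IsFiniteMeasure ν] (hν : ν (Ioo 0 1)ᶜ = 0)
    {f : ℝ → E} (hf : AEStronglyMeasurable f ν) {C : ℝ} (hC : ∀ x ∈ Ioo (0 : ℝ) 1, ‖f x‖ ≤ C) :
    Integrable f ν := by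
  refine Integrable.of_bound hf C ?_
  filter_upwards [ae_mem_of_supp hν] with x hx using hC x hx

variable [NormedSpace ℝ E]

theorem norm_integral_le_of_bdd {ν : Measure ℝ} [IsProbabilityMeasure ν] (hν : ν (Ioo 0 1)ᶜ = 0)
    {f : ℝ → E} {C : ℝ} (hC : ∀ x ∈ Ioo (0 : ℝ) 1, ‖f x‖ ≤ C) :
    ‖∫ x, f x ∂ν‖ ≤ C := by
  have := norm_integral_le_of_norm_le_const (μ := ν) (f := f) (C := C) (by
    filter_upwards [ae_mem_of_supp hν] with x hx using hC x hx)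
  simpa using this

theorem integral_mulC [SFinite ν₁] [SFinite ν₂] {f : ℝ → E} (hf : Integrable f (mulC ν₁ ν₂)) :
    ∫ x, f x ∂(mulC ν₁ ν₂) = ∫ x, ∫ y, f (x * y) ∂ν₂ ∂ν₁ := by
  have h1 := hf
  rw [mulC, integrable_map_measure (by simpa [mulC] using hf.aestronglyMeasurable)
    measurable_mul'.aemeasurable] at h1
  rw [mulC, integral_map measurable_mul'.aemeasurable
    (by simpa [mulC] using hf.aestronglyMeasurable)]
  exact integral_prod _ h1

theorem integral_opl [SFinite ν₁] [SFinite ν₂] {f : ℝ → E} (hf : Integrable f (opl ν₁ ν₂)) :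
    ∫ x, f x ∂(opl ν₁ ν₂) = ∫ x, ∫ v, f (v + (1 - v) * x) ∂ν₂ ∂ν₁ := by
  have h1 := hf
  rw [opl, integrable_map_measure (by simpa [opl] using hf.aestronglyMeasurable)
    measurable_opl'.aemeasurable] at h1
  rw [opl, integral_map measurable_opl'.aemeasurable
    (by simpa [opl] using hf.aestronglyMeasurable)]
  exact integral_prod _ h1

/-- Same with the order of integration exchanged. -/
theorem integral_mulC' [SFinite ν₁] [SFinite ν₂] {f : ℝ → E} (hf : Integrable f (mulC ν₁ ν₂)) :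
    ∫ x, f x ∂(mulC ν₁ ν₂) = ∫ y, ∫ x, f (x * y) ∂ν₁ ∂ν₂ := by
  have h1 := hf
  rw [mulC, integrable_map_measure (by simpa [mulC] using hf.aestronglyMeasurable)
    measurable_mul'.aemeasurable] at h1
  rw [mulC, integral_map measurable_mul'.aemeasurable
    (by simpa [mulC] using hf.aestronglyMeasurable)]
  exact integral_prod_symm _ h1

theorem integral_opl' [SFinite ν₁] [SFinite ν₂] {f : ℝ → E} (hf : Integrable f (opl ν₁ ν₂)) :
    ∫ x, f x ∂(opl ν₁ ν₂) = ∫ v, ∫ x, f (v + (1 - v) * x) ∂ν₁ ∂ν₂ := by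
  have h1 := hf
  rw [opl, integrable_map_measure (by simpa [opl] using hf.aestronglyMeasurable)
    measurable_opl'.aemeasurable] at h1
  rw [opl, integral_map measurable_opl'.aemeasurable
    (by simpa [opl] using hf.aestronglyMeasurable)]
  exact integral_prod_symm _ h1

end basic

namespace Sol

variable {p q : ℝ} {μ : Measure ℝ} (h : Sol p q μ)

include h

theorem q_pos : 0 < q := by linarith [h.p_pos, h.p_lt, h.pq]

theorem q_lt : q < 1 := by linarith [h.p_pos, h.p_lt, h.pq]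

theorem ae_mem : ∀ᵐ x ∂μ, x ∈ Ioo (0 : ℝ) 1 := ae_mem_of_supp h.supp

theorem tau_supp : mulC μ μ (Ioo 0 1)ᶜ = 0 := by
  have := h.prob
  exact mulC_supp h.supp h.supp

theorem ae_tau_mem : ∀ᵐ x ∂(mulC μ μ), x ∈ Ioo (0 : ℝ) 1 := ae_mem_of_supp h.tau_supp

/-- The RDE for integrals. -/
theorem integral_rde {E : Type*} [NormedAddCommGroup E] [NormedSpace ℝ E] {F : ℝ → E}
    (hF : StronglyMeasurable F) {C : ℝ} (hC : ∀ x ∈ Ioo (0 : ℝ) 1, ‖F x‖ ≤ C) :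
    ∫ x, F x ∂μ = p • ∫ y, ∫ x, F (x * y) ∂μ ∂μ +
      q • ∫ v, ∫ x, F (v + (1 - v) * x) ∂μ ∂(mulC μ μ) := by
  have := h.prob
  have h1 : Integrable F (mulC μ μ) :=
    integrable_of_bdd h.tau_supp hF.aestronglyMeasurable hC
  have h2 : Integrable F (opl μ (mulC μ μ)) :=
    integrable_of_bdd (opl_supp h.supp h.tau_supp) hF.aestronglyMeasurable hC
  calc ∫ x, F x ∂μ
      = ∫ x, F x ∂(ENNReal.ofReal p • mulC μ μ + ENNReal.ofReal q • opl μ (mulC μ μ)) := by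
        rw [← h.rde]
    _ = _ := by
        rw [integral_add_measure (h1.smul_measure (by simp)) (h2.smul_measure (by simp)),
          integral_smul_measure, integral_smul_measure, ENNReal.toReal_ofReal h.p_pos.le,
          ENNReal.toReal_ofReal h.q_pos.le, integral_mulC' h1, integral_opl' h2]

theorem lintegral_rde {F : ℝ → ℝ≥0∞} (hF : Measurable F) :
    ∫⁻ x, F x ∂μ = ENNReal.ofReal p * ∫⁻ y, ∫⁻ x, F (y * x) ∂μ ∂μ +
      ENNReal.ofReal q * ∫⁻ x, ∫⁻ v, F (v + (1 - v) * x) ∂(mulC μ μ) ∂μ := by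
  have := h.prob
  calc ∫⁻ x, F x ∂μ
      = ∫⁻ x, F x ∂(ENNReal.ofReal p • mulC μ μ + ENNReal.ofReal q • opl μ (mulC μ μ)) := by
        rw [← h.rde]
    _ = _ := by
        rw [lintegral_add_measure, lintegral_smul_measure, lintegral_smul_measure,
          lintegral_mulC hF, lintegral_opl hF]
        rfl

theorem sig_prob : IsProbabilityMeasure (sig p q μ) := by
  have := h.prob
  constructor
  rw [sig, Measure.add_apply, Measure.smul_apply, Measure.smul_apply,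
    Measure.map_apply (by fun_prop) MeasurableSet.univ,
    Measure.map_apply (by fun_prop) MeasurableSet.univ]
  simp only [preimage_univ, measure_univ, smul_eq_mul, mul_one]
  rw [← ENNReal.ofReal_add h.p_pos.le h.q_pos.le, h.pq, ENNReal.ofReal_one]

/-- `σ`-almost surely `0 ≤ a < 1`, `0 < b < 1`, `a + b ≤ 1`. -/
theorem sig_ae : ∀ᵐ z ∂(sig p q μ), 0 ≤ z.1 ∧ z.1 < 1 ∧ 0 < z.2 ∧ z.2 < 1 ∧ z.1 + z.2 ≤ 1 := by
  have := h.prob
  rw [sig, ae_add_measure_iff]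
  constructor
  · refine Measure.ae_smul_measure ?_ _
    rw [ae_map_iff (by fun_prop) (by measurability)]
    filter_upwards [h.ae_mem] with y hy
    exact ⟨le_rfl, zero_lt_one, hy.1, hy.2, by simpa using hy.2.le⟩
  · refine Measure.ae_smul_measure ?_ _
    rw [ae_map_iff (by fun_prop) (by measurability)]
    filter_upwards [h.ae_tau_mem] with v hv
    exact ⟨hv.1.le, hv.2, by linarith [hv.2], by linarith [hv.1], by linarith⟩

/-- Expansion of the first step as an affine map. -/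
theorem integral_sig {E : Type*} [NormedAddCommGroup E] [NormedSpace ℝ E] {F : ℝ → E}
    (hF : StronglyMeasurable F) {C : ℝ} (hC : ∀ x ∈ Ioo (0 : ℝ) 1, ‖F x‖ ≤ C) :
    ∫ x, F x ∂μ = ∫ z, ∫ x, F (z.1 + z.2 * x) ∂μ ∂(sig p q μ) := by
  have := h.prob
  have hm : StronglyMeasurable (fun z : ℝ × ℝ => ∫ x, F (z.1 + z.2 * x) ∂μ) := by
    apply StronglyMeasurable.integral_prod_right (f := fun z : ℝ × ℝ => fun x => F (z.1 + z.2 * x))
    exact hF.comp_measurable (by fun_prop)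
  have hbd : ∀ᵐ z ∂(sig p q μ), ‖∫ x, F (z.1 + z.2 * x) ∂μ‖ ≤ C := by
    filter_upwards [h.sig_ae] with z hz
    apply norm_integral_le_of_bdd h.supp
    intro x hx
    apply hC
    exact ⟨by nlinarith [hx.1, hx.2, mul_pos hz.2.2.1 hx.1],
      by nlinarith [hx.1, hx.2, mul_pos hz.2.2.1 (sub_pos.2 hx.2)]⟩
  have := h.sig_prob
  have hint : Integrable (fun z : ℝ × ℝ => ∫ x, F (z.1 + z.2 * x) ∂μ) (sig p q μ) :=
    Integrable.of_bound hm.aestronglyMeasurable C hbd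
  have hint' := hint
  rw [sig, integrable_add_measure] at hint
  rw [sig, integral_add_measure hint.1 hint.2, integral_smul_measure, integral_smul_measure,
    ENNReal.toReal_ofReal h.p_pos.le, ENNReal.toReal_ofReal h.q_pos.le,
    integral_map (by fun_prop) hm.aestronglyMeasurable,
    integral_map (by fun_prop) hm.aestronglyMeasurable, h.integral_rde hF hC]
  simp only [zero_add]
  congr 2
  apply integral_congr_ae
  refine Filter.Eventually.of_forall fun y => ?_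
  simp only [mul_comm]

end Sol

end MP319742
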