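import Pool.Agent.Lib.MP_319742_pr.Defs

/-! Task W1 of MP_319742_pr: a probability measure on `ℝ` whose characteristic function is
`O(|t|^(-3))` satisfies `|∫ G' dν| ≤ C ∫ |G|` for test functions `G`. -/

open MeasureTheory Set
open scoped ENNReal ContDiff FourierTransform

namespace MP319742

/-- W1. If the characteristic function of a probability measure `ν` decays like `|t|^(-3)`, then
`|∫ G' dν| ≤ C ∫ |G|` for test functions `G`. -/
theorem deriv_bound_of_decay {ν : Measure ℝ} [IsProbabilityMeasure ν] {K : ℝ}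
    (hdec : ∀ t : ℝ, ‖∫ x, Complex.exp (Complex.I * t * x) ∂ν‖ * |t| ^ 3 ≤ K) :
    ∃ C : ℝ, ∀ G : ℝ → ℂ, ContDiff ℝ ∞ G → HasCompactSupport G →
      ‖∫ x, deriv G x ∂ν‖ ≤ C * ∫ x, ‖G x‖ := by
  set φ : ℝ → ℂ := fun t => ∫ x, Complex.exp (Complex.I * t * x) ∂ν with hφ
  have hK0 : 0 ≤ K := le_trans (by positivity) (hdec 0)
  have hφ1 : ∀ t, ‖φ t‖ ≤ 1 := by
    intro t
    have h1 : ‖φ t‖ ≤ ∫ x, ‖Complex.exp (Complex.I * t * x)‖ ∂ν := norm_integral_le_integral_norm _
    have h2 : ∀ x : ℝ, ‖Complex.exp (Complex.I * t * x)‖ = 1 := by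
      intro x
      rw [Complex.norm_exp]
      simp
    simp only [h2, integral_const, probReal_univ, smul_eq_mul, mul_one] at h1
    exact h1
  have hb : ∀ t : ℝ, |t| * ‖φ t‖ ≤ (1 + 2 * K) * (1 + t ^ 2)⁻¹ := by
    intro t
    rw [← div_eq_mul_inv, le_div_iff₀ (by positivity)]
    have h3 : ‖φ t‖ * |t| ^ 3 ≤ K := hdec t
    have h4 : |t| * ‖φ t‖ ≤ 1 + K := by
      rcases le_total |t| 1 with h | h
      · have : |t| * ‖φ t‖ ≤ 1 * 1 := by
          apply mul_le_mul h (hφ1 t) (norm_nonneg _) (by norm_num)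
        linarith
      · have : |t| ≤ |t| ^ 3 := by
          calc |t| = |t| ^ 1 := (pow_one _).symm
            _ ≤ |t| ^ 3 := pow_le_pow_right₀ h (by norm_num)
        have h5 : |t| * ‖φ t‖ ≤ |t| ^ 3 * ‖φ t‖ :=
          mul_le_mul_of_nonneg_right this (norm_nonneg _)
        nlinarith
    have h6 : |t| * ‖φ t‖ * (1 + t ^ 2) = |t| * ‖φ t‖ + ‖φ t‖ * |t| ^ 3 := by
      rw [← sq_abs t]; ring
    rw [h6]; linarith
  refine ⟨∫ ξ : ℝ, (1 + 2 * K) * (1 + ξ ^ 2)⁻¹, ?_⟩
  intro G hG hGc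
  set g : SchwartzMap ℝ ℂ := hGc.toSchwartzMap hG with hg
  have hgG : ∀ x, g x = G x := fun x => rfl
  set g' : SchwartzMap ℝ ℂ := SchwartzMap.derivCLM ℂ ℂ g with hg'
  have hg'G : (g' : ℝ → ℂ) = deriv G := by
    ext x
    rw [hg', SchwartzMap.derivCLM_apply]
    rfl
  have hGint : Integrable G := g.integrable
  have hG'int : Integrable (deriv G) := by rw [← hg'G]; exact g'.integrable
  have hfd : 𝓕 (deriv G) = fun (x : ℝ) ↦ (2 * Real.pi * Complex.I * x) • (𝓕 G x) :=
    Real.fourier_deriv hGint (hG.differentiable (by simp)) hG'int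
  have hFint : Integrable (𝓕 (deriv G)) := by
    have : (𝓕 g' : SchwartzMap ℝ ℂ) = 𝓕 (g' : ℝ → ℂ) := SchwartzMap.fourier_coe g'
    rw [← hg'G, ← this]
    exact (𝓕 g').integrable
  have hinv : 𝓕⁻ (𝓕 (deriv G)) = deriv G := by
    apply Continuous.fourierInv_fourier_eq _ hG'int hFint
    rw [← hg'G]
    exact g'.continuous
  have hpt : ∀ x, deriv G x = ∫ ξ : ℝ, Complex.exp (Complex.I * (2 * Real.pi * ξ : ℝ) * x) *
      𝓕 (deriv G) ξ := by
    intro x
    conv_lhs => rw [← hinv]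
    rw [Real.fourierInv_eq']
    apply integral_congr_ae
    filter_upwards with ξ
    simp only [RCLike.inner_apply, conj_trivial, smul_eq_mul]
    congr 2
    push_cast
    ring
  have hbdd : ∀ ξ : ℝ, ‖𝓕 (deriv G) ξ‖ ≤ |2 * Real.pi * ξ| * ∫ x, ‖G x‖ := by
    intro ξ
    rw [hfd]
    simp only [norm_smul]
    have h1 : ‖(2 * Real.pi * Complex.I * ξ : ℂ)‖ = |2 * Real.pi * ξ| := by
      rw [norm_mul, norm_mul, norm_mul, Complex.norm_I, Complex.norm_real, Complex.norm_real,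
        abs_mul, abs_mul]
      simp
    rw [h1]
    apply mul_le_mul_of_nonneg_left _ (abs_nonneg _)
    exact VectorFourier.norm_fourierIntegral_le_integral_norm _ _ _ _ _
  have hswap : ∫ x, deriv G x ∂ν = ∫ ξ : ℝ, φ (2 * Real.pi * ξ) * 𝓕 (deriv G) ξ := by
    simp_rw [hpt]
    rw [integral_integral_swap]
    · apply integral_congr_ae
      filter_upwards with ξ
      rw [integral_mul_const]
    · have h1 : Integrable (fun z : ℝ × ℝ => (1 : ℂ) * 𝓕 (deriv G) z.2) (ν.prod volume) :=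
        Integrable.mul_prod (f := fun _ : ℝ => (1 : ℂ)) (integrable_const _) hFint
      refine h1.mono ?_ ?_
      · apply AEStronglyMeasurable.mul
        · apply Continuous.aestronglyMeasurable
          fun_prop
        · exact hFint.aestronglyMeasurable.comp_snd
      · filter_upwards with z
        simp only [Function.uncurry, norm_mul]
        apply mul_le_mul_of_nonneg_right _ (norm_nonneg _)
        rw [Complex.norm_exp]
        simp
  rw [hswap, ← integral_mul_const]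
  apply norm_integral_le_of_norm_le
  · exact (integrable_inv_one_add_sq.const_mul _).mul_const _
  · filter_upwards with ξ
    rw [norm_mul]
    have hI : 0 ≤ ∫ x, ‖G x‖ := integral_nonneg (fun _ => norm_nonneg _)
    have h1 : ‖φ (2 * Real.pi * ξ)‖ * ‖𝓕 (deriv G) ξ‖ ≤
        ‖φ (2 * Real.pi * ξ)‖ * (|2 * Real.pi * ξ| * ∫ x, ‖G x‖) :=
      mul_le_mul_of_nonneg_left (hbdd ξ) (norm_nonneg _)
    have h2 : ‖φ (2 * Real.pi * ξ)‖ * |2 * Real.pi * ξ| ≤ (1 + 2 * K) * (1 + ξ ^ 2)⁻¹ := by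
      rw [mul_comm]
      refine (hb _).trans ?_
      apply mul_le_mul_of_nonneg_left _ (by linarith)
      apply inv_anti₀ (by positivity)
      have hpi : 1 ≤ 2 * Real.pi := by nlinarith [Real.pi_gt_three]
      have : ξ ^ 2 ≤ (2 * Real.pi * ξ) ^ 2 := by
        rw [mul_pow]
        have : 1 ≤ (2 * Real.pi) ^ 2 := one_le_pow₀ hpi
        nlinarith [sq_nonneg ξ]
      linarith
    calc _ ≤ _ := h1
      _ = (‖φ (2 * Real.pi * ξ)‖ * |2 * Real.pi * ξ|) * ∫ x, ‖G x‖ := by ring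
      _ ≤ _ := mul_le_mul_of_nonneg_right h2 hI

end MP319742
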