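import Pool.Agent.Lib.MP_319742_pr.Defs

/-! Task N of MP_319742_pr: negative moments of the nontrivial solution. -/

open MeasureTheory Set Filter Topology
open scoped ENNReal ContDiff

namespace MP319742

section aux

/-- If the truncated expectations of `f ≥ 1` avoid some value `s > 1`, `f` is integrable. -/
theorem integrable_of_avoid {ν : Measure ℝ} [IsProbabilityMeasure ν] {f : ℝ → ℝ}
    (hf : Measurable f) (hf1 : ∀ᵐ x ∂ν, 1 ≤ f x) {s : ℝ} (hs : 1 < s)
    (hav : ∀ R : ℝ, 1 ≤ R → ∫ x, min (f x) R ∂ν ≠ s) : Integrable f ν := by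
  have hint : ∀ R : ℝ, 1 ≤ R → Integrable (fun x => min (f x) R) ν := by
    intro R hR
    refine Integrable.of_bound (hf.min measurable_const).aestronglyMeasurable R ?_
    filter_upwards [hf1] with x hx
    rw [Real.norm_eq_abs, abs_of_nonneg (le_min (by linarith) (by linarith))]
    exact min_le_right _ _
  have hcont : ContinuousOn (fun R : ℝ => ∫ x, min (f x) R ∂ν) (Ici 1) := by
    have hL : LipschitzOnWith 1 (fun R : ℝ => ∫ x, min (f x) R ∂ν) (Ici 1) := by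
      refine LipschitzOnWith.of_dist_le_mul fun R hR S hS => ?_
      rw [Real.dist_eq, Real.dist_eq, ← integral_sub (hint R hR) (hint S hS)]
      have := norm_integral_le_of_norm_le_const (μ := ν)
        (f := fun x => min (f x) R - min (f x) S) (C := |R - S|) (by
          refine Eventually.of_forall fun x => ?_
          rw [Real.norm_eq_abs]
          exact abs_min_sub_min_le_max _ _ _ _ |>.trans (by simp))
      simpa using this
    exact hL.continuousOn
  have hlt : ∀ R : ℝ, 1 ≤ R → ∫ x, min (f x) R ∂ν < s := by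
    intro R hR
    by_contra hcon
    push Not at hcon
    have h1 : (∫ x, min (f x) 1 ∂ν) = 1 := by
      have : ∀ᵐ x ∂ν, min (f x) 1 = (1 : ℝ) := by
        filter_upwards [hf1] with x hx using min_eq_right hx
      rw [integral_congr_ae this]; simp
    have := intermediate_value_Icc (a := (1 : ℝ)) (b := R) hR
      (f := fun R : ℝ => ∫ x, min (f x) R ∂ν) (hcont.mono (fun x hx => hx.1))
    obtain ⟨S, hS, hSe⟩ := this (show s ∈ Icc _ _ from ⟨by rw [h1]; exact hs.le, hcon⟩)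
    exact hav S hS.1 hSe
  refine ⟨hf.aestronglyMeasurable, ?_⟩
  rw [hasFiniteIntegral_iff_norm]
  have hle : ∫⁻ x, ENNReal.ofReal ‖f x‖ ∂ν ≤ ENNReal.ofReal s := by
    have hsup : ∀ᵐ x ∂ν, ENNReal.ofReal ‖f x‖
        = ⨆ n : ℕ, ENNReal.ofReal (min (f x) ((n : ℝ) + 1)) := by
      filter_upwards [hf1] with x hx
      apply le_antisymm
      · obtain ⟨n, hn⟩ := exists_nat_ge (f x)
        refine le_iSup_of_le n ?_
        apply ENNReal.ofReal_le_ofReal
        rw [Real.norm_eq_abs, abs_of_nonneg (by linarith)]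
        exact le_min le_rfl (by linarith)
      · refine iSup_le fun n => ENNReal.ofReal_le_ofReal ?_
        exact (min_le_left _ _).trans (Real.le_norm_self _)
    rw [lintegral_congr_ae hsup, lintegral_iSup]
    · refine iSup_le fun n => ?_
      rw [← ofReal_integral_eq_lintegral_ofReal (hint _ (by simp))]
      · exact ENNReal.ofReal_le_ofReal (hlt _ (by simp)).le
      · filter_upwards [hf1] with x hx
        exact le_min (by simpa using by linarith) (by simpa using by positivity)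
    · intro n
      exact (hf.min measurable_const).ennreal_ofReal
    · intro n m hnm x
      apply ENNReal.ofReal_le_ofReal
      refine min_le_min_left _ ?_
      have : (n : ℝ) ≤ m := by exact_mod_cast hnm
      linarith
  exact hle.trans_lt ENNReal.ofReal_lt_top

/-- Basic facts on the truncated power `min (x ^ (-c)) R`. -/
theorem one_le_rpow_neg {x c : ℝ} (hx : x ∈ Ioo (0 : ℝ) 1) (hc : 0 < c) : 1 ≤ x ^ (-c) := by
  rw [← Real.rpow_zero x]
  exact Real.rpow_le_rpow_of_exponent_ge hx.1 hx.2.le (by linarith)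

theorem rpow_neg_anti {x y c : ℝ} (hx : 0 < x) (hxy : x ≤ y) (hc : 0 < c) :
    y ^ (-c) ≤ x ^ (-c) :=
  Real.rpow_le_rpow_of_nonpos hx hxy (by linarith)

theorem trunc_mul_le {a b R : ℝ} (ha : 1 ≤ a) (hb : 1 ≤ b) (hR : 1 ≤ R) :
    min (a * b) R ≤ min a R * min b R := by
  rcases le_total a R with h1 | h1
  · rcases le_total b R with h2 | h2
    · rw [min_eq_left h1, min_eq_left h2]; exact min_le_left _ _
    · rw [min_eq_left h1, min_eq_right h2]
      exact (min_le_right _ _).trans (by nlinarith)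
  · rw [min_eq_right h1]
    exact (min_le_right _ _).trans (by nlinarith [le_min hb hR])

end aux

section N

variable {p q : ℝ} {μ : Measure ℝ}

/-- For a probability measure on `(0,1)`, `ν(0, δ)` is small for small `δ`. -/
theorem exists_small {ν : Measure ℝ} [IsProbabilityMeasure ν] (hν : ν (Ioo 0 1)ᶜ = 0) {ε : ℝ}
    (hε : 0 < ε) : ∃ δ : ℝ, 0 < δ ∧ δ < 1 ∧ ν.real (Iio δ) < ε ∧ ν.real (Ioi (1 - δ)) < ε := by
  have h1 : Tendsto (fun n : ℕ => ν (Iio (1 / ((n : ℝ) + 2)))) atTop (𝓝 0) := by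
    have hanti : Antitone (fun n : ℕ => Iio (1 / ((n : ℝ) + 2))) := by
      intro n m hnm
      apply Iio_subset_Iio
      have : (n : ℝ) ≤ m := by exact_mod_cast hnm
      gcongr
    have hlim := tendsto_measure_iInter_atTop (μ := ν) (s := fun n : ℕ => Iio (1 / ((n : ℝ) + 2)))
      (fun n => measurableSet_Iio.nullMeasurableSet) hanti ⟨0, measure_ne_top _ _⟩
    have hz : ν (⋂ n : ℕ, Iio (1 / ((n : ℝ) + 2))) = 0 := by
      refine measure_mono_null ?_ hν
      intro x hx hx'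
      simp only [mem_iInter, mem_Iio] at hx
      obtain ⟨n, hn⟩ := exists_nat_gt (1 / x)
      have h2 := hx n
      have hn0 : (0 : ℝ) < (n : ℝ) + 2 := by positivity
      rw [lt_div_iff₀ hn0] at h2
      rw [div_lt_iff₀ hx'.1] at hn
      nlinarith [hx'.1]
    rwa [hz] at hlim
  have h2 : Tendsto (fun n : ℕ => ν (Ioi (1 - 1 / ((n : ℝ) + 2)))) atTop (𝓝 0) := by
    have hanti : Antitone (fun n : ℕ => Ioi (1 - 1 / ((n : ℝ) + 2))) := by
      intro n m hnm
      apply Ioi_subset_Ioi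
      have : (n : ℝ) ≤ m := by exact_mod_cast hnm
      have h3 : 1 / ((m : ℝ) + 2) ≤ 1 / ((n : ℝ) + 2) := by gcongr
      linarith
    have hlim := tendsto_measure_iInter_atTop (μ := ν)
      (s := fun n : ℕ => Ioi (1 - 1 / ((n : ℝ) + 2)))
      (fun n => measurableSet_Ioi.nullMeasurableSet) hanti ⟨0, measure_ne_top _ _⟩
    have hz : ν (⋂ n : ℕ, Ioi (1 - 1 / ((n : ℝ) + 2))) = 0 := by
      refine measure_mono_null ?_ hν
      intro x hx hx'
      simp only [mem_iInter, mem_Ioi] at hx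
      obtain ⟨n, hn⟩ := exists_nat_gt (1 / (1 - x))
      have h2 := hx n
      have hn0 : (0 : ℝ) < (n : ℝ) + 2 := by positivity
      have h3 : 1 - x < 1 / ((n : ℝ) + 2) := by linarith
      rw [lt_div_iff₀ hn0] at h3
      have h4 : 0 < 1 - x := by linarith [hx'.2]
      rw [div_lt_iff₀ h4] at hn
      nlinarith
    rwa [hz] at hlim
  have hε' : (0 : ℝ≥0∞) < ENNReal.ofReal ε := by simpa using hε
  obtain ⟨n, hn1, hn2⟩ := ((h1.eventually (gt_mem_nhds hε')).and
    (h2.eventually (gt_mem_nhds hε'))).exists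
  refine ⟨1 / ((n : ℝ) + 2), by positivity, ?_, ?_, ?_⟩
  · rw [div_lt_one (by positivity)]
    have : (0 : ℝ) ≤ n := Nat.cast_nonneg n
    linarith
  · rw [Measure.real, ← ENNReal.toReal_ofReal hε.le]
    exact (ENNReal.toReal_lt_toReal (measure_ne_top _ _) ENNReal.ofReal_ne_top).2 hn1
  · rw [Measure.real, ← ENNReal.toReal_ofReal hε.le]
    exact (ENNReal.toReal_lt_toReal (measure_ne_top _ _) ENNReal.ofReal_ne_top).2 hn2

/-- `δ ^ (-c) → 1` as `c → 0`. -/
theorem tendsto_rpow_neg {δ : ℝ} (hδ : 0 < δ) :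
    Tendsto (fun c : ℝ => δ ^ (-c)) (𝓝[>] 0) (𝓝 1) := by
  have : ContinuousAt (fun c : ℝ => δ ^ (-c)) 0 := by
    apply ContinuousAt.rpow continuousAt_const continuousAt_id.neg
    left; exact hδ.ne'
  have h2 := this.tendsto
  simp only [neg_zero, Real.rpow_zero] at h2
  exact h2.mono_left nhdsWithin_le_nhds

/-- Product step: `∫ F(xy) ≤ (∫ F)²` for the truncated power. -/
theorem Sol.trunc_facts (h : Sol p q μ) {F : ℝ → ℝ} (hF : Measurable F) {R : ℝ}
    (hF1 : ∀ x ∈ Ioo (0 : ℝ) 1, 1 ≤ F x) (hFR : ∀ x ∈ Ioo (0 : ℝ) 1, F x ≤ R) :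
    Integrable F μ ∧ Integrable F (mulC μ μ) ∧
    ∫ x, F x ∂μ = p * ∫ y, ∫ x, F (x * y) ∂μ ∂μ +
      q * ∫ v, ∫ x, F (v + (1 - v) * x) ∂μ ∂(mulC μ μ) := by
  have := h.prob
  have hbd : ∀ x ∈ Ioo (0 : ℝ) 1, ‖F x‖ ≤ R := by
    intro x hx
    rw [Real.norm_eq_abs, abs_of_nonneg (by linarith [hF1 x hx])]
    exact hFR x hx
  refine ⟨integrable_of_bdd h.supp hF.aestronglyMeasurable hbd,
    integrable_of_bdd h.tau_supp hF.aestronglyMeasurable hbd, ?_⟩
  have := h.integral_rde hF.stronglyMeasurable hbd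
  simpa [smul_eq_mul] using this

theorem integral_ind {ν : Measure ℝ} {s : Set ℝ} (hs : MeasurableSet s) :
    ∫ x, s.indicator (fun _ => (1 : ℝ)) x ∂ν = ν.real s := by
  rw [integral_indicator hs]
  simp

/-- Upper bound for an iterated integral. -/
theorem double_bound {ν₁ ν₂ : Measure ℝ} [IsProbabilityMeasure ν₁] [IsProbabilityMeasure ν₂]
    (h₁ : ν₁ (Ioo 0 1)ᶜ = 0) (h₂ : ν₂ (Ioo 0 1)ᶜ = 0) {G : ℝ → ℝ → ℝ}
    (hG : Measurable (Function.uncurry G)) {g k : ℝ → ℝ} {R : ℝ} (hG0 : ∀ x ∈ Ioo (0 : ℝ) 1, ∀ y ∈ Ioo (0 : ℝ) 1, 0 ≤ G y x)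
    (hGR : ∀ x ∈ Ioo (0 : ℝ) 1, ∀ y ∈ Ioo (0 : ℝ) 1, G y x ≤ R)
    (hgi : Integrable g ν₂) (hki : Integrable k ν₁) {D : ℝ → ℝ}
    (hDi : Integrable D ν₂)
    (hle : ∀ x ∈ Ioo (0 : ℝ) 1, ∀ y ∈ Ioo (0 : ℝ) 1, G y x ≤ g y * k x + D y) :
    ∫ y, ∫ x, G y x ∂ν₁ ∂ν₂ ≤ (∫ y, g y ∂ν₂) * (∫ x, k x ∂ν₁) + ∫ y, D y ∂ν₂ := by
  have hm : StronglyMeasurable (fun y => ∫ x, G y x ∂ν₁) :=
    StronglyMeasurable.integral_prod_right (f := G) hG.stronglyMeasurable
  have hGi : ∀ y ∈ Ioo (0 : ℝ) 1, Integrable (fun x => G y x) ν₁ := by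
    intro y hy
    refine integrable_of_bdd (C := R) h₁ (hG.comp measurable_prodMk_left).aestronglyMeasurable ?_
    intro x hx
    rw [Real.norm_eq_abs, abs_of_nonneg (hG0 x hx y hy)]
    exact hGR x hx y hy
  have hin : ∀ y ∈ Ioo (0 : ℝ) 1, ∫ x, G y x ∂ν₁ ≤ g y * (∫ x, k x ∂ν₁) + D y := by
    intro y hy
    have h1 : ∫ x, (g y * k x + D y) ∂ν₁ = g y * (∫ x, k x ∂ν₁) + D y := by
      rw [integral_add (hki.const_mul _) (integrable_const _), integral_const_mul]
      simp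
    rw [← h1]
    refine integral_mono_ae (hGi y hy) ((hki.const_mul _).add (integrable_const _)) ?_
    filter_upwards [ae_mem_of_supp h₁] with x hx using hle x hx y hy
  have h3 : ∫ y, (g y * (∫ x, k x ∂ν₁) + D y) ∂ν₂
      = (∫ y, g y ∂ν₂) * (∫ x, k x ∂ν₁) + ∫ y, D y ∂ν₂ := by
    rw [integral_add (hgi.mul_const _) hDi, integral_mul_const]
  rw [← h3]
  refine integral_mono_ae ?_ ((hgi.mul_const _).add hDi) ?_
  · refine integrable_of_bdd (C := R) h₂ hm.aestronglyMeasurable ?_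
    intro y hy
    apply norm_integral_le_of_bdd h₁
    intro x hx
    rw [Real.norm_eq_abs, abs_of_nonneg (hG0 x hx y hy)]
    exact hGR x hx y hy
  · filter_upwards [ae_mem_of_supp h₂] with y hy using hin y hy

theorem measurable_trunc (c R : ℝ) : Measurable (fun x : ℝ => min (x ^ (-c)) R) := by fun_prop

theorem measurable_trunc' (c R : ℝ) : Measurable (fun x : ℝ => min ((1 - x) ^ (-c)) R) := by
  fun_prop

/-- Inequality for the truncated negative moment of `X`. -/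
theorem Sol.trunc_ineq (h : Sol p q μ) {c δ R : ℝ} (hc : 0 < c) (hδ : 0 < δ) (hδ1 : δ < 1)
    (hR : 1 ≤ R) :
    ∫ x, min (x ^ (-c)) R ∂μ ≤ p * (∫ x, min (x ^ (-c)) R ∂μ) ^ 2 +
      q * ((mulC μ μ).real (Iio δ) * (∫ x, min (x ^ (-c)) R ∂μ) + δ ^ (-c)) := by
  have := h.prob
  have hδc : 1 ≤ δ ^ (-c) := one_le_rpow_neg ⟨hδ, hδ1⟩ hc
  set F : ℝ → ℝ := fun x => min (x ^ (-c)) R with hFdef
  have hFm : Measurable F := measurable_trunc c R
  have hF1 : ∀ x ∈ Ioo (0 : ℝ) 1, 1 ≤ F x := fun x hx => le_min (one_le_rpow_neg hx hc) hR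
  have hFR : ∀ x ∈ Ioo (0 : ℝ) 1, F x ≤ R := fun x _ => min_le_right _ _
  obtain ⟨hi, hiτ, heq⟩ := h.trunc_facts hFm hF1 hFR
  have hA : ∫ y, ∫ x, F (x * y) ∂μ ∂μ ≤ (∫ x, F x ∂μ) * (∫ x, F x ∂μ) + ∫ _y, (0 : ℝ) ∂μ := by
    refine double_bound h.supp h.supp (G := fun y x => F (x * y)) (R := R)
      (hFm.comp (by fun_prop)) (fun x hx y hy => ?_) (fun x hx y hy => ?_) hi hi
      (integrable_const _) (fun x hx y hy => ?_)
    · linarith [hF1 _ (mul_mem_Ioo hx hy)]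
    · exact hFR _ (mul_mem_Ioo hx hy)
    · simp only [hFdef, add_zero]
      rw [Real.mul_rpow hx.1.le hy.1.le, mul_comm (min (y ^ (-c)) R)]
      exact trunc_mul_le (one_le_rpow_neg hx hc) (one_le_rpow_neg hy hc) hR
  have hB : ∫ v, ∫ x, F (v + (1 - v) * x) ∂μ ∂(mulC μ μ) ≤
      (∫ v, (Iio δ).indicator (fun _ => (1 : ℝ)) v ∂(mulC μ μ)) * (∫ x, F x ∂μ) +
        ∫ _v, δ ^ (-c) ∂(mulC μ μ) := by
    refine double_bound h.supp h.tau_supp (G := fun v x => F (v + (1 - v) * x)) (R := R)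
      (hFm.comp (by fun_prop))
      (fun x hx y hy => ?_) (fun x hx y hy => ?_)
      ((integrable_const _).indicator measurableSet_Iio) hi
      (integrable_const _) (fun x hx v hv => ?_)
    · linarith [hF1 _ (opl_mem_Ioo hx hy)]
    · exact hFR _ (opl_mem_Ioo hx hy)
    · have hvx := opl_mem_Ioo hx hv
      by_cases hvδ : v < δ
      · rw [indicator_of_mem (show v ∈ Iio δ from hvδ), one_mul]
        have : F (v + (1 - v) * x) ≤ F x := by
          apply min_le_min_right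
          apply rpow_neg_anti hx.1 _ hc
          nlinarith [hx.1, hx.2, hv.1, hv.2, mul_pos hv.1 (sub_pos.2 hx.2)]
        linarith
      · rw [indicator_of_notMem (show v ∉ Iio δ from hvδ), zero_mul, zero_add]
        refine (min_le_left _ _).trans (rpow_neg_anti hδ ?_ hc)
        push Not at hvδ
        nlinarith [hx.1, hx.2, hv.1, hv.2, mul_pos (sub_pos.2 hv.2) hx.1]
  rw [integral_ind measurableSet_Iio] at hB
  simp only [integral_const, probReal_univ, smul_eq_mul, one_mul, mul_zero, add_zero] at hA hB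
  have hp := h.p_pos
  have hq := h.q_pos
  calc ∫ x, F x ∂μ = p * ∫ y, ∫ x, F (x * y) ∂μ ∂μ +
      q * ∫ v, ∫ x, F (v + (1 - v) * x) ∂μ ∂(mulC μ μ) := heq
    _ ≤ p * ((∫ x, F x ∂μ) * (∫ x, F x ∂μ)) +
      q * ((mulC μ μ).real (Iio δ) * (∫ x, F x ∂μ) + δ ^ (-c)) := by gcongr
    _ = _ := by ring

/-- Inequality for the truncated negative moment of `1 - X`. -/
theorem Sol.trunc_ineq' (h : Sol p q μ) {c δ R : ℝ} (hc : 0 < c) (hδ : 0 < δ) (hδ1 : δ < 1)
    (hR : 1 ≤ R) :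
    ∫ x, min ((1 - x) ^ (-c)) R ∂μ ≤
      (μ.real (Ioi (1 - δ)) * (∫ x, min ((1 - x) ^ (-c)) R ∂μ) + δ ^ (-c)) *
        (p + q * ∫ x, min ((1 - x) ^ (-c)) R ∂μ) := by
  have := h.prob
  have hδc : 1 ≤ δ ^ (-c) := one_le_rpow_neg ⟨hδ, hδ1⟩ hc
  set F : ℝ → ℝ := fun x => min ((1 - x) ^ (-c)) R with hFdef
  have hFm : Measurable F := measurable_trunc' c R
  have h1x : ∀ x ∈ Ioo (0 : ℝ) 1, 1 - x ∈ Ioo (0 : ℝ) 1 := fun x hx =>
    ⟨by linarith [hx.2], by linarith [hx.1]⟩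
  have hF1 : ∀ x ∈ Ioo (0 : ℝ) 1, 1 ≤ F x := fun x hx =>
    le_min (one_le_rpow_neg (h1x x hx) hc) hR
  have hFR : ∀ x ∈ Ioo (0 : ℝ) 1, F x ≤ R := fun x _ => min_le_right _ _
  obtain ⟨hi, hiτ, heq⟩ := h.trunc_facts hFm hF1 hFR
  have hA : ∫ y, ∫ x, F (x * y) ∂μ ∂μ ≤
      (∫ y, (Ioi (1 - δ)).indicator (fun _ => (1 : ℝ)) y ∂μ) * (∫ x, F x ∂μ) +
        ∫ _y, δ ^ (-c) ∂μ := by
    refine double_bound h.supp h.supp (G := fun y x => F (x * y)) (R := R)
      (hFm.comp (by fun_prop))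
      (fun x hx y hy => ?_) (fun x hx y hy => ?_)
      ((integrable_const _).indicator measurableSet_Ioi) hi
      (integrable_const _) (fun x hx y hy => ?_)
    · linarith [hF1 _ (mul_mem_Ioo hx hy)]
    · exact hFR _ (mul_mem_Ioo hx hy)
    · by_cases hvδ : 1 - δ < y
      · rw [indicator_of_mem (show y ∈ Ioi (1 - δ) from hvδ), one_mul]
        have : F (x * y) ≤ F x := by
          apply min_le_min_right
          apply rpow_neg_anti (by linarith [hx.2]) _ hc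
          nlinarith [hx.1, hy.2]
        linarith
      · rw [indicator_of_notMem (show y ∉ Ioi (1 - δ) from hvδ), zero_mul, zero_add]
        refine (min_le_left _ _).trans (rpow_neg_anti hδ ?_ hc)
        push Not at hvδ
        nlinarith [hx.1, hx.2, hy.1, hy.2]
  rw [integral_ind measurableSet_Ioi] at hA
  simp only [integral_const, probReal_univ, smul_eq_mul, one_mul] at hA
  have hτ : ∫ x, F x ∂(mulC μ μ) = ∫ y, ∫ x, F (x * y) ∂μ ∂μ := integral_mulC' hiτ
  have hB : ∫ v, ∫ x, F (v + (1 - v) * x) ∂μ ∂(mulC μ μ) ≤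
      (∫ v, F v ∂(mulC μ μ)) * (∫ x, F x ∂μ) + ∫ _v, (0 : ℝ) ∂(mulC μ μ) := by
    refine double_bound h.supp h.tau_supp (G := fun v x => F (v + (1 - v) * x)) (R := R)
      (hFm.comp (by fun_prop))
      (fun x hx y hy => ?_) (fun x hx y hy => ?_) hiτ hi
      (integrable_const _) (fun x hx v hv => ?_)
    · linarith [hF1 _ (opl_mem_Ioo hx hy)]
    · exact hFR _ (opl_mem_Ioo hx hy)
    · simp only [hFdef, add_zero]
      have e1 : 1 - (v + (1 - v) * x) = (1 - v) * (1 - x) := by ring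
      rw [e1, Real.mul_rpow (by linarith [hv.2]) (by linarith [hx.2])]
      exact trunc_mul_le (one_le_rpow_neg (h1x v hv) hc) (one_le_rpow_neg (h1x x hx) hc) hR
  simp only [integral_const, smul_eq_mul, mul_zero, add_zero] at hB
  have hp := h.p_pos
  have hq := h.q_pos
  have hm1 : 0 ≤ ∫ x, F x ∂μ := integral_nonneg_of_ae (by
    filter_upwards [h.ae_mem] with x hx using (by linarith [hF1 x hx] : (0 : ℝ) ≤ F x))
  rw [hτ] at hB
  calc ∫ x, F x ∂μ = p * ∫ y, ∫ x, F (x * y) ∂μ ∂μ +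
      q * ∫ v, ∫ x, F (v + (1 - v) * x) ∂μ ∂(mulC μ μ) := heq
    _ ≤ p * (∫ y, ∫ x, F (x * y) ∂μ ∂μ) +
      q * ((∫ y, ∫ x, F (x * y) ∂μ ∂μ) * (∫ x, F x ∂μ)) := by gcongr
    _ = (∫ y, ∫ x, F (x * y) ∂μ ∂μ) * (p + q * ∫ x, F x ∂μ) := by ring
    _ ≤ _ := by gcongr

/-- N1. Some negative moments of `X` and of `1 - X` are finite. -/
theorem Sol.exists_negmom (h : Sol p q μ) : ∃ c : ℝ, 0 < c ∧
    Integrable (fun x => x ^ (-c)) μ ∧ Integrable (fun x => (1 - x) ^ (-c)) μ := by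
  have := h.prob
  have hp := h.p_pos
  have hp2 := h.p_lt
  have hq := h.q_pos
  have hpq := h.pq
  -- the forbidden value for `X`
  set s : ℝ := (1 + q / p) / 2 with hs
  have hqp : 1 < q / p := by rw [lt_div_iff₀ hp]; linarith
  have hs1 : 1 < s := by rw [hs]; linarith
  have hgap : 0 < s - p * s ^ 2 - q := by
    have : s - p * s ^ 2 - q = p * ((s - 1) * (q / p - s)) := by
      have hq' : q = 1 - p := by linarith
      field_simp
      rw [hq']; ring
    rw [this]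
    apply mul_pos hp (mul_pos (by linarith) (by rw [hs]; linarith))
  obtain ⟨δ, hδ, hδ1, hδ2, -⟩ := exists_small h.tau_supp
    (ε := (s - p * s ^ 2 - q) / (2 * s * q)) (by positivity)
  obtain ⟨δ', hδ', hδ1', -, hδ2'⟩ := exists_small h.supp
    (ε := p / 16) (by positivity)
  have ev1 : ∀ᶠ c in 𝓝[>] (0 : ℝ), δ ^ (-c) < 1 + (s - p * s ^ 2 - q) / (2 * q) :=
    (tendsto_rpow_neg hδ).eventually (gt_mem_nhds (by
      have : 0 < (s - p * s ^ 2 - q) / (2 * q) := by positivity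
      linarith))
  have ev2 : ∀ᶠ c in 𝓝[>] (0 : ℝ), δ' ^ (-c) < 1 + p / 8 :=
    (tendsto_rpow_neg hδ').eventually (gt_mem_nhds (by linarith))
  have ev3 : ∀ᶠ c in 𝓝[>] (0 : ℝ), 0 < c := eventually_mem_nhdsWithin
  obtain ⟨c, hc1, hc2, hc⟩ := (ev1.and (ev2.and ev3)).exists
  refine ⟨c, hc, ?_, ?_⟩
  · refine integrable_of_avoid (s := s) (by fun_prop) ?_ hs1 ?_
    · filter_upwards [h.ae_mem] with x hx using one_le_rpow_neg hx hc
    · intro R hR heq
      have := h.trunc_ineq hc hδ hδ1 hR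
      rw [heq] at this
      have e1 : q * ((mulC μ μ).real (Iio δ) * s) < (s - p * s ^ 2 - q) / 2 := by
        have : q * ((mulC μ μ).real (Iio δ) * s)
            < q * ((s - p * s ^ 2 - q) / (2 * s * q) * s) := by
          gcongr
        refine this.trans_le (le_of_eq ?_)
        field_simp
      have e2 : q * δ ^ (-c) < q + (s - p * s ^ 2 - q) / 2 := by
        have : q * δ ^ (-c) < q * (1 + (s - p * s ^ 2 - q) / (2 * q)) := by gcongr
        refine this.trans_le (le_of_eq ?_)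
        field_simp
      nlinarith
  · refine integrable_of_avoid (s := 2) (by fun_prop) ?_ (by norm_num) ?_
    · filter_upwards [h.ae_mem] with x hx using
        one_le_rpow_neg ⟨by linarith [hx.2], by linarith [hx.1]⟩ hc
    · intro R hR heq
      have := h.trunc_ineq' hc hδ' hδ1' hR
      rw [heq] at this
      have e1 : μ.real (Ioi (1 - δ')) * 2 + δ' ^ (-c) < 1 + p / 4 := by linarith
      have e2 : p + q * 2 = 2 - p := by linarith
      rw [e2] at this
      have : (μ.real (Ioi (1 - δ')) * 2 + δ' ^ (-c)) * (2 - p) < (1 + p / 4) * (2 - p) := by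
        have : 0 < 2 - p := by linarith
        gcongr
      nlinarith

/-- `t ^ θ ≤ 1 + θ t` for `t ≥ 0`, `θ ∈ [0,1]`. -/
theorem rpow_le_one_add {t θ : ℝ} (ht : 0 ≤ t) (h0 : 0 ≤ θ) (h1 : θ ≤ 1) :
    t ^ θ ≤ 1 + θ * t := by
  have := rpow_one_add_le_one_add_mul_self (s := t - 1) (by linarith) h0 h1
  rw [show 1 + (t - 1) = t by ring] at this
  nlinarith

/-- Comparison of negative moments of different order. -/
theorem moment_small {ν : Measure ℝ} [IsProbabilityMeasure ν] {f : ℝ → ℝ} (hf : Measurable f)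
    (hf0 : ∀ᵐ x ∂ν, f x ∈ Ioo (0 : ℝ) 1) {c c₀ : ℝ} (hc : 0 < c) (hcc : c ≤ c₀)
    (hi : Integrable (fun x => f x ^ (-c₀)) ν) :
    Integrable (fun x => f x ^ (-c)) ν ∧
      ∫ x, f x ^ (-c) ∂ν ≤ 1 + c / c₀ * ∫ x, f x ^ (-c₀) ∂ν := by
  have hc₀ : 0 < c₀ := hc.trans_le hcc
  have hle : ∀ᵐ x ∂ν, f x ^ (-c) ≤ 1 + c / c₀ * f x ^ (-c₀) := by
    filter_upwards [hf0] with x hx
    have h1 : f x ^ (-c) = (f x ^ (-c₀)) ^ (c / c₀) := by
      rw [← Real.rpow_mul hx.1.le]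
      congr 1
      field_simp
    rw [h1]
    exact rpow_le_one_add (Real.rpow_nonneg hx.1.le _) (by positivity)
      ((div_le_one hc₀).2 hcc)
  have hi2 : Integrable (fun x => 1 + c / c₀ * f x ^ (-c₀)) ν :=
    (integrable_const _).add (hi.const_mul _)
  have hi1 : Integrable (fun x => f x ^ (-c)) ν := by
    refine hi2.mono' (hf.pow_const _).aestronglyMeasurable ?_
    filter_upwards [hle, hf0] with x hx hx0
    rw [Real.norm_eq_abs, abs_of_nonneg (Real.rpow_nonneg hx0.1.le _)]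
    exact hx
  refine ⟨hi1, ?_⟩
  have := integral_mono_ae hi1 hi2 hle
  rw [integral_add (integrable_const _) (hi.const_mul _), integral_const_mul] at this
  simpa using this

/-- N2. For `c → 0` they tend to one; the same for `τ = mulC μ μ` and `σ = sig p q μ`. -/
theorem Sol.moments (h : Sol p q μ) {ε : ℝ} (hε : 0 < ε) :
    ∃ c₁ : ℝ, 0 < c₁ ∧ ∀ c : ℝ, 0 < c → c ≤ c₁ →
      (Integrable (fun x => x ^ (-c)) μ ∧ ∫ x, x ^ (-c) ∂μ ≤ 1 + ε) ∧
      (Integrable (fun x => (1 - x) ^ (-c)) μ ∧ ∫ x, (1 - x) ^ (-c) ∂μ ≤ 1 + ε) ∧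
      (Integrable (fun x => x ^ (-c)) (mulC μ μ) ∧ ∫ x, x ^ (-c) ∂(mulC μ μ) ≤ 1 + ε) ∧
      (Integrable (fun x => (1 - x) ^ (-c)) (mulC μ μ) ∧
        ∫ x, (1 - x) ^ (-c) ∂(mulC μ μ) ≤ 1 + ε) ∧
      (Integrable (fun z => z.2 ^ (-c)) (sig p q μ) ∧ ∫ z, z.2 ^ (-c) ∂(sig p q μ) ≤ 1 + ε) := by
  have := h.prob
  obtain ⟨c₀, hc₀, hX₀, hY₀⟩ := h.exists_negmom
  -- reduce to a small `ε' ≤ 1`
  set e : ℝ := min ε 1 / 3 with he
  have he0 : 0 < e := by rw [he]; positivity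
  have he1 : e ≤ ε / 3 := by rw [he]; gcongr; exact min_le_left _ _
  have he2 : e ≤ 1 / 3 := by rw [he]; gcongr; exact min_le_right _ _
  set B : ℝ := 1 + |∫ x, x ^ (-c₀) ∂μ| + |∫ x, (1 - x) ^ (-c₀) ∂μ| with hB
  have hB0 : 0 < B := by positivity
  refine ⟨min c₀ (c₀ * e / B), by positivity, fun c hc hcc => ?_⟩
  have hc1 : c ≤ c₀ := hcc.trans (min_le_left _ _)
  have hc2 : c / c₀ * B ≤ e := by
    have : c ≤ c₀ * e / B := hcc.trans (min_le_right _ _)
    rw [le_div_iff₀ hB0] at this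
    rw [div_mul_eq_mul_div, div_le_iff₀ hc₀]
    linarith
  have hX := moment_small (ν := μ) (f := fun x => x) measurable_id h.ae_mem hc hc1 hX₀
  have hY := moment_small (ν := μ) (f := fun x => 1 - x) (by fun_prop) (by
    filter_upwards [h.ae_mem] with x hx
    exact ⟨by linarith [hx.2], by linarith [hx.1]⟩) hc hc1 hY₀
  have hXe : ∫ x, x ^ (-c) ∂μ ≤ 1 + e := by
    have h1 : (∫ x, x ^ (-c₀) ∂μ) ≤ B := by
      rw [hB]; linarith [le_abs_self (∫ x, x ^ (-c₀) ∂μ), abs_nonneg (∫ x, (1 - x) ^ (-c₀) ∂μ)]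
    have h2 : c / c₀ * (∫ x, x ^ (-c₀) ∂μ) ≤ c / c₀ * B := by gcongr
    linarith [hX.2]
  have hYe : ∫ x, (1 - x) ^ (-c) ∂μ ≤ 1 + e := by
    have h1 : (∫ x, (1 - x) ^ (-c₀) ∂μ) ≤ B := by
      rw [hB]; linarith [le_abs_self (∫ x, (1 - x) ^ (-c₀) ∂μ), abs_nonneg (∫ x, x ^ (-c₀) ∂μ)]
    have h2 : c / c₀ * (∫ x, (1 - x) ^ (-c₀) ∂μ) ≤ c / c₀ * B := by gcongr
    linarith [hY.2]
  have hX0 : 0 ≤ ∫ x, x ^ (-c) ∂μ := integral_nonneg_of_ae (by
    filter_upwards [h.ae_mem] with x hx using Real.rpow_nonneg hx.1.le _)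
  -- the product measure
  have hprodae : ∀ᵐ z ∂(μ.prod μ), z.1 ∈ Ioo (0 : ℝ) 1 ∧ z.2 ∈ Ioo (0 : ℝ) 1 := by
    filter_upwards [Measure.quasiMeasurePreserving_fst.ae h.ae_mem,
      Measure.quasiMeasurePreserving_snd.ae h.ae_mem] with z h1 h2 using ⟨h1, h2⟩
  have hτX : Integrable (fun x => x ^ (-c)) (mulC μ μ) ∧
      ∫ x, x ^ (-c) ∂(mulC μ μ) = (∫ x, x ^ (-c) ∂μ) * ∫ x, x ^ (-c) ∂μ := by
    have hcong : (fun z : ℝ × ℝ => (z.1 * z.2) ^ (-c)) =ᵐ[μ.prod μ]
        (fun z => z.1 ^ (-c) * z.2 ^ (-c)) := by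
      filter_upwards [hprodae] with z hz
      exact Real.mul_rpow hz.1.1.le hz.2.1.le
    have hm : Measurable (fun x : ℝ => x ^ (-c)) := by fun_prop
    refine ⟨?_, ?_⟩
    · rw [mulC, integrable_map_measure hm.aestronglyMeasurable measurable_mul'.aemeasurable]
      exact (hX.1.mul_prod hX.1).congr hcong.symm
    · rw [mulC, integral_map measurable_mul'.aemeasurable hm.aestronglyMeasurable,
        integral_congr_ae hcong]
      exact integral_prod_mul (fun x : ℝ => x ^ (-c)) (fun x : ℝ => x ^ (-c))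
  have hτY : Integrable (fun x => (1 - x) ^ (-c)) (mulC μ μ) ∧
      ∫ x, (1 - x) ^ (-c) ∂(mulC μ μ) ≤ ∫ x, (1 - x) ^ (-c) ∂μ := by
    have hm : Measurable (fun x : ℝ => (1 - x) ^ (-c)) := by fun_prop
    have hfst : Integrable (fun z : ℝ × ℝ => (1 - z.1) ^ (-c)) (μ.prod μ) := hY.1.comp_fst μ
    have hle : ∀ᵐ z ∂(μ.prod μ), (1 - z.1 * z.2) ^ (-c) ≤ (1 - z.1) ^ (-c) := by
      filter_upwards [hprodae] with z hz
      apply rpow_neg_anti (by linarith [hz.1.2]) _ hc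
      nlinarith [hz.1.1, hz.2.2]
    have hint : Integrable (fun z : ℝ × ℝ => (1 - z.1 * z.2) ^ (-c)) (μ.prod μ) := by
      refine hfst.mono' (Measurable.aestronglyMeasurable (by fun_prop)) ?_
      filter_upwards [hle, hprodae] with z hz hz0
      rw [Real.norm_eq_abs, abs_of_nonneg (Real.rpow_nonneg _ _)]
      · exact hz
      · linarith [(mul_mem_Ioo hz0.1 hz0.2).2]
    refine ⟨?_, ?_⟩
    · rw [mulC, integrable_map_measure hm.aestronglyMeasurable measurable_mul'.aemeasurable]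
      exact hint
    · rw [mulC, integral_map measurable_mul'.aemeasurable hm.aestronglyMeasurable]
      have h1 := integral_mono_ae hint hfst hle
      have h2 : ∫ z, (1 - z.1) ^ (-c) ∂(μ.prod μ) = ∫ x, (1 - x) ^ (-c) ∂μ := by
        rw [integral_fun_fst (fun x : ℝ => (1 - x) ^ (-c))]
        simp
      rw [h2] at h1
      exact h1
  have hσ : Integrable (fun z : ℝ × ℝ => z.2 ^ (-c)) (sig p q μ) ∧
      ∫ z, z.2 ^ (-c) ∂(sig p q μ) = p * (∫ x, x ^ (-c) ∂μ) +
        q * ∫ x, (1 - x) ^ (-c) ∂(mulC μ μ) := by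
    have hm : Measurable (fun z : ℝ × ℝ => z.2 ^ (-c)) := by fun_prop
    have m1 : Measurable (fun y : ℝ => ((0 : ℝ), y)) := by fun_prop
    have m2 : Measurable (fun v : ℝ => (v, 1 - v)) := by fun_prop
    have i1 : Integrable (fun z : ℝ × ℝ => z.2 ^ (-c)) (μ.map (fun y => ((0 : ℝ), y))) := by
      rw [integrable_map_measure hm.aestronglyMeasurable m1.aemeasurable]
      exact hX.1
    have i2 : Integrable (fun z : ℝ × ℝ => z.2 ^ (-c))
        ((mulC μ μ).map (fun v => (v, 1 - v))) := by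
      rw [integrable_map_measure hm.aestronglyMeasurable m2.aemeasurable]
      exact hτY.1
    have j1 := i1.smul_measure (c := ENNReal.ofReal p) (by simp)
    have j2 := i2.smul_measure (c := ENNReal.ofReal q) (by simp)
    refine ⟨?_, ?_⟩
    · rw [sig]; exact j1.add_measure j2
    · rw [sig, integral_add_measure j1 j2, integral_smul_measure, integral_smul_measure,
        integral_map m1.aemeasurable hm.aestronglyMeasurable,
        integral_map m2.aemeasurable hm.aestronglyMeasurable,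
        ENNReal.toReal_ofReal h.p_pos.le, ENNReal.toReal_ofReal h.q_pos.le]
      simp [smul_eq_mul]
  refine ⟨⟨hX.1, by linarith⟩, ⟨hY.1, by linarith⟩, ⟨hτX.1, ?_⟩, ⟨hτY.1, by linarith [hτY.2]⟩,
    ⟨hσ.1, ?_⟩⟩
  · rw [hτX.2]
    nlinarith
  · rw [hσ.2]
    have hp := h.p_pos
    have hq := h.q_pos
    have hpq := h.pq
    nlinarith [hτY.2]

end N

end MP319742
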