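import Pool.Agent.Lib.MP_319742_pr.ProductBound
import Pool.Agent.Lib.MP_319742_pr.Moments

/-! Task T of MP_319742_pr: the global bound `TBd` for the solution of the RDE. -/

open MeasureTheory Set
open scoped ENNReal ContDiff

namespace MP319742

/-- Rescaling: a bound for test functions with a smaller Lipschitz constant. -/
theorem scaled_bound {ν : Measure ℝ} {Γ ε R B A : ℝ} (hR : 0 < R) (hB : 0 < B)
    {v : ℝ → ℂ} (hv : ContDiff ℝ ∞ v) (hv1 : ∀ x, ‖v x‖ ≤ 1) (hv2 : ∀ x, ‖deriv v x‖ ≤ R)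
    (hcl : ∀ w : ℝ → ℂ, ContDiff ℝ ∞ w → (∀ x, ‖w x‖ ≤ 1) → (∀ x, ‖deriv w x‖ ≤ B * R) →
      ‖∫ x, deriv w x ∂ν‖ ≤ Γ * (B * R) ^ (1 - ε)) :
    ‖∫ x, deriv v (A + B * x) ∂ν‖ ≤ Γ * R ^ (1 - ε) * B ^ (-ε) := by
  have hd : ∀ x, deriv (fun x => v (A + B * x)) x = (B : ℂ) * deriv v (A + B * x) := by
    intro x
    have h1 : HasDerivAt (fun x : ℝ => A + B * x) B x := by
      simpa using ((hasDerivAt_id x).const_mul B).const_add A
    have h2 := HasDerivAt.scomp x ((hv.differentiable (by simp) (A + B * x)).hasDerivAt) h1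
    have h3 := h2.deriv
    change deriv (fun x => v (A + B * x)) x = _ at h3
    rw [h3, Complex.real_smul]
  have h1 := hcl (fun x => v (A + B * x)) (hv.comp (by fun_prop)) (fun x => hv1 _) (by
    intro x
    rw [hd x, norm_mul, Complex.norm_real, Real.norm_eq_abs, abs_of_pos hB]
    gcongr
    exact hv2 _)
  simp_rw [hd] at h1
  rw [integral_const_mul, norm_mul, Complex.norm_real, Real.norm_eq_abs, abs_of_pos hB,
    Real.mul_rpow hB.le hR.le, Real.rpow_sub hB, Real.rpow_one] at h1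
  have h2 : B * ‖∫ x, deriv v (A + B * x) ∂ν‖ ≤ B * (Γ * R ^ (1 - ε) * B ^ (-ε)) := by
    refine h1.trans_eq ?_
    rw [Real.rpow_neg hB.le]
    ring
  exact le_of_mul_le_mul_left h2 hB

/-- T1. `TBd` for the product. -/
theorem TBd.mulC_right {ν₁ ν₂ : Measure ℝ} [IsProbabilityMeasure ν₁] [IsProbabilityMeasure ν₂]
    (h₁ : ν₁ (Ioo 0 1)ᶜ = 0) (h₂ : ν₂ (Ioo 0 1)ᶜ = 0) {ε C : ℝ} (hT : TBd ν₁ ε C)
    (hmom : Integrable (fun x => x ^ (-ε)) ν₂) :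
    TBd (mulC ν₁ ν₂) ε (C * ∫ x, x ^ (-ε) ∂ν₂) := by
  intro R hR v hv hv1 hv2
  have hint : Integrable (deriv v) (mulC ν₁ ν₂) :=
    integrable_of_bdd (mulC_supp h₁ h₂) (smooth_deriv_continuous hv).aestronglyMeasurable (C := R)
      (fun x _ => hv2 x)
  rw [integral_mulC' hint]
  have h3 : C * (∫ x, x ^ (-ε) ∂ν₂) * R ^ (1 - ε) =
      ∫ y, C * R ^ (1 - ε) * y ^ (-ε) ∂ν₂ := by
    rw [integral_const_mul]; ring
  rw [h3]
  apply norm_integral_le_of_norm_le (hmom.const_mul _)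
  filter_upwards [ae_mem_of_supp h₂] with y hy
  have h4 := scaled_bound (ν := ν₁) (Γ := C) (ε := ε) (A := 0) hR hy.1 hv hv1 hv2
    (fun w hw hw1 hw2 => hT (y * R) (mul_pos hy.1 hR) w hw hw1 hw2)
  simp only [zero_add] at h4
  simpa only [mul_comm _ y] using h4

theorem mulC_assoc {a b c : Measure ℝ} [SFinite a] [SFinite b] [SFinite c]
    [SFinite (mulC a b)] [SFinite (mulC b c)] :
    mulC (mulC a b) c = mulC a (mulC b c) := by
  apply Measure.ext_of_lintegral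
  intro f hf
  rw [lintegral_mulC hf, lintegral_mulC hf, lintegral_mulC]
  · apply lintegral_congr
    intro x
    rw [lintegral_mulC (f := fun y => f (x * y)) (by fun_prop)]
    simp only [mul_assoc]
  · exact Measurable.lintegral_prod_right' (f := fun z : ℝ × ℝ => f (z.1 * z.2)) (by fun_prop)

theorem mulC_add {a b c : Measure ℝ} [SFinite a] [SFinite b] [SFinite c] :
    mulC a (b + c) = mulC a b + mulC a c := by
  unfold mulC
  rw [Measure.prod_add, Measure.map_add _ _ measurable_mul']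

theorem mulC_smul {a b : Measure ℝ} [SFinite a] [SFinite b] (r : ℝ≥0∞) :
    mulC a (r • b) = r • mulC a b := by
  unfold mulC
  rw [Measure.prod_smul_right, Measure.map_smul]

theorem mulPow_ae (μ : Measure ℝ) [IsProbabilityMeasure μ] (hμ : μ (Ioo 0 1)ᶜ = 0) (j : ℕ) :
    ∀ᵐ x ∂(mulPow μ j), 0 < x ∧ x ≤ 1 := by
  cases j with
  | zero =>
    change ∀ᵐ x ∂(Measure.dirac (1 : ℝ)), 0 < x ∧ x ≤ 1
    rw [ae_dirac_iff (by measurability)]
    norm_num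
  | succ j =>
    filter_upwards [ae_mem_of_supp (mulPow_supp hμ j)] with x hx
    exact ⟨hx.1, hx.2.le⟩

theorem mulPow_rpow {μ : Measure ℝ} [IsProbabilityMeasure μ] (hμ : μ (Ioo 0 1)ᶜ = 0) {a : ℝ}
    (hmom : Integrable (fun x => x ^ a) μ) (j : ℕ) :
    Integrable (fun x => x ^ a) (mulPow μ j) ∧
      ∫ x, x ^ a ∂(mulPow μ j) = (∫ x, x ^ a ∂μ) ^ j := by
  induction j with
  | zero =>
    change Integrable _ (Measure.dirac (1 : ℝ)) ∧ ∫ x, x ^ a ∂(Measure.dirac (1 : ℝ)) = _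
    constructor
    · exact integrable_dirac (by simp)
    · rw [integral_dirac]; simp
  | succ j ih =>
    have hi : Integrable (fun x => x ^ a) (mulPow μ (j + 1)) := mulPow_integrable_rpow hμ hmom j
    refine ⟨hi, ?_⟩
    change Integrable (fun x => x ^ a) (mulC (mulPow μ j) μ) at hi
    change ∫ x, x ^ a ∂(mulC (mulPow μ j) μ) = _
    rw [integral_mulC hi, pow_succ, ← ih.2, ← integral_mul_const]
    apply integral_congr_ae
    filter_upwards [mulPow_ae μ hμ j] with x hx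
    rw [← integral_const_mul]
    apply integral_congr_ae
    filter_upwards [ae_mem_of_supp hμ] with y hy
    rw [Real.mul_rpow hx.1.le hy.1.le]

section T2

variable {p q : ℝ} {μ : Measure ℝ}

/-- Recursion: the law of a `j+1`-fold product in terms of the `j+2`-fold product. -/
theorem Sol.mulPow_rec (h : Sol p q μ) (j : ℕ) :
    mulPow μ (j + 1) = ENNReal.ofReal p • mulPow μ (j + 2) +
      ENNReal.ofReal q • mulC (mulPow μ j) (opl μ (mulC μ μ)) := by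
  have := h.prob
  have e1 : mulPow μ (j + 2) = mulC (mulPow μ j) (mulC μ μ) := by
    change mulC (mulC (mulPow μ j) μ) μ = _
    rw [mulC_assoc]
  have e2 : mulPow μ (j + 1) = mulC (mulPow μ j) μ := rfl
  rw [e2, e1]
  refine (congrArg (mulC (mulPow μ j)) h.rde).trans ?_
  rw [mulC_add, mulC_smul, mulC_smul]

/-- One step: bound for the `j+1`-fold product by the one for the `j+2`-fold product. -/
theorem Sol.step_bound (h : Sol p q μ) {ε Γ R a b : ℝ} (hR : 0 < R) (hΓ : 0 ≤ Γ)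
    (hcl : ∀ S : ℝ, 0 < S → S ≤ R → ∀ w : ℝ → ℂ, ContDiff ℝ ∞ w → (∀ x, ‖w x‖ ≤ 1) →
      (∀ x, ‖deriv w x‖ ≤ S) → ‖∫ x, deriv w x ∂μ‖ ≤ Γ * S ^ (1 - ε))
    (hma : Integrable (fun x => x ^ (-ε)) μ) (ha : ∫ x, x ^ (-ε) ∂μ ≤ a)
    (hmb : Integrable (fun x => (1 - x) ^ (-ε)) (mulC μ μ))
    (hb : ∫ x, (1 - x) ^ (-ε) ∂(mulC μ μ) ≤ b)
    {v : ℝ → ℂ} (hv : ContDiff ℝ ∞ v) (hv1 : ∀ x, ‖v x‖ ≤ 1) (hv2 : ∀ x, ‖deriv v x‖ ≤ R)
    (j : ℕ) :
    ‖∫ x, deriv v x ∂(mulPow μ (j + 1))‖ ≤ p * ‖∫ x, deriv v x ∂(mulPow μ (j + 2))‖ +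
      q * (Γ * R ^ (1 - ε) * (a ^ j * b)) := by
  have := h.prob
  have hc := smooth_deriv_continuous hv
  have hint : ∀ (ν : Measure ℝ) [IsFiniteMeasure ν], Integrable (deriv v) ν := fun ν _ =>
    Integrable.of_bound hc.aestronglyMeasurable R (Filter.Eventually.of_forall hv2)
  have hq := h.q_pos
  have hp := h.p_pos
  rw [h.mulPow_rec j, integral_add_measure ((hint _).smul_measure (by simp))
    ((hint _).smul_measure (by simp)), integral_smul_measure, integral_smul_measure,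
    ENNReal.toReal_ofReal h.p_pos.le, ENNReal.toReal_ofReal h.q_pos.le]
  refine (norm_add_le _ _).trans ?_
  rw [norm_smul, norm_smul, Real.norm_eq_abs, Real.norm_eq_abs, abs_of_pos hp, abs_of_pos hq]
  gcongr
  rw [integral_mulC (hint _)]
  -- the inner integral
  have ha0 : 0 ≤ ∫ x, x ^ (-ε) ∂μ := by
    apply integral_nonneg_of_ae
    filter_upwards [h.ae_mem] with x hx
    have := hx.1
    positivity
  have hb0 : 0 ≤ ∫ x, (1 - x) ^ (-ε) ∂(mulC μ μ) := by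
    apply integral_nonneg_of_ae
    filter_upwards [h.ae_tau_mem] with x hx
    have : 0 < 1 - x := by linarith [hx.2]
    positivity
  have hinner : ∀ P : ℝ, 0 < P → P ≤ 1 →
      ‖∫ z, deriv v (P * z) ∂(opl μ (mulC μ μ))‖ ≤
        Γ * R ^ (1 - ε) * b * P ^ (-ε) := by
    intro P hP hP1
    have hi : Integrable (fun z => deriv v (P * z)) (opl μ (mulC μ μ)) :=
      Integrable.of_bound (hc.comp (by fun_prop)).aestronglyMeasurable R
        (Filter.Eventually.of_forall fun x => hv2 _)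
    rw [integral_opl' hi]
    have h3 : ‖∫ v', ∫ x, deriv v (P * (v' + (1 - v') * x)) ∂μ ∂(mulC μ μ)‖ ≤
        ∫ v', Γ * R ^ (1 - ε) * P ^ (-ε) * (1 - v') ^ (-ε) ∂(mulC μ μ) := by
      apply norm_integral_le_of_norm_le (hmb.const_mul _)
      filter_upwards [h.ae_tau_mem] with u hu
      have hu1 : 0 < 1 - u := by linarith [hu.2]
      have hB : 0 < P * (1 - u) := mul_pos hP hu1
      have hB1 : P * (1 - u) ≤ 1 := by nlinarith [hu.1]
      have h4 := scaled_bound (ν := μ) (Γ := Γ) (ε := ε) (A := P * u) (B := P * (1 - u))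
        hR hB hv hv1 hv2 (fun w hw hw1 hw2 =>
          hcl (P * (1 - u) * R) (mul_pos hB hR) (by nlinarith) w hw hw1 hw2)
      have h5 : ∀ x, P * (u + (1 - u) * x) = P * u + P * (1 - u) * x := fun x => by ring
      simp_rw [h5]
      refine h4.trans_eq ?_
      rw [Real.mul_rpow hP.le hu1.le]
      ring
    refine h3.trans ?_
    rw [integral_const_mul]
    calc Γ * R ^ (1 - ε) * P ^ (-ε) * ∫ x, (1 - x) ^ (-ε) ∂(mulC μ μ) ≤
          Γ * R ^ (1 - ε) * P ^ (-ε) * b := by gcongr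
      _ = _ := by ring
  have hPow := mulPow_rpow h.supp hma j
  calc ‖∫ x, ∫ z, deriv v (x * z) ∂(opl μ (mulC μ μ)) ∂(mulPow μ j)‖ ≤
        ∫ x, Γ * R ^ (1 - ε) * b * x ^ (-ε) ∂(mulPow μ j) := by
        apply norm_integral_le_of_norm_le (hPow.1.const_mul _)
        filter_upwards [mulPow_ae μ h.supp j] with x hx
        exact hinner x hx.1 hx.2
    _ = Γ * R ^ (1 - ε) * b * (∫ x, x ^ (-ε) ∂μ) ^ j := by
        rw [integral_const_mul, hPow.2]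
    _ ≤ Γ * R ^ (1 - ε) * b * a ^ j := by
        have : 0 ≤ b := hb0.trans hb
        gcongr
    _ = _ := by ring

/-- Iteration of `step_bound`. -/
theorem Sol.iter_bound (h : Sol p q μ) {ε Γ R a : ℝ} (hR : 0 < R) (hΓ : 0 ≤ Γ)
    (hcl : ∀ S : ℝ, 0 < S → S ≤ R → ∀ w : ℝ → ℂ, ContDiff ℝ ∞ w → (∀ x, ‖w x‖ ≤ 1) →
      (∀ x, ‖deriv w x‖ ≤ S) → ‖∫ x, deriv w x ∂μ‖ ≤ Γ * S ^ (1 - ε))
    (hma : Integrable (fun x => x ^ (-ε)) μ) (ha : ∫ x, x ^ (-ε) ∂μ ≤ a) (ha1 : 1 ≤ a)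
    (hmb : Integrable (fun x => (1 - x) ^ (-ε)) (mulC μ μ))
    (hb : ∫ x, (1 - x) ^ (-ε) ∂(mulC μ μ) ≤ a)
    {v : ℝ → ℂ} (hv : ContDiff ℝ ∞ v) (hv1 : ∀ x, ‖v x‖ ≤ 1) (hv2 : ∀ x, ‖deriv v x‖ ≤ R)
    {k : ℕ} (n : ℕ) (hn : n < k) :
    ‖∫ x, deriv v x ∂(mulPow μ 1)‖ ≤ p ^ n * ‖∫ x, deriv v x ∂(mulPow μ (n + 1))‖ +
      (1 - p ^ n) * (Γ * R ^ (1 - ε) * a ^ k) := by
  have hp := h.p_pos
  have hq := h.q_pos
  induction n with
  | zero => simp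
  | succ n ih =>
    have h1 := ih (by omega)
    have h2 := h.step_bound hR hΓ hcl hma ha hmb hb hv hv1 hv2 n
    have h3 : a ^ n * a ≤ a ^ k := by
      rw [← pow_succ]
      exact pow_le_pow_right₀ ha1 (by omega)
    have h4 : q * (Γ * R ^ (1 - ε) * (a ^ n * a)) ≤ q * (Γ * R ^ (1 - ε) * a ^ k) := by
      gcongr
    have h5 : p ^ n * ‖∫ x, deriv v x ∂(mulPow μ (n + 1))‖ ≤
        p ^ n * (p * ‖∫ x, deriv v x ∂(mulPow μ (n + 2))‖ + q * (Γ * R ^ (1 - ε) * a ^ k)) := by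
      gcongr
      exact h2.trans (by linarith)
    have h6 : q = 1 - p := by linarith [h.pq]
    calc _ ≤ _ := h1
      _ ≤ p ^ n * (p * ‖∫ x, deriv v x ∂(mulPow μ (n + 2))‖ + q * (Γ * R ^ (1 - ε) * a ^ k)) +
          (1 - p ^ n) * (Γ * R ^ (1 - ε) * a ^ k) := by linarith
      _ = _ := by rw [h6]; ring

/-- The improvement of the constant. -/
theorem Sol.improve (h : Sol p q μ) {k : ℕ} (hk : 1 ≤ k) {ε₁ C₁ : ℝ}
    (hT : TBd (mulPow μ k) ε₁ C₁) {ε a θ : ℝ} (hε1 : ε ≤ ε₁) (hε0 : 0 ≤ ε)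
    (hma : Integrable (fun x => x ^ (-ε)) μ) (ha : ∫ x, x ^ (-ε) ∂μ ≤ a) (ha1 : 1 ≤ a)
    (hmb : Integrable (fun x => (1 - x) ^ (-ε)) (mulC μ μ))
    (hb : ∫ x, (1 - x) ^ (-ε) ∂(mulC μ μ) ≤ a)
    (hθ : (1 - p ^ (k - 1)) * a ^ k ≤ θ) {R₀ Γ : ℝ} (hΓ : 0 ≤ Γ)
    (hcl : ∀ S : ℝ, 0 < S → S ≤ R₀ → ∀ w : ℝ → ℂ, ContDiff ℝ ∞ w → (∀ x, ‖w x‖ ≤ 1) →
      (∀ x, ‖deriv w x‖ ≤ S) → ‖∫ x, deriv w x ∂μ‖ ≤ Γ * S ^ (1 - ε)) :
    ∀ S : ℝ, 0 < S → S ≤ R₀ → ∀ w : ℝ → ℂ, ContDiff ℝ ∞ w → (∀ x, ‖w x‖ ≤ 1) →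
      (∀ x, ‖deriv w x‖ ≤ S) → ‖∫ x, deriv w x ∂μ‖ ≤
        max 1 (|C₁| + θ * Γ) * S ^ (1 - ε) := by
  have := h.prob
  intro S hS hSR w hw hw1 hw2
  rcases le_or_gt S 1 with hS1 | hS1
  · have e1 : ‖∫ x, deriv w x ∂μ‖ ≤ S := norm_integral_le_of_bdd h.supp (fun x _ => hw2 x)
    have e2 : S ≤ S ^ (1 - ε) := by
      conv_lhs => rw [← Real.rpow_one S]
      exact Real.rpow_le_rpow_of_exponent_ge hS hS1 (by linarith)
    calc ‖∫ x, deriv w x ∂μ‖ ≤ 1 * S ^ (1 - ε) := by rw [one_mul]; exact e1.trans e2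
      _ ≤ _ := by
        gcongr
        exact le_max_left _ _
  · have h1 := h.iter_bound hS hΓ (fun T hT hTS => hcl T hT (hTS.trans hSR)) hma ha ha1 hmb hb
      hw hw1 hw2 (k := k) (k - 1) (by omega)
    have hk1 : k - 1 + 1 = k := by omega
    rw [hk1, mulPow_one] at h1
    have h2 := hT S hS w hw hw1 hw2
    have hp := h.p_pos
    have hp1 : p ≤ 1 := by linarith [h.p_lt]
    have h3 : p ^ (k - 1) * ‖∫ x, deriv w x ∂(mulPow μ k)‖ ≤ 1 * (|C₁| * S ^ (1 - ε)) := by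
      apply mul_le_mul (pow_le_one₀ hp.le hp1) _ (norm_nonneg _) zero_le_one
      calc _ ≤ C₁ * S ^ (1 - ε₁) := h2
        _ ≤ |C₁| * S ^ (1 - ε₁) := by
          gcongr
          exact le_abs_self _
        _ ≤ |C₁| * S ^ (1 - ε) := by
          gcongr
          · exact hS1.le
    have h4 : (1 - p ^ (k - 1)) * (Γ * S ^ (1 - ε) * a ^ k) ≤ θ * Γ * S ^ (1 - ε) := by
      have : (1 - p ^ (k - 1)) * (Γ * S ^ (1 - ε) * a ^ k) =
        ((1 - p ^ (k - 1)) * a ^ k) * (Γ * S ^ (1 - ε)) := by ring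
      rw [this, mul_assoc θ]
      gcongr
    calc _ ≤ _ := h1
      _ ≤ 1 * (|C₁| * S ^ (1 - ε)) + θ * Γ * S ^ (1 - ε) := add_le_add h3 h4
      _ = (|C₁| + θ * Γ) * S ^ (1 - ε) := by ring
      _ ≤ _ := by
        gcongr
        exact le_max_right _ _

/-- T2 from the moment bounds. -/
theorem Sol.tbd_of_moments (h : Sol p q μ)
    (hmom : ∀ η : ℝ, 0 < η → ∃ c₁ : ℝ, 0 < c₁ ∧ ∀ c : ℝ, 0 < c → c ≤ c₁ →
      (Integrable (fun x => x ^ (-c)) μ ∧ ∫ x, x ^ (-c) ∂μ ≤ 1 + η) ∧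
      (Integrable (fun x => (1 - x) ^ (-c)) (mulC μ μ) ∧
        ∫ x, (1 - x) ^ (-c) ∂(mulC μ μ) ≤ 1 + η))
    {k : ℕ} (hk : 1 ≤ k) {ε₁ C₁ : ℝ} (hε₁ : 0 < ε₁) (hε₁' : ε₁ < 1)
    (hT : TBd (mulPow μ k) ε₁ C₁) :
    ∃ ε C : ℝ, 0 < ε ∧ ε < 1 ∧ 0 ≤ C ∧ TBd μ ε C ∧ TBd (mulC μ μ) ε C := by
  have := h.prob
  have hp := h.p_pos
  have hp1 : p ≤ 1 := by linarith [h.p_lt]
  set x := p ^ (k - 1) with hx
  have hx0 : 0 < x := by positivity
  have hx1 : x ≤ 1 := pow_le_one₀ hp.le hp1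
  -- choice of `η` with `(1 + η) ^ k ≤ 1 + x / 2`
  obtain ⟨η, hη, hηk⟩ : ∃ η : ℝ, 0 < η ∧ (1 + η) ^ k ≤ 1 + x / 2 := by
    have hcont : Filter.Tendsto (fun η : ℝ => (1 + η) ^ k) (nhdsWithin 0 (Ioi 0)) (nhds 1) := by
      have : Filter.Tendsto (fun η : ℝ => (1 + η) ^ k) (nhds 0) (nhds ((1 + 0) ^ k)) :=
        (Continuous.tendsto (by fun_prop) 0)
      rw [add_zero, one_pow] at this
      exact this.mono_left nhdsWithin_le_nhds
    have h1 : ∀ᶠ η : ℝ in nhdsWithin 0 (Ioi 0), (1 + η) ^ k < 1 + x / 2 :=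
      hcont.eventually_lt_const (by linarith)
    have h2 : ∀ᶠ η : ℝ in nhdsWithin 0 (Ioi 0), 0 < η := eventually_mem_nhdsWithin
    obtain ⟨η, h3, h4⟩ := (h1.and h2).exists
    exact ⟨η, h4, h3.le⟩
  obtain ⟨c₁, hc₁, hc⟩ := hmom η hη
  set ε := min c₁ ε₁ with hε
  have hε0 : 0 < ε := lt_min hc₁ hε₁
  have hε1 : ε ≤ ε₁ := min_le_right _ _
  obtain ⟨⟨hma, ha⟩, hmb, hb⟩ := hc ε hε0 (min_le_left _ _)
  set θ := 1 - x / 2 with hθdef
  have hθ : (1 - x) * (1 + η) ^ k ≤ θ := by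
    have : (1 - x) * (1 + η) ^ k ≤ (1 - x) * (1 + x / 2) :=
      mul_le_mul_of_nonneg_left hηk (by linarith)
    nlinarith
  have hθ0 : 0 ≤ θ := by rw [hθdef]; linarith
  have hθ1 : θ < 1 := by rw [hθdef]; linarith
  set Γ := max 1 (|C₁| / (1 - θ)) with hΓ
  have hΓ1 : 1 ≤ Γ := le_max_left _ _
  have hΓ2 : |C₁| ≤ (1 - θ) * Γ := by
    have : |C₁| / (1 - θ) ≤ Γ := le_max_right _ _
    rw [div_le_iff₀ (by linarith)] at this
    linarith
  have key : ∀ R₀ : ℝ, 1 ≤ R₀ → ∀ n : ℕ, ∀ S : ℝ, 0 < S → S ≤ R₀ → ∀ w : ℝ → ℂ, ContDiff ℝ ∞ w →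
      (∀ x, ‖w x‖ ≤ 1) → (∀ x, ‖deriv w x‖ ≤ S) → ‖∫ x, deriv w x ∂μ‖ ≤
        (Γ + θ ^ n * R₀ ^ ε) * S ^ (1 - ε) := by
    intro R₀ hR₀ n
    have hR₀' : 0 < R₀ := by linarith
    induction n with
    | zero =>
      intro S hS hSR w hw hw1 hw2
      have e1 : ‖∫ x, deriv w x ∂μ‖ ≤ S := norm_integral_le_of_bdd h.supp (fun x _ => hw2 x)
      have e2 : S = S ^ ε * S ^ (1 - ε) := by
        rw [← Real.rpow_add hS]; simp
      calc _ ≤ S := e1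
        _ = S ^ ε * S ^ (1 - ε) := e2
        _ ≤ (Γ + θ ^ 0 * R₀ ^ ε) * S ^ (1 - ε) := by
          gcongr
          rw [pow_zero, one_mul]
          have : S ^ ε ≤ R₀ ^ ε := by gcongr
          linarith
    | succ n ih =>
      have h1 := h.improve hk hT (a := 1 + η) hε1 hε0.le hma ha (by linarith) hmb hb hθ
        (R₀ := R₀) (Γ := Γ + θ ^ n * R₀ ^ ε) (by positivity) ih
      intro S hS hSR w hw hw1 hw2
      refine (h1 S hS hSR w hw hw1 hw2).trans ?_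
      gcongr
      apply max_le
      · have : 0 ≤ θ ^ (n + 1) * R₀ ^ ε := by positivity
        linarith
      · calc |C₁| + θ * (Γ + θ ^ n * R₀ ^ ε) ≤ (1 - θ) * Γ + θ * (Γ + θ ^ n * R₀ ^ ε) := by
              gcongr
          _ = _ := by ring
  have hTμ : TBd μ ε Γ := by
    intro R hR v hv hv1 hv2
    have h1 : ∀ n : ℕ, ‖∫ x, deriv v x ∂μ‖ ≤ (Γ + θ ^ n * (max 1 R) ^ ε) * R ^ (1 - ε) :=
      fun n => key (max 1 R) (le_max_left _ _) n R hR (le_max_right _ _) v hv hv1 hv2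
    have h2 : Filter.Tendsto (fun n : ℕ => (Γ + θ ^ n * (max 1 R) ^ ε) * R ^ (1 - ε))
        Filter.atTop (nhds ((Γ + 0 * (max 1 R) ^ ε) * R ^ (1 - ε))) :=
      ((tendsto_const_nhds.add ((tendsto_pow_atTop_nhds_zero_of_lt_one hθ0 hθ1).mul_const
        _)).mul_const _)
    have h3 := ge_of_tendsto' h2 h1
    simpa using h3
  have hTτ : TBd (mulC μ μ) ε (Γ * ∫ x, x ^ (-ε) ∂μ) :=
    hTμ.mulC_right h.supp h.supp hma
  have hΓ0 : 0 ≤ Γ := by linarith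
  refine ⟨ε, Γ * (1 + η), hε0, lt_of_le_of_lt hε1 hε₁', by positivity, ?_, ?_⟩
  · intro R hR v hv hv1 hv2
    refine (hTμ R hR v hv hv1 hv2).trans ?_
    gcongr
    nlinarith
  · intro R hR v hv hv1 hv2
    refine (hTτ R hR v hv hv1 hv2).trans ?_
    gcongr

/-- T2. `TBd` for `μ` and `mulC μ μ`, from the bound for the `k`-fold product (uses N). -/
theorem Sol.tbd (h : Sol p q μ) {k : ℕ} (hk : 1 ≤ k) {ε₁ C₁ : ℝ} (hε₁ : 0 < ε₁) (hε₁' : ε₁ < 1)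
    (hT : TBd (mulPow μ k) ε₁ C₁) :
    ∃ ε C : ℝ, 0 < ε ∧ ε < 1 ∧ 0 ≤ C ∧ TBd μ ε C ∧ TBd (mulC μ μ) ε C := by
  refine h.tbd_of_moments (fun η hη => ?_) hk hε₁ hε₁' hT
  obtain ⟨c₁, hc₁, hc⟩ := h.moments hη
  exact ⟨c₁, hc₁, fun c hc0 hc1 => ⟨(hc c hc0 hc1).1, (hc c hc0 hc1).2.2.2.1⟩⟩

end T2

end MP319742
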