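import Pool.Agent.Lib.MP_319742_pr.LinearImprove
import Pool.Agent.Lib.MP_319742_pr.Moments

open MeasureTheory Set
open scoped ENNReal ContDiff

namespace MP319742

/-- D. Power decay of the characteristic function. -/
theorem Sol.linear_decay {p q : ℝ} {μ : Measure ℝ} (h : Sol p q μ) :
    ∃ c K : ℝ, 0 < c ∧ ∀ m : ℝ, 0 < m →
      ‖∫ x, Complex.exp (Complex.I * m * x) ∂μ‖ ≤ K * m ^ (-c) := by
  have := h.prob
  have := h.sig_prob
  obtain ⟨c₁, hc₁, hmom1⟩ := h.moments one_pos
  obtain ⟨c0, D, θ, G, hc0, hc01, hD, hθ, hGm, hG01, hG0, hGD, hG⟩ := h.exists_G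
    (c := c₁ / 2) (by positivity) (hmom1 (c₁ / 2) (by positivity) (by linarith)).2.2.2.2.1
    (by
      have := (hmom1 (2 * (c₁ / 2)) (by positivity) (by linarith)).2.2.2.2.1
      exact this)
  obtain ⟨δ, hδ, hδ1, hπ⟩ := h.exists_delta
  set π : ℝ := (sig p q μ).real {z : ℝ × ℝ | δ ≤ z.1 ∧ δ ≤ z.2} with hπdef
  have hπ1 : π ≤ 1 := measureReal_le_one
  set V2 : ℝ := ∫ x, ∫ y, (x - y) ^ 2 ∂μ ∂μ with hV2
  have hV2pos : 0 < V2 := h.var_pos
  set η : ℝ := min (δ / 2) ((c0 * δ) ^ 2 * V2 / 8) with hη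
  have hηpos : 0 < η := lt_min (by positivity) (by positivity)
  have hη' : η ≤ δ / 2 := min_le_left _ _
  have hg : ∀ s, c0 * δ ≤ s → s ≤ 1 → ‖gf μ s‖ ≤ 1 - η := by
    intro s hs hs1
    have hs0 : 0 ≤ s := le_trans (by positivity) hs
    have h1 := norm_sq_gf_le h.supp hs0 hs1
    rw [← hV2] at h1
    have h2 : η ≤ s ^ 2 * V2 / 8 := by
      refine (min_le_right _ _).trans ?_
      gcongr
    set z : ℝ := s ^ 2 / 4 * V2 with hz
    have h3 : z ≤ 1 := by nlinarith [sq_nonneg ‖gf μ s‖]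
    have h4 : ‖gf μ s‖ ≤ 1 - z / 2 := by
      refine (sq_le_sq₀ (norm_nonneg _) (by linarith)).1 ?_
      nlinarith [sq_nonneg z]
    have h5 : s ^ 2 * V2 / 8 = z / 2 := by rw [hz]; ring
    linarith
  set L : ℝ := 2 / δ with hL
  have hLpos : 0 < L := by positivity
  have hppos := h.p_pos
  have hqpos := h.q_pos
  have hpq := h.pq
  set κ : ℝ := p * η * π ^ 2 * D with hκ
  have hκpos : 0 < κ := by positivity
  have hD1 : D ≤ 1 := (hGD 1 le_rfl).trans (hG01 1).2
  have hκ1 : κ ≤ 1 := by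
    have h1 : p ≤ 1 := by linarith
    have h2 : η ≤ 1 := by linarith
    have h3 : π ^ 2 ≤ 1 := pow_le_one₀ hπ.le hπ1
    have h4 : p * η ≤ 1 := mul_le_one₀ h1 hηpos.le h2
    have h5 : p * η * π ^ 2 ≤ 1 := mul_le_one₀ h4 (by positivity) h3
    exact mul_le_one₀ h5 hD.le hD1
  set ε : ℝ := min 1 (κ / 14) with hε
  have hεpos : 0 < ε := lt_min one_pos (by positivity)
  have hε1 : ε ≤ 1 := min_le_left _ _
  have hεκ : 7 * ε ≤ κ / 2 := by
    have := min_le_right 1 (κ / 14)
    rw [← hε] at this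
    linarith
  obtain ⟨c₂, hc₂, hmom2⟩ := h.moments hεpos
  set c : ℝ := min (min c₂ 1) (ε * δ) with hc
  have hcpos : 0 < c := lt_min (lt_min hc₂ one_pos) (by positivity)
  have hcc₂ : c ≤ c₂ := (min_le_left _ _).trans (min_le_left _ _)
  have hc1 : c ≤ 1 := (min_le_left _ _).trans (min_le_right _ _)
  have hcε : c ≤ ε * δ := min_le_right _ _
  obtain ⟨⟨hi2, he2⟩, -, -, ⟨hi1, he1⟩, ⟨hi3, he3⟩⟩ := hmom2 c hcpos hcc₂
  have hd : δ ^ (-c) ≤ 1 + ε := by
    have h1 : δ ^ (-c) = (1 + (δ⁻¹ - 1)) ^ c := by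
      rw [Real.rpow_neg hδ.le, ← Real.inv_rpow hδ.le]
      ring_nf
    rw [h1]
    have h2 : 1 ≤ δ⁻¹ := (one_le_inv₀ hδ).2 hδ1.le
    refine (rpow_one_add_le_one_add_mul_self (by linarith) hcpos.le hc1).trans ?_
    have h3 : c * (δ⁻¹ - 1) ≤ c * δ⁻¹ := by nlinarith
    have h4 : c * δ⁻¹ ≤ ε * δ * δ⁻¹ := by gcongr
    rw [mul_assoc, mul_inv_cancel₀ hδ.ne', mul_one] at h4
    linarith
  set K : ℝ := max (2 * L / κ) (1 / δ) with hK
  have hK1 : 2 * L / κ ≤ K := le_max_left _ _
  have hK2 : 1 / δ ≤ K := le_max_right _ _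
  have hKpos : 0 < K := lt_of_lt_of_le (by positivity) hK2
  have hclaim : ∀ n : ℕ, ClD μ L (fun m => K * m ^ (-c) + (1 - κ) ^ n) := by
    intro n
    induction n with
    | zero =>
      intro m hm α hα
      have h1 : ‖∫ x, α x * ee (m * x) ∂μ‖ ≤ 1 := by
        apply norm_integral_le_of_bdd h.supp
        intro x hx
        exact norm_kk_le hα m (Ioo_subset_Icc_self hx)
      have h2 : 0 ≤ K * m ^ (-c) := by positivity
      simp only [pow_zero]
      linarith
    | succ n ih =>
      intro m hm α hα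
      set S : ℝ := (1 - κ) ^ n with hS
      have hS0 : 0 ≤ S := pow_nonneg (by linarith) n
      have hSs : (1 - κ) ^ (n + 1) = (1 - κ) * S := by rw [hS]; ring
      have hX0 : 0 ≤ K * m ^ (-c) := by positivity
      rcases le_or_gt 1 (m * δ) with hmδ | hmδ
      · have h1 := ClD_improve h hKpos.le hS0 hcpos ih hα hδ hηpos hη' hL hg hi3 hi1 hi2
          (by positivity : 0 < c₁ / 2) hθ hGm hG01 hG0 hGD hG hm hmδ
        rw [← hπdef] at h1
        refine h1.trans ?_
        simp only
        rw [hSs, Real.mul_rpow hm.le hδ.le]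
        set X : ℝ := K * m ^ (-c) with hX
        set e1 : ℝ := ∫ x, (1 - x) ^ (-c) ∂(mulC μ μ) with he1d
        set e2 : ℝ := ∫ x, x ^ (-c) ∂μ with he2d
        set e3 : ℝ := ∫ z, z.2 ^ (-c) ∂(sig p q μ) with he3d
        have he31 : 1 ≤ e3 := one_le_e3 h hcpos hi3
        have hm1 : 1 ≤ m := by nlinarith
        have hLm : L / m ≤ X * (κ / 2) := by
          have h2 : m⁻¹ ≤ m ^ (-c) := by
            rw [← Real.rpow_neg_one]
            exact Real.rpow_le_rpow_of_exponent_le hm1 (by linarith)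
          have h3 : L ≤ K * (κ / 2) := by
            rw [div_le_iff₀ hκpos] at hK1
            linarith
          calc L / m = L * m⁻¹ := div_eq_mul_inv _ _
            _ ≤ (K * (κ / 2)) * m ^ (-c) := by gcongr
            _ = X * (κ / 2) := by rw [hX]; ring
        have h4 : X * e1 ≤ X * (1 + ε) := by gcongr
        have h5 : e2 * e3 ≤ 1 + 3 * ε := by
          have : e2 * e3 ≤ (1 + ε) * (1 + ε) := by gcongr
          nlinarith
        have h6 : X * e2 * e3 ≤ X * (1 + 3 * ε) := by
          rw [mul_assoc]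
          gcongr
        have h7 : δ ^ (-c) * e3 ≤ 1 + 3 * ε := by
          have : δ ^ (-c) * e3 ≤ (1 + ε) * (1 + ε) := by gcongr
          nlinarith
        have h8 : K * (m ^ (-c) * δ ^ (-c)) * e3 ≤ X * (1 + 3 * ε) := by
          calc K * (m ^ (-c) * δ ^ (-c)) * e3 = X * (δ ^ (-c) * e3) := by rw [hX]; ring
            _ ≤ _ := by gcongr
        have h9 : 0 ≤ L / m := by positivity
        calc q * (X * e1 + S) + p * (X * e2 * e3 + S + π * (K * (m ^ (-c) * δ ^ (-c)) * e3 + S +
              L / m - η * π * (X + S) * D - (X + S)))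
            ≤ q * (X * (1 + ε) + S) + p * (X * (1 + 3 * ε) + S + π * (X * (1 + 3 * ε) + S +
              L / m - η * π * (X + S) * D - (X + S))) := by gcongr
          _ = X * (1 + ε * (q + 3 * p + 3 * p * π)) + S - κ * (X + S) + p * π * (L / m) := by
              rw [hκ]
              linear_combination (X + S + X * ε) * hpq - X * ε * hpq
          _ ≤ X * (1 + κ / 2) + S - κ * (X + S) + X * (κ / 2) := by
              have h10 : ε * (q + 3 * p + 3 * p * π) ≤ κ / 2 := by
                have : q + 3 * p + 3 * p * π ≤ 7 := by nlinarith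
                calc ε * (q + 3 * p + 3 * p * π) ≤ ε * 7 := by gcongr
                  _ ≤ κ / 2 := by linarith
              have h11 : p * π * (L / m) ≤ 1 * (L / m) := by
                gcongr
                exact mul_le_one₀ (by linarith) hπ.le hπ1
              have h12 : X * (1 + ε * (q + 3 * p + 3 * p * π)) ≤ X * (1 + κ / 2) := by gcongr
              linarith
          _ = X + (1 - κ) * S := by ring
      · have h1 : ‖∫ x, α x * ee (m * x) ∂μ‖ ≤ 1 := by
          apply norm_integral_le_of_bdd h.supp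
          intro x hx
          exact norm_kk_le hα m (Ioo_subset_Icc_self hx)
        have h2 : 1 ≤ K * m ^ (-c) := by
          have h3 : m ≤ 1 / δ := by
            rw [le_div_iff₀ hδ]
            exact hmδ.le
          have h4 : (1 / δ) ^ (-c) ≤ m ^ (-c) :=
            Real.rpow_le_rpow_of_nonpos hm h3 (by linarith)
          have h5 : δ ≤ (1 / δ) ^ (-c) := by
            rw [one_div, Real.inv_rpow hδ.le, Real.rpow_neg hδ.le, inv_inv]
            calc δ = δ ^ (1 : ℝ) := (Real.rpow_one δ).symm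
              _ ≤ δ ^ c := Real.rpow_le_rpow_of_exponent_ge hδ hδ1.le hc1
          calc (1 : ℝ) = 1 / δ * δ := by field_simp
            _ ≤ K * m ^ (-c) := by
              gcongr
              exact h5.trans h4
        have h3 : 0 ≤ (1 - κ) ^ (n + 1) := pow_nonneg (by linarith) _
        simp only
        linarith
  refine ⟨c, K, hcpos, fun m hm => ?_⟩
  have hamp : Amp L (fun _ => 1) := by
    refine ⟨stronglyMeasurable_const, by simp, ?_⟩
    intro x _ y _
    simp only [sub_self, norm_zero]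
    positivity
  have h1 : ∀ n : ℕ, ‖∫ x, Complex.exp (Complex.I * m * x) ∂μ‖ ≤ K * m ^ (-c) + (1 - κ) ^ n := by
    intro n
    have := hclaim n m hm _ hamp
    simp only [one_mul] at this
    simp_rw [ee_eq]
    exact this
  have h2 : Filter.Tendsto (fun n : ℕ => K * m ^ (-c) + (1 - κ) ^ n) Filter.atTop
      (nhds (K * m ^ (-c) + 0)) :=
    (tendsto_pow_atTop_nhds_zero_of_lt_one (by linarith) (by linarith)).const_add _
  rw [add_zero] at h2
  exact ge_of_tendsto' h2 h1

end MP319742
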