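import Pool.Agent.Lib.MP_319742_pr.LinearIter

open MeasureTheory Set
open scoped ENNReal ContDiff

namespace MP319742

/-- One improvement step. -/
theorem ClD_improve {p q : ℝ} {μ : Measure ℝ} (h : Sol p q μ) {L K S c : ℝ} {α : ℝ → ℂ}
    (hK : 0 ≤ K) (hS : 0 ≤ S) (hc : 0 < c)
    (hcl : ClD μ L (fun m => K * m ^ (-c) + S)) (hα : Amp L α)
    {δ c0 η : ℝ} (hδ : 0 < δ) (hη : 0 < η) (hη' : η ≤ δ / 2)
    (hL : L = 2 / δ) (hg : ∀ s, c0 * δ ≤ s → s ≤ 1 → ‖gf μ s‖ ≤ 1 - η)
    (hint : Integrable (fun z : ℝ × ℝ => z.2 ^ (-c)) (sig p q μ))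
    (hint1 : Integrable (fun x => (1 - x) ^ (-c)) (mulC μ μ))
    (hint2 : Integrable (fun x => x ^ (-c)) μ)
    {cG θ D : ℝ} {G : ℝ → ℝ} (hcG : 0 < cG) (hθ : 0 < θ) (hGm : Measurable G)
    (hG01 : ∀ s, 0 ≤ G s ∧ G s ≤ 1) (hG0 : ∀ s, s < c0 → G s = 0)
    (hGD : ∀ s, 1 ≤ s → D ≤ G s)
    (hG : ∀ s, 1 < s → G s + θ * s ^ (-cG) ≤ ∫ z, G (s * z.2) ∂(sig p q μ))
    {m : ℝ} (hm : 0 < m) (hmδ : 1 ≤ m * δ) :
    ‖∫ x, α x * ee (m * x) ∂μ‖ ≤
      q * (K * m ^ (-c) * (∫ x, (1 - x) ^ (-c) ∂(mulC μ μ)) + S) +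
      p * (K * m ^ (-c) * (∫ x, x ^ (-c) ∂μ) * (∫ z, z.2 ^ (-c) ∂(sig p q μ)) + S +
        (sig p q μ).real {z : ℝ × ℝ | δ ≤ z.1 ∧ δ ≤ z.2} *
        (K * (m * δ) ^ (-c) * (∫ z, z.2 ^ (-c) ∂(sig p q μ)) + S + L / m -
          η * (sig p q μ).real {z : ℝ × ℝ | δ ≤ z.1 ∧ δ ≤ z.2} * (K * m ^ (-c) + S) * D -
          (K * m ^ (-c) + S))) := by
  have := h.prob
  have := h.sig_prob
  have hL0 : 0 ≤ L := by rw [hL]; positivity
  set E : Set (ℝ × ℝ) := {z : ℝ × ℝ | δ ≤ z.1 ∧ δ ≤ z.2} with hE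
  have hEm : MeasurableSet E := by
    rw [hE]
    exact (measurableSet_le measurable_const measurable_fst).inter
      (measurableSet_le measurable_const measurable_snd)
  set e1 : ℝ := ∫ x, (1 - x) ^ (-c) ∂(mulC μ μ) with he1
  set e2 : ℝ := ∫ x, x ^ (-c) ∂μ with he2
  set e3 : ℝ := ∫ z, z.2 ^ (-c) ∂(sig p q μ) with he3
  set U : ℝ := K * (m * δ) ^ (-c) * e3 + S + L / m with hU
  set g0 : ℝ := η * (sig p q μ).real E * (K * m ^ (-c) + S) with hg0
  have hg00 : 0 ≤ g0 := by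
    have := Real.rpow_nonneg hm.le (-c)
    have h2 : 0 ≤ (sig p q μ).real E := measureReal_nonneg
    positivity
  have hKm : 0 ≤ K * m ^ (-c) := mul_nonneg hK (Real.rpow_nonneg hm.le _)
  have he21 : 1 ≤ e2 := by
    have h1 : (1 : ℝ) = ∫ _x, (1 : ℝ) ∂μ := by simp
    rw [h1]
    apply integral_mono_ae (integrable_const _) hint2
    filter_upwards [h.ae_mem] with z hz
    exact Real.one_le_rpow_of_pos_of_le_one_of_nonpos hz.1 hz.2.le (by linarith)
  -- the ternary part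
  have hA : ‖∫ v, ∫ x, kk α m (v + (1 - v) * x) ∂μ ∂(mulC μ μ)‖ ≤ K * m ^ (-c) * e1 + S := by
    have hi : Integrable (fun v => K * m ^ (-c) * (1 - v) ^ (-c) + S) (mulC μ μ) :=
      (hint1.const_mul _).add (integrable_const _)
    have h1 : ‖∫ v, ∫ x, kk α m (v + (1 - v) * x) ∂μ ∂(mulC μ μ)‖ ≤
        ∫ v, (K * m ^ (-c) * (1 - v) ^ (-c) + S) ∂(mulC μ μ) := by
      apply norm_integral_le_of_norm_le hi
      filter_upwards [h.ae_tau_mem] with v hv
      have h2 := hcl.affine hL0 hα hv.1.le (sub_pos.2 hv.2) (by linarith) hm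
      refine h2.trans (le_of_eq ?_)
      rw [Real.mul_rpow hm.le (sub_pos.2 hv.2).le]
      ring
    refine h1.trans (le_of_eq ?_)
    rw [integral_add (hint1.const_mul _) (integrable_const _), integral_const_mul]
    simp [he1]
  -- the binary part
  have hB : ‖∫ y, ∫ x, kk α m (x * y) ∂μ ∂μ‖ ≤ K * m ^ (-c) * e2 * e3 + S +
      (sig p q μ).real E * (U - g0 * D - (K * m ^ (-c) + S)) := by
    have h0 : ∫ y, ∫ x, kk α m (x * y) ∂μ ∂μ = JJ μ α m 0 1 := by
      rw [JJ]
      simp only [zero_add, one_mul]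
    rw [h0, JJ_expand h hα le_rfl zero_le_one (by norm_num)]
    simp only [zero_add, one_mul]
    set bd : ℝ × ℝ → ℝ := fun z => (K * m ^ (-c) * e2 * z.2 ^ (-c) + S) +
      E.indicator (fun _ => U - g0 * D - (K * m ^ (-c) + S)) z with hbd
    have hi1 : Integrable (fun z : ℝ × ℝ => K * m ^ (-c) * e2 * z.2 ^ (-c) + S)
        (sig p q μ) := (hint.const_mul _).add (integrable_const _)
    have hi2 : Integrable (E.indicator (fun _ : ℝ × ℝ => U - g0 * D - (K * m ^ (-c) + S)))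
        (sig p q μ) := (integrable_const _).indicator hEm
    have hbdint : ∫ z, bd z ∂(sig p q μ) = K * m ^ (-c) * e2 * e3 + S +
        (sig p q μ).real E * (U - g0 * D - (K * m ^ (-c) + S)) := by
      rw [hbd, integral_add hi1 hi2, integral_add (hint.const_mul _) (integrable_const _),
        integral_const_mul, integral_indicator_const _ hEm]
      simp only [integral_const, probReal_univ, smul_eq_mul, one_mul, he3]
    rw [← hbdint]
    apply norm_integral_le_of_norm_le (hi1.add hi2)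
    filter_upwards [h.sig_ae] with z hz
    obtain ⟨hz1, -, hz2, hz2', hz3⟩ := hz
    change _ ≤ bd z
    by_cases hzE : z ∈ E
    · have h1 := JJ_gain h hK hS hc hcl hα hδ hη hη' hL hg hint hcG hθ hGm hG01 hG0 hG hm
        hzE.1 hz2 hz3
      have h2 : D ≤ G (m * z.2) := by
        apply hGD
        refine hmδ.trans ?_
        have := hzE.2
        gcongr
      have h3 : 1 ≤ z.2 ^ (-c) :=
        Real.one_le_rpow_of_pos_of_le_one_of_nonpos hz2 hz2'.le (by linarith)
      have h4 : bd z = (K * m ^ (-c) * e2 * z.2 ^ (-c) + S) +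
          (U - g0 * D - (K * m ^ (-c) + S)) := by
        simp only [hbd]
        rw [indicator_of_mem hzE]
      rw [h4]
      have h5 : g0 * D ≤ g0 * G (m * z.2) := by gcongr
      have h6 : K * m ^ (-c) * 1 ≤ K * m ^ (-c) * (e2 * z.2 ^ (-c)) := by
        gcongr
        nlinarith
      have h7 : ‖JJ μ α m z.1 z.2‖ ≤ U - g0 * G (m * z.2) := h1
      nlinarith
    · have h4 : bd z = K * m ^ (-c) * e2 * z.2 ^ (-c) + S := by
        simp only [hbd]
        rw [indicator_of_notMem hzE, add_zero]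
      rw [h4, JJ]
      have hi3 : Integrable (fun y => K * (m * z.2) ^ (-c) * y ^ (-c) + S) μ :=
        (hint2.const_mul _).add (integrable_const _)
      have h1 : ‖∫ y, ∫ x, kk α m (x * (z.1 + z.2 * y)) ∂μ ∂μ‖ ≤
          ∫ y, (K * (m * z.2) ^ (-c) * y ^ (-c) + S) ∂μ := by
        apply norm_integral_le_of_norm_le hi3
        filter_upwards [h.ae_mem] with y hy
        have hs := mem_Icc_of_affine hz1 hz2.le hz3 hy
        have hspos : 0 < z.1 + z.2 * y := by nlinarith [mul_pos hz2 hy.1]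
        have h2 := hcl.affine hL0 hα (a := 0) (b := z.1 + z.2 * y) le_rfl hspos
          (by linarith [hs.2]) hm
        have h3 : ∀ x, kk α m (x * (z.1 + z.2 * y)) =
            α (0 + (z.1 + z.2 * y) * x) * ee (m * (0 + (z.1 + z.2 * y) * x)) := by
          intro x
          rw [kk]
          ring_nf
        simp_rw [h3]
        refine h2.trans ?_
        have h5 : (m * (z.1 + z.2 * y)) ^ (-c) ≤ (m * z.2 * y) ^ (-c) := by
          apply Real.rpow_le_rpow_of_nonpos (by have := hy.1; positivity) _ (by linarith)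
          nlinarith [mul_nonneg hm.le hz1]
        rw [Real.mul_rpow (by positivity) hy.1.le] at h5
        nlinarith [mul_le_mul_of_nonneg_left h5 hK]
      refine h1.trans (le_of_eq ?_)
      rw [integral_add (hint2.const_mul _) (integrable_const _), integral_const_mul]
      simp only [integral_const, probReal_univ, smul_eq_mul, one_mul]
      rw [Real.mul_rpow hm.le hz2.le]
      ring
  have hkk : (fun x => α x * ee (m * x)) = kk α m := by
    ext x
    rw [kk]
  rw [hkk, h.integral_rde (kk_meas hα m) (C := 1)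
    (fun x hx => norm_kk_le hα m (Ioo_subset_Icc_self hx))]
  calc ‖p • ∫ y, ∫ x, kk α m (x * y) ∂μ ∂μ +
      q • ∫ v, ∫ x, kk α m (v + (1 - v) * x) ∂μ ∂(mulC μ μ)‖
      ≤ p * ‖∫ y, ∫ x, kk α m (x * y) ∂μ ∂μ‖ +
        q * ‖∫ v, ∫ x, kk α m (v + (1 - v) * x) ∂μ ∂(mulC μ μ)‖ := by
        refine (norm_add_le _ _).trans ?_
        rw [norm_smul, norm_smul, Real.norm_eq_abs, Real.norm_eq_abs, abs_of_pos h.p_pos,
          abs_of_pos h.q_pos]
    _ ≤ p * (K * m ^ (-c) * e2 * e3 + S +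
        (sig p q μ).real E * (U - g0 * D - (K * m ^ (-c) + S))) +
        q * (K * m ^ (-c) * e1 + S) := by
        have := h.p_pos
        have := h.q_pos
        gcongr
    _ = _ := by ring

end MP319742
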