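import Pool.Agent.Lib.MP_319742_pr.LinearKernel

open MeasureTheory Set
open scoped ENNReal ContDiff

namespace MP319742

theorem phi_anti {K S c : ℝ} (hK : 0 ≤ K) (hc : 0 ≤ c) :
    ∀ s t : ℝ, 0 < s → s ≤ t → K * t ^ (-c) + S ≤ K * s ^ (-c) + S := by
  intro s t hs hst
  have := Real.rpow_le_rpow_of_nonpos hs hst (neg_nonpos.2 hc)
  nlinarith [mul_le_mul_of_nonneg_left this hK]

/-- Window estimate, integrated over the first step of the first variable. -/
theorem JJ_window {p q : ℝ} {μ : Measure ℝ} (h : Sol p q μ) {L K S c : ℝ} {α : ℝ → ℂ}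
    (hK : 0 ≤ K) (hS : 0 ≤ S) (hc : 0 < c)
    (hcl : ClD μ L (fun m => K * m ^ (-c) + S)) (hα : Amp L α)
    {δ c0 η : ℝ} (hδ : 0 < δ) (hη : 0 < η) (hη' : η ≤ δ / 2)
    (hL : L = 2 / δ) (hg : ∀ s, c0 * δ ≤ s → s ≤ 1 → ‖gf μ s‖ ≤ 1 - η)
    (hint : Integrable (fun z : ℝ × ℝ => z.2 ^ (-c)) (sig p q μ))
    {m A B : ℝ} (hm : 0 < m) (hA : δ ≤ A) (hB : 0 < B) (hAB : A + B ≤ 1)
    (hw : c0 ≤ m * B) (hw' : m * B ≤ 1) :
    ‖JJ μ α m A B‖ ≤ K * (m * δ) ^ (-c) * (∫ z, z.2 ^ (-c) ∂(sig p q μ)) + S + L / m -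
      η * (sig p q μ).real {z : ℝ × ℝ | δ ≤ z.1 ∧ δ ≤ z.2} * (K * m ^ (-c) + S) := by
  have := h.prob
  have := h.sig_prob
  have hL0 : 0 ≤ L := by rw [hL]; positivity
  have hδ1 : δ ≤ 1 := by linarith
  set E : Set (ℝ × ℝ) := {z : ℝ × ℝ | δ ≤ z.1 ∧ δ ≤ z.2} with hE
  have hEm : MeasurableSet E := by
    rw [hE]
    exact (measurableSet_le measurable_const measurable_fst).inter
      (measurableSet_le measurable_const measurable_snd)
  set bd : ℝ × ℝ → ℝ := fun z => (K * (m * δ) ^ (-c) * z.2 ^ (-c) + (S + L / m)) -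
    E.indicator (fun _ => η * (K * m ^ (-c) + S)) z with hbd
  have hi1 : Integrable (fun z : ℝ × ℝ => K * (m * δ) ^ (-c) * z.2 ^ (-c) + (S + L / m))
      (sig p q μ) := (hint.const_mul _).add (integrable_const _)
  have hi2 : Integrable (E.indicator (fun _ : ℝ × ℝ => η * (K * m ^ (-c) + S))) (sig p q μ) :=
    (integrable_const _).indicator hEm
  have hbdint : ∫ z, bd z ∂(sig p q μ) =
      K * (m * δ) ^ (-c) * (∫ z, z.2 ^ (-c) ∂(sig p q μ)) + S + L / m -
      η * (sig p q μ).real E * (K * m ^ (-c) + S) := by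
    rw [hbd, integral_sub hi1 hi2, integral_add (hint.const_mul _) (integrable_const _),
      integral_const_mul, integral_indicator_const _ hEm]
    simp only [integral_const, probReal_univ, smul_eq_mul, one_mul]
    ring
  rw [← hbdint, JJ_expand' h hα (hδ.le.trans hA) hB.le hAB]
  apply norm_integral_le_of_norm_le (hi1.sub hi2)
  filter_upwards [h.sig_ae] with z hz
  obtain ⟨hz1, -, hz2, -, hz3⟩ := hz
  have hpow : (m * δ * z.2) ^ (-c) = (m * δ) ^ (-c) * z.2 ^ (-c) :=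
    Real.mul_rpow (by positivity) hz2.le
  have hLm : 0 ≤ L / m := by positivity
  by_cases hzE : z ∈ E
  · have h1 := norm_inner_good h.supp hcl hα (phi_anti hK hc.le) hδ hη hη' hL hg hm hA hB hAB
      hzE.1 hzE.2 hz3 hw hw'
    have h2 : bd z = (K * (m * δ) ^ (-c) * z.2 ^ (-c) + (S + L / m)) -
        η * (K * m ^ (-c) + S) := by
      simp only [hbd]
      rw [indicator_of_mem hzE]
    change _ ≤ bd z
    rw [h2]
    refine h1.trans ?_
    have h3 : K * m ^ (-c) + S ≤ K * (m * δ * z.2) ^ (-c) + S := by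
      apply phi_anti hK hc.le _ _ (by positivity)
      have hz2' : z.2 ≤ 1 := by linarith
      calc m * δ * z.2 ≤ m * 1 * 1 := by gcongr
        _ = m := by ring
    nlinarith [mul_le_mul_of_nonneg_left h3 hη.le]
  · have h1 := norm_inner_le h.supp hcl hL0 hα (phi_anti hK hc.le) hm hδ hA hB.le hAB hz1 hz2 hz3
    have h2 : bd z = K * (m * δ) ^ (-c) * z.2 ^ (-c) + (S + L / m) := by
      simp only [hbd]
      rw [indicator_of_notMem hzE, sub_zero]
    change _ ≤ bd z
    rw [h2]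
    refine h1.trans ?_
    rw [hpow]
    linarith

theorem one_le_e3 {p q : ℝ} {μ : Measure ℝ} (h : Sol p q μ) {c : ℝ} (hc : 0 < c)
    (hint : Integrable (fun z : ℝ × ℝ => z.2 ^ (-c)) (sig p q μ)) :
    1 ≤ ∫ z, z.2 ^ (-c) ∂(sig p q μ) := by
  have := h.sig_prob
  have h1 : (1 : ℝ) = ∫ _z, (1 : ℝ) ∂(sig p q μ) := by simp
  rw [h1]
  apply integral_mono_ae (integrable_const _) hint
  filter_upwards [h.sig_ae] with z hz
  exact Real.one_le_rpow_of_pos_of_le_one_of_nonpos hz.2.2.1 hz.2.2.2.1.le (by linarith)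

/-- Iteration: the gain is felt from every scale. -/
theorem JJ_gain {p q : ℝ} {μ : Measure ℝ} (h : Sol p q μ) {L K S c : ℝ} {α : ℝ → ℂ}
    (hK : 0 ≤ K) (hS : 0 ≤ S) (hc : 0 < c)
    (hcl : ClD μ L (fun m => K * m ^ (-c) + S)) (hα : Amp L α)
    {δ c0 η : ℝ} (hδ : 0 < δ) (hη : 0 < η) (hη' : η ≤ δ / 2)
    (hL : L = 2 / δ) (hg : ∀ s, c0 * δ ≤ s → s ≤ 1 → ‖gf μ s‖ ≤ 1 - η)
    (hint : Integrable (fun z : ℝ × ℝ => z.2 ^ (-c)) (sig p q μ))
    {cG θ : ℝ} {G : ℝ → ℝ} (hcG : 0 < cG) (hθ : 0 < θ) (hGm : Measurable G)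
    (hG01 : ∀ s, 0 ≤ G s ∧ G s ≤ 1) (hG0 : ∀ s, s < c0 → G s = 0)
    (hG : ∀ s, 1 < s → G s + θ * s ^ (-cG) ≤ ∫ z, G (s * z.2) ∂(sig p q μ))
    {m : ℝ} (hm : 0 < m) {A B : ℝ} (hA : δ ≤ A) (hB : 0 < B) (hAB : A + B ≤ 1) :
    ‖JJ μ α m A B‖ ≤ K * (m * δ) ^ (-c) * (∫ z, z.2 ^ (-c) ∂(sig p q μ)) + S + L / m -
      η * (sig p q μ).real {z : ℝ × ℝ | δ ≤ z.1 ∧ δ ≤ z.2} * (K * m ^ (-c) + S) * G (m * B) := by
  have := h.prob
  have := h.sig_prob
  have hL0 : 0 ≤ L := by rw [hL]; positivity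
  set E : Set (ℝ × ℝ) := {z : ℝ × ℝ | δ ≤ z.1 ∧ δ ≤ z.2} with hE
  set e3 : ℝ := ∫ z, z.2 ^ (-c) ∂(sig p q μ) with he3
  have he31 : 1 ≤ e3 := one_le_e3 h hc hint
  set U : ℝ := K * (m * δ) ^ (-c) * e3 + S + L / m with hU
  set g0 : ℝ := η * (sig p q μ).real E * (K * m ^ (-c) + S) with hg0
  have hg00 : 0 ≤ g0 := by
    have := Real.rpow_nonneg hm.le (-c)
    have h2 : 0 ≤ (sig p q μ).real E := measureReal_nonneg
    positivity
  have hgen : ∀ A B : ℝ, δ ≤ A → 0 < B → A + B ≤ 1 → ‖JJ μ α m A B‖ ≤ U := by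
    intro A B hA hB hAB
    have h1 := norm_JJ_le h.supp hcl hL0 hα (phi_anti hK hc.le) hm hδ hA hB.le hAB
    refine h1.trans ?_
    have h2 : 0 ≤ L / m := by positivity
    have h3 : 0 ≤ K * (m * δ) ^ (-c) := by positivity
    nlinarith
  set γ : ℝ := θ * m ^ (-cG) with hγ
  have hγ0 : 0 < γ := by positivity
  have hclaim : ∀ k : ℕ, ∀ A B : ℝ, δ ≤ A → 0 < B → A + B ≤ 1 →
      ‖JJ μ α m A B‖ ≤ U - g0 * (G (m * B) - max 0 (1 - k * γ)) := by
    intro k
    induction k with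
    | zero =>
      intro A B hA hB hAB
      have h1 := hgen A B hA hB hAB
      have h2 := (hG01 (m * B)).2
      simp only [Nat.cast_zero, zero_mul, sub_zero]
      rw [max_eq_right zero_le_one]
      nlinarith
    | succ k ih =>
      intro A B hA hB hAB
      have hmax0 : 0 ≤ max 0 (1 - ((k + 1 : ℕ) : ℝ) * γ) := le_max_left _ _
      rcases le_or_gt (m * B) 1 with hmB | hmB
      · rcases lt_or_ge (m * B) c0 with hmB' | hmB'
        · rw [hG0 _ hmB']
          have h1 := hgen A B hA hB hAB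
          nlinarith
        · have h1 := JJ_window h hK hS hc hcl hα hδ hη hη' hL hg hint hm hA hB hAB hmB' hmB
          have h2 := (hG01 (m * B)).2
          have h3 : ‖JJ μ α m A B‖ ≤ U - g0 := h1
          nlinarith
      · rw [JJ_expand h hα (hδ.le.trans hA) hB.le hAB]
        have hGint : Integrable (fun z : ℝ × ℝ => G (m * B * z.2)) (sig p q μ) := by
          refine Integrable.of_bound (by
            apply Measurable.aestronglyMeasurable
            exact hGm.comp (by fun_prop)) 1 ?_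
          refine Filter.Eventually.of_forall fun z => ?_
          rw [Real.norm_eq_abs, abs_of_nonneg (hG01 _).1]
          exact (hG01 _).2
        have hi : Integrable (fun z : ℝ × ℝ => U + g0 * max 0 (1 - k * γ) -
            g0 * G (m * B * z.2)) (sig p q μ) :=
          (integrable_const _).sub (hGint.const_mul _)
        have h1 : ‖∫ z, JJ μ α m (A + B * z.1) (B * z.2) ∂(sig p q μ)‖ ≤
            ∫ z, (U + g0 * max 0 (1 - k * γ) - g0 * G (m * B * z.2)) ∂(sig p q μ) := by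
          apply norm_integral_le_of_norm_le hi
          filter_upwards [h.sig_ae] with z hz
          obtain ⟨hz1, -, hz2, -, hz3⟩ := hz
          have h2 := ih (A + B * z.1) (B * z.2) (by nlinarith [mul_nonneg hB.le hz1])
            (mul_pos hB hz2) (by nlinarith)
          rw [mul_assoc m B z.2]
          linarith
        have h2 : ∫ z, (U + g0 * max 0 (1 - k * γ) - g0 * G (m * B * z.2)) ∂(sig p q μ) =
            U + g0 * max 0 (1 - k * γ) - g0 * ∫ z, G (m * B * z.2) ∂(sig p q μ) := by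
          rw [integral_sub (integrable_const _) (hGint.const_mul _), integral_const_mul]
          simp
        have h3 := hG (m * B) hmB
        have h4 : γ ≤ θ * (m * B) ^ (-cG) := by
          rw [hγ]
          apply mul_le_mul_of_nonneg_left _ hθ.le
          apply Real.rpow_le_rpow_of_nonpos (by positivity) _ (by linarith)
          have hB1 : B ≤ 1 := by linarith
          nlinarith
        have h5 : max 0 (1 - (k : ℝ) * γ) - γ ≤ max 0 (1 - ((k + 1 : ℕ) : ℝ) * γ) := by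
          rcases le_total 0 (1 - (k : ℝ) * γ) with h6 | h6
          · rw [max_eq_right h6]
            refine le_trans (le_of_eq ?_) (le_max_right _ _)
            push_cast
            ring
          · rw [max_eq_left h6]
            exact (by linarith : (0 : ℝ) - γ ≤ 0).trans (le_max_left _ _)
        have h7 : g0 * (max 0 (1 - (k : ℝ) * γ) - ∫ z, G (m * B * z.2) ∂(sig p q μ)) ≤
            g0 * (max 0 (1 - ((k + 1 : ℕ) : ℝ) * γ) - G (m * B)) := by
          apply mul_le_mul_of_nonneg_left _ hg00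
          linarith
        linarith
  obtain ⟨k, hk⟩ := exists_nat_ge (1 / γ)
  have h1 := hclaim k A B hA hB hAB
  have h2 : 1 - (k : ℝ) * γ ≤ 0 := by
    rw [div_le_iff₀ hγ0] at hk
    linarith
  rw [max_eq_left h2, sub_zero] at h1
  exact h1

end MP319742
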