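import Pool.Agent.Lib.MP_319742_pr.LinearPrep

open MeasureTheory Set
open scoped ENNReal ContDiff

namespace MP319742

/-- Amplitudes. -/
structure Amp (L : ℝ) (α : ℝ → ℂ) : Prop where
  meas : StronglyMeasurable α
  bdd : ∀ x ∈ Icc (0 : ℝ) 1, ‖α x‖ ≤ 1
  lip : ∀ x ∈ Icc (0 : ℝ) 1, ∀ y ∈ Icc (0 : ℝ) 1, ‖α x - α y‖ ≤ L * |x - y|

theorem Amp.comp_affine {L : ℝ} {α : ℝ → ℂ} (hα : Amp L α) (hL : 0 ≤ L) {a b : ℝ} (ha : 0 ≤ a)
    (hb : 0 ≤ b) (hab : a + b ≤ 1) : Amp L (fun x => α (a + b * x)) := by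
  have hmem : ∀ x ∈ Icc (0 : ℝ) 1, a + b * x ∈ Icc (0 : ℝ) 1 := by
    intro x hx
    exact ⟨by nlinarith [mul_nonneg hb hx.1], by nlinarith [mul_le_of_le_one_right hb hx.2]⟩
  refine ⟨hα.meas.comp_measurable (by fun_prop), fun x hx => hα.bdd _ (hmem x hx), ?_⟩
  intro x hx y hy
  refine (hα.lip _ (hmem x hx) _ (hmem y hy)).trans ?_
  have : a + b * x - (a + b * y) = b * (x - y) := by ring
  rw [this, abs_mul, abs_of_nonneg hb]
  have hb1 : b ≤ 1 := by linarith
  have := mul_le_of_le_one_left (abs_nonneg (x - y)) hb1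
  gcongr

/-- All integrals against the amplitudes are bounded by `Φ`. -/
def ClD (μ : Measure ℝ) (L : ℝ) (Φ : ℝ → ℝ) : Prop :=
  ∀ m : ℝ, 0 < m → ∀ α : ℝ → ℂ, Amp L α → ‖∫ x, α x * ee (m * x) ∂μ‖ ≤ Φ m

section

variable {μ : Measure ℝ} {L : ℝ} {Φ : ℝ → ℝ} {α : ℝ → ℂ}

theorem ClD.affine (hcl : ClD μ L Φ) (hL : 0 ≤ L) (hα : Amp L α) {a b m : ℝ} (ha : 0 ≤ a)
    (hb : 0 < b) (hab : a + b ≤ 1) (hm : 0 < m) :
    ‖∫ x, α (a + b * x) * ee (m * (a + b * x)) ∂μ‖ ≤ Φ (m * b) := by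
  have h1 : ∀ x, α (a + b * x) * ee (m * (a + b * x)) =
      ee (m * a) * (α (a + b * x) * ee ((m * b) * x)) := by
    intro x
    rw [show m * (a + b * x) = m * a + (m * b) * x by ring, ee_add]
    ring
  simp_rw [h1]
  rw [integral_const_mul, norm_mul, norm_ee, one_mul]
  exact hcl (m * b) (mul_pos hm hb) _ (hα.comp_affine hL ha hb.le hab)

/-- The integrand. -/
noncomputable def kk (α : ℝ → ℂ) (m s : ℝ) : ℂ := α s * ee (m * s)

theorem kk_meas (hα : Amp L α) (m : ℝ) : StronglyMeasurable (kk α m) := by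
  unfold kk
  exact hα.meas.mul (continuous_ee.comp (by fun_prop)).stronglyMeasurable

theorem norm_kk_le (hα : Amp L α) (m : ℝ) {s : ℝ} (hs : s ∈ Icc (0 : ℝ) 1) : ‖kk α m s‖ ≤ 1 := by
  rw [kk, norm_mul, norm_ee, mul_one]
  exact hα.bdd s hs

theorem mem_Icc_of_affine {A B y : ℝ} (hA : 0 ≤ A) (hB : 0 ≤ B) (hAB : A + B ≤ 1)
    (hy : y ∈ Ioo (0 : ℝ) 1) : A + B * y ∈ Icc (0 : ℝ) 1 :=
  ⟨by nlinarith [mul_nonneg hB hy.1.le], by nlinarith [mul_le_of_le_one_right hB hy.2.le]⟩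

theorem mul_mem_Icc {x y : ℝ} (hx : x ∈ Icc (0 : ℝ) 1) (hy : y ∈ Icc (0 : ℝ) 1) :
    x * y ∈ Icc (0 : ℝ) 1 :=
  ⟨mul_nonneg hx.1 hy.1, mul_le_one₀ hx.2 hy.1 hy.2⟩

/-- The double integral. -/
noncomputable def JJ (μ : Measure ℝ) (α : ℝ → ℂ) (m A B : ℝ) : ℂ :=
  ∫ y, ∫ x, kk α m (x * (A + B * y)) ∂μ ∂μ

/-- Generic bound. -/
theorem norm_JJ_le [IsProbabilityMeasure μ] (hμ : μ (Ioo 0 1)ᶜ = 0) (hcl : ClD μ L Φ)
    (hL : 0 ≤ L) (hα : Amp L α) (hΦ : ∀ s t, 0 < s → s ≤ t → Φ t ≤ Φ s) {m δ A B : ℝ}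
    (hm : 0 < m) (hδ : 0 < δ) (hA : δ ≤ A) (hB : 0 ≤ B) (hAB : A + B ≤ 1) :
    ‖JJ μ α m A B‖ ≤ Φ (m * δ) := by
  rw [JJ]
  apply norm_integral_le_of_bdd hμ
  intro y hy
  have hs := mem_Icc_of_affine (hδ.le.trans hA) hB hAB hy
  have hs0 : δ ≤ A + B * y := by nlinarith [mul_nonneg hB hy.1.le]
  have h1 := hcl.affine hL hα (a := 0) (b := A + B * y) le_rfl (hδ.trans_le hs0)
    (by linarith [hs.2]) hm
  have h2 : ∀ x, kk α m (x * (A + B * y)) =
      α (0 + (A + B * y) * x) * ee (m * (0 + (A + B * y) * x)) := by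
    intro x
    rw [kk]
    ring_nf
  simp_rw [h2]
  refine h1.trans (hΦ _ _ (mul_pos hm hδ) ?_)
  gcongr

theorem meas_inner [SFinite μ] (hα : Amp L α) (m A B : ℝ) :
    StronglyMeasurable (fun y => ∫ x, kk α m (x * (A + B * y)) ∂μ) := by
  apply StronglyMeasurable.integral_prod_right (f := fun y x => kk α m (x * (A + B * y)))
  exact (kk_meas hα m).comp_measurable (by fun_prop)

/-- Expansion of the second variable. -/
theorem JJ_expand {p q : ℝ} (h : Sol p q μ) (hα : Amp L α) {m A B : ℝ} (hA : 0 ≤ A) (hB : 0 ≤ B)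
    (hAB : A + B ≤ 1) :
    JJ μ α m A B = ∫ z, JJ μ α m (A + B * z.1) (B * z.2) ∂(sig p q μ) := by
  have := h.prob
  rw [JJ, h.integral_sig (meas_inner hα m A B) (C := 1)]
  · congr 1
    ext z
    rw [JJ]
    congr 1
    ext y
    congr 1
    ext x
    congr 1
    ring
  · intro y hy
    apply norm_integral_le_of_bdd h.supp
    intro x hx
    exact norm_kk_le hα m (mul_mem_Icc (Ioo_subset_Icc_self hx) (mem_Icc_of_affine hA hB hAB hy))

theorem JJ_swap [IsProbabilityMeasure μ] (hμ : μ (Ioo 0 1)ᶜ = 0) (hα : Amp L α) {m A B a b : ℝ}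
    (hA : 0 ≤ A) (hB : 0 ≤ B) (hAB : A + B ≤ 1) (ha : 0 ≤ a) (hb : 0 ≤ b) (hab : a + b ≤ 1) :
    ∫ y, ∫ x, kk α m ((a + b * x) * (A + B * y)) ∂μ ∂μ =
      ∫ x, ∫ y, kk α m ((a + b * x) * (A + B * y)) ∂μ ∂μ := by
  rw [integral_integral_swap]
  refine Integrable.of_bound ?_ 1 ?_
  · apply StronglyMeasurable.aestronglyMeasurable
    exact (kk_meas hα m).comp_measurable (by fun_prop)
  · have h1 : ∀ᵐ z ∂(μ.prod μ), z.1 ∈ Ioo (0 : ℝ) 1 :=
      Measure.quasiMeasurePreserving_fst.ae (ae_mem_of_supp hμ)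
    have h2 : ∀ᵐ z ∂(μ.prod μ), z.2 ∈ Ioo (0 : ℝ) 1 :=
      Measure.quasiMeasurePreserving_snd.ae (ae_mem_of_supp hμ)
    filter_upwards [h1, h2] with z hz1 hz2
    exact norm_kk_le hα m (mul_mem_Icc (mem_Icc_of_affine ha hb hab hz2)
      (mem_Icc_of_affine hA hB hAB hz1))

/-- Expansion of the first variable. -/
theorem JJ_expand' {p q : ℝ} (h : Sol p q μ) (hα : Amp L α) {m A B : ℝ} (hA : 0 ≤ A) (hB : 0 ≤ B)
    (hAB : A + B ≤ 1) :
    JJ μ α m A B = ∫ z, ∫ x, ∫ y, kk α m ((z.1 + z.2 * x) * (A + B * y)) ∂μ ∂μ ∂(sig p q μ) := by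
  have := h.prob
  have h1 := JJ_swap (m := m) h.supp hα hA hB hAB le_rfl zero_le_one (by norm_num)
  simp only [zero_add, one_mul] at h1
  rw [JJ, h1, h.integral_sig (F := fun x => ∫ y, kk α m (x * (A + B * y)) ∂μ) _ (C := 1)]
  · intro x hx
    apply norm_integral_le_of_bdd h.supp
    intro y hy
    exact norm_kk_le hα m (mul_mem_Icc (Ioo_subset_Icc_self hx) (mem_Icc_of_affine hA hB hAB hy))
  · apply StronglyMeasurable.integral_prod_right (f := fun x y => kk α m (x * (A + B * y)))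
    exact (kk_meas hα m).comp_measurable (by fun_prop)

/-- The generic bound after an expansion of the first variable. -/
theorem norm_inner_le [IsProbabilityMeasure μ] (hμ : μ (Ioo 0 1)ᶜ = 0) (hcl : ClD μ L Φ)
    (hL : 0 ≤ L) (hα : Amp L α) (hΦ : ∀ s t, 0 < s → s ≤ t → Φ t ≤ Φ s) {m δ A B a b : ℝ}
    (hm : 0 < m) (hδ : 0 < δ) (hA : δ ≤ A) (hB : 0 ≤ B) (hAB : A + B ≤ 1) (ha : 0 ≤ a)
    (hb : 0 < b) (hab : a + b ≤ 1) :
    ‖∫ x, ∫ y, kk α m ((a + b * x) * (A + B * y)) ∂μ ∂μ‖ ≤ Φ (m * δ * b) := by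
  rw [← JJ_swap hμ hα (hδ.le.trans hA) hB hAB ha hb.le hab]
  apply norm_integral_le_of_bdd hμ
  intro y hy
  have hs := mem_Icc_of_affine (hδ.le.trans hA) hB hAB hy
  have hs0 : δ ≤ A + B * y := by nlinarith [mul_nonneg hB hy.1.le]
  set s := A + B * y with hsdef
  have hspos : 0 < s := hδ.trans_le hs0
  have h1 := hcl.affine hL hα (a := s * a) (b := s * b) (by positivity) (by positivity)
    (by rw [← mul_add]; exact mul_le_one₀ hs.2 (by positivity) hab) hm
  have h2 : ∀ x, kk α m ((a + b * x) * s) =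
      α (s * a + s * b * x) * ee (m * (s * a + s * b * x)) := by
    intro x
    rw [kk]
    ring_nf
  simp_rw [h2]
  refine h1.trans (hΦ _ _ (by positivity) ?_)
  rw [mul_assoc]
  gcongr

end

section

variable {μ : Measure ℝ} {L : ℝ} {Φ : ℝ → ℝ} {α : ℝ → ℂ}

/-- The gain for a good first step, in the window `m B ∈ [c0, 1]`. -/
theorem norm_inner_good [IsProbabilityMeasure μ] (hμ : μ (Ioo 0 1)ᶜ = 0) (hcl : ClD μ L Φ)
    (hα : Amp L α) (hΦ : ∀ s t, 0 < s → s ≤ t → Φ t ≤ Φ s)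
    {δ c0 η : ℝ} (hδ : 0 < δ) (hη : 0 < η) (hη' : η ≤ δ / 2)
    (hL : L = 2 / δ) (hg : ∀ s, c0 * δ ≤ s → s ≤ 1 → ‖gf μ s‖ ≤ 1 - η)
    {m A B a b : ℝ} (hm : 0 < m) (hA : δ ≤ A) (hB : 0 < B) (hAB : A + B ≤ 1) (ha : δ ≤ a)
    (hb : δ ≤ b) (hab : a + b ≤ 1) (hw : c0 ≤ m * B) (hw' : m * B ≤ 1) :
    ‖∫ x, ∫ y, kk α m ((a + b * x) * (A + B * y)) ∂μ ∂μ‖ ≤ (1 - η) * Φ (m * δ * b) + L / m := by
  have hL0 : 0 ≤ L := by rw [hL]; positivity
  have hδ1 : δ ≤ 1 / 2 := by linarith
  have h1η : 0 < 1 - η := by linarith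
  have hae := ae_mem_of_supp hμ
  have hA0 : 0 < A := hδ.trans_le hA
  have hb0 : 0 < b := hδ.trans_le hb
  have ha0 : 0 < a := hδ.trans_le ha
  -- step a
  have hstep : ∀ x ∈ Ioo (0 : ℝ) 1,
      ‖∫ y, kk α m ((a + b * x) * (A + B * y)) ∂μ -
        α ((a + b * x) * A) * ee (m * ((a + b * x) * A)) * gf μ (m * B * (a + b * x))‖ ≤ L / m := by
    intro x hx
    have hw0 := mem_Icc_of_affine ha0.le hb0.le hab hx
    set w := a + b * x with hwdef
    have h1 : α (w * A) * ee (m * (w * A)) * gf μ (m * B * w) =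
        ∫ y, α (w * A) * ee (m * (w * (A + B * y))) ∂μ := by
      rw [gf, ← integral_const_mul]
      congr 1
      ext y
      rw [show m * (w * (A + B * y)) = m * (w * A) + m * B * w * y by ring, ee_add]
      ring
    have hI1 : Integrable (fun y => kk α m (w * (A + B * y))) μ := by
      refine integrable_of_bdd hμ ?_ (C := 1) ?_
      · exact ((kk_meas hα m).comp_measurable (by fun_prop)).aestronglyMeasurable
      · intro y hy
        exact norm_kk_le hα m (mul_mem_Icc hw0 (mem_Icc_of_affine hA0.le hB.le hAB hy))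
    have hI2 : Integrable (fun y => α (w * A) * ee (m * (w * (A + B * y)))) μ := by
      apply Integrable.const_mul
      refine Integrable.of_bound (by
        apply Continuous.aestronglyMeasurable
        exact continuous_ee.comp (by fun_prop)) 1 ?_
      exact Filter.Eventually.of_forall fun x => (norm_ee _).le
    rw [h1, ← integral_sub hI1 hI2]
    apply norm_integral_le_of_bdd hμ
    intro y hy
    have h2 : kk α m (w * (A + B * y)) - α (w * A) * ee (m * (w * (A + B * y))) =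
        (α (w * (A + B * y)) - α (w * A)) * ee (m * (w * (A + B * y))) := by
      rw [kk]
      ring
    rw [h2, norm_mul, norm_ee, mul_one]
    refine (hα.lip _ (mul_mem_Icc hw0 (mem_Icc_of_affine hA0.le hB.le hAB hy)) _
      (mul_mem_Icc hw0 ⟨hA0.le, by linarith⟩)).trans ?_
    rw [show w * (A + B * y) - w * A = w * (B * y) by ring,
      abs_of_nonneg (mul_nonneg hw0.1 (mul_nonneg hB.le hy.1.le)), div_eq_mul_inv]
    apply mul_le_mul_of_nonneg_left _ hL0
    have h3 : B ≤ m⁻¹ := by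
      rw [← one_div, le_div_iff₀ hm]
      linarith
    have h4 : B * y ≤ B := mul_le_of_le_one_right hB.le hy.2.le
    have h5 : w * (B * y) ≤ B * y :=
      mul_le_of_le_one_left (mul_nonneg hB.le hy.1.le) hw0.2
    linarith
  -- step b
  set β : ℝ → ℂ := fun x => ((1 - η)⁻¹ : ℝ) * (α (A * a + A * b * x) *
    gf μ (m * B * (a + b * x))) with hβ
  have hArg : ∀ x ∈ Icc (0 : ℝ) 1, A * a + A * b * x ∈ Icc (0 : ℝ) 1 := by
    intro x hx
    have h0 : a + b * x ∈ Icc (0 : ℝ) 1 :=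
      ⟨by nlinarith [mul_nonneg hb0.le hx.1], by nlinarith [mul_le_of_le_one_right hb0.le hx.2]⟩
    have := mul_mem_Icc (x := A) ⟨hA0.le, by linarith⟩ h0
    rwa [show A * (a + b * x) = A * a + A * b * x by ring] at this
  have hgb : ∀ x ∈ Icc (0 : ℝ) 1, ‖gf μ (m * B * (a + b * x))‖ ≤ 1 - η := by
    intro x hx
    have h0 : a + b * x ∈ Icc (0 : ℝ) 1 :=
      ⟨by nlinarith [mul_nonneg hb0.le hx.1], by nlinarith [mul_le_of_le_one_right hb0.le hx.2]⟩
    have h00 : δ ≤ a + b * x := by nlinarith [mul_nonneg hb0.le hx.1]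
    apply hg
    · exact mul_le_mul hw h00 hδ.le (by positivity)
    · exact mul_le_one₀ hw' h0.1 h0.2
  have hgfm : StronglyMeasurable (fun x => gf μ (m * B * (a + b * x))) := by
    apply Continuous.stronglyMeasurable
    have hc : Continuous (gf μ) := by
      have hlip : LipschitzWith 1 (gf μ) := by
        apply LipschitzWith.of_dist_le_mul
        intro s t
        rw [dist_eq_norm, Real.dist_eq]
        simpa using gf_lip hμ s t
      exact hlip.continuous
    exact hc.comp (by fun_prop)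
  have hβA : Amp L β := by
    refine ⟨?_, ?_, ?_⟩
    · exact ((hα.meas.comp_measurable (by fun_prop)).mul hgfm).const_mul _
    · intro x hx
      rw [hβ]
      simp only [norm_mul, Complex.norm_real, Real.norm_eq_abs]
      rw [abs_of_pos (inv_pos.2 h1η), inv_mul_le_iff₀ h1η, mul_one]
      calc ‖α (A * a + A * b * x)‖ * ‖gf μ (m * B * (a + b * x))‖ ≤ 1 * (1 - η) := by
            gcongr
            · exact hα.bdd _ (hArg x hx)
            · exact hgb x hx
        _ = 1 - η := one_mul _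
    · intro x hx y hy
      have h1 : β x - β y = ((1 - η)⁻¹ : ℝ) *
          ((α (A * a + A * b * x) - α (A * a + A * b * y)) * gf μ (m * B * (a + b * x)) +
          α (A * a + A * b * y) * (gf μ (m * B * (a + b * x)) - gf μ (m * B * (a + b * y)))) := by
        rw [hβ]
        ring
      rw [h1, norm_mul, Complex.norm_real, Real.norm_eq_abs, abs_of_pos (inv_pos.2 h1η),
        inv_mul_le_iff₀ h1η]
      have h2 : ‖α (A * a + A * b * x) - α (A * a + A * b * y)‖ ≤ L * (b * |x - y|) := by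
        refine (hα.lip _ (hArg x hx) _ (hArg y hy)).trans ?_
        rw [show A * a + A * b * x - (A * a + A * b * y) = A * (b * (x - y)) by ring, abs_mul,
          abs_mul, abs_of_pos hA0, abs_of_pos hb0]
        apply mul_le_mul_of_nonneg_left _ hL0
        exact mul_le_of_le_one_left (by positivity) (by linarith)
      have h3 : ‖gf μ (m * B * (a + b * x)) - gf μ (m * B * (a + b * y))‖ ≤ b * |x - y| := by
        refine (gf_lip hμ _ _).trans ?_
        rw [show m * B * (a + b * x) - m * B * (a + b * y) = (m * B) * (b * (x - y)) by ring,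
          abs_mul, abs_mul b, abs_of_pos (mul_pos hm hB), abs_of_pos hb0]
        exact mul_le_of_le_one_left (by positivity) hw'
      have h4 : ‖gf μ (m * B * (a + b * x))‖ ≤ 1 := norm_gf_le μ _
      have h5 : ‖α (A * a + A * b * y)‖ ≤ 1 := hα.bdd _ (hArg y hy)
      have hxy := abs_nonneg (x - y)
      calc ‖(α (A * a + A * b * x) - α (A * a + A * b * y)) * gf μ (m * B * (a + b * x)) +
          α (A * a + A * b * y) * (gf μ (m * B * (a + b * x)) - gf μ (m * B * (a + b * y)))‖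
          ≤ ‖α (A * a + A * b * x) - α (A * a + A * b * y)‖ * ‖gf μ (m * B * (a + b * x))‖ +
            ‖α (A * a + A * b * y)‖ *
              ‖gf μ (m * B * (a + b * x)) - gf μ (m * B * (a + b * y))‖ := by
            refine (norm_add_le _ _).trans ?_
            rw [norm_mul, norm_mul]
        _ ≤ L * (b * |x - y|) * 1 + 1 * (b * |x - y|) := by gcongr
        _ = (L + 1) * b * |x - y| := by ring
        _ ≤ (1 - η) * (L * |x - y|) := by
            have hb1 : b ≤ 1 - δ := by linarith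
            have h6 : (L + 1) * b ≤ (1 - η) * L := by
              have h7 : (L + 1) * b ≤ (L + 1) * (1 - δ) := by gcongr
              have h8 : L * δ = 2 := by rw [hL]; field_simp
              have h9 : η * L ≤ δ / 2 * L := by gcongr
              nlinarith
            calc (L + 1) * b * |x - y| ≤ ((1 - η) * L) * |x - y| := by gcongr
              _ = _ := by ring
  have hmain : ∫ x, α ((a + b * x) * A) * ee (m * ((a + b * x) * A)) *
      gf μ (m * B * (a + b * x)) ∂μ =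
      ((1 - η : ℝ) : ℂ) * ee (m * A * a) * ∫ x, β x * ee ((m * A * b) * x) ∂μ := by
    rw [← integral_const_mul]
    congr 1
    ext x
    rw [hβ]
    simp only
    rw [show m * ((a + b * x) * A) = m * A * a + (m * A * b) * x by ring, ee_add,
      show (a + b * x) * A = A * a + A * b * x by ring]
    have h1 : ((1 - η : ℝ) : ℂ) ≠ 0 := by exact_mod_cast h1η.ne'
    push_cast at h1 ⊢
    field_simp
  have hb2 : ‖∫ x, α ((a + b * x) * A) * ee (m * ((a + b * x) * A)) *
      gf μ (m * B * (a + b * x)) ∂μ‖ ≤ (1 - η) * Φ (m * δ * b) := by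
    rw [hmain, norm_mul, norm_mul, norm_ee, mul_one, Complex.norm_real, Real.norm_eq_abs,
      abs_of_pos h1η]
    apply mul_le_mul_of_nonneg_left _ h1η.le
    refine (hcl (m * A * b) (by positivity) β hβA).trans (hΦ _ _ (by positivity) ?_)
    gcongr
  have hI3 : Integrable (fun x => ∫ y, kk α m ((a + b * x) * (A + B * y)) ∂μ) μ := by
    refine integrable_of_bdd hμ ?_ (C := 1) ?_
    · apply StronglyMeasurable.aestronglyMeasurable
      apply StronglyMeasurable.integral_prod_right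
        (f := fun x y => kk α m ((a + b * x) * (A + B * y)))
      exact (kk_meas hα m).comp_measurable (by fun_prop)
    · intro x hx
      apply norm_integral_le_of_bdd hμ
      intro y hy
      exact norm_kk_le hα m (mul_mem_Icc (mem_Icc_of_affine ha0.le hb0.le hab hx)
        (mem_Icc_of_affine hA0.le hB.le hAB hy))
  have hI4 : Integrable (fun x => α ((a + b * x) * A) * ee (m * ((a + b * x) * A)) *
      gf μ (m * B * (a + b * x))) μ := by
    refine integrable_of_bdd hμ ?_ (C := 1) ?_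
    · apply StronglyMeasurable.aestronglyMeasurable
      refine StronglyMeasurable.mul (StronglyMeasurable.mul ?_ ?_) hgfm
      · exact hα.meas.comp_measurable (by fun_prop)
      · apply Continuous.stronglyMeasurable
        exact continuous_ee.comp (by fun_prop)
    · intro x hx
      rw [norm_mul, norm_mul, norm_ee, mul_one]
      exact mul_le_one₀ (hα.bdd _ (mul_mem_Icc (mem_Icc_of_affine ha0.le hb0.le hab hx)
        ⟨hA0.le, by linarith⟩)) (norm_nonneg _) (norm_gf_le μ _)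
  have hdiff : ‖∫ x, ∫ y, kk α m ((a + b * x) * (A + B * y)) ∂μ ∂μ -
      ∫ x, α ((a + b * x) * A) * ee (m * ((a + b * x) * A)) *
      gf μ (m * B * (a + b * x)) ∂μ‖ ≤ L / m := by
    rw [← integral_sub hI3 hI4]
    exact norm_integral_le_of_bdd hμ hstep
  calc ‖∫ x, ∫ y, kk α m ((a + b * x) * (A + B * y)) ∂μ ∂μ‖
      ≤ ‖∫ x, α ((a + b * x) * A) * ee (m * ((a + b * x) * A)) *
          gf μ (m * B * (a + b * x)) ∂μ‖ +
        ‖∫ x, ∫ y, kk α m ((a + b * x) * (A + B * y)) ∂μ ∂μ -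
          ∫ x, α ((a + b * x) * A) * ee (m * ((a + b * x) * A)) *
          gf μ (m * B * (a + b * x)) ∂μ‖ := norm_le_norm_add_norm_sub' _ _
    _ ≤ _ := add_le_add hb2 hdiff

end

end MP319742
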