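import Pool.Agent.Lib.MP_319742_pr.Defs

/-! Preparations for the power decay of the characteristic function (MP_319742_pr). -/

open MeasureTheory Set
open scoped ENNReal ContDiff

namespace MP319742

/-- `e^{it}`. -/
noncomputable def ee (t : ℝ) : ℂ := Complex.exp (Complex.I * t)

theorem norm_ee (t : ℝ) : ‖ee t‖ = 1 := Complex.norm_exp_I_mul_ofReal t

theorem ee_add (s t : ℝ) : ee (s + t) = ee s * ee t := by
  simp only [ee]
  rw [← Complex.exp_add]
  push_cast
  ring_nf

theorem continuous_ee : Continuous ee := by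
  unfold ee
  fun_prop

theorem norm_ee_sub (s t : ℝ) : ‖ee s - ee t‖ ≤ |s - t| := by
  have h : ee s - ee t = ee t * (ee (s - t) - 1) := by
    rw [mul_sub, ← ee_add]
    simp
  rw [h, norm_mul, norm_ee, one_mul]
  exact Real.norm_exp_I_mul_ofReal_sub_one_le

theorem ee_eq (m x : ℝ) : Complex.exp (Complex.I * m * x) = ee (m * x) := by
  simp only [ee]
  push_cast
  ring_nf

/-- characteristic function -/
noncomputable def gf (μ : Measure ℝ) (s : ℝ) : ℂ := ∫ x, ee (s * x) ∂μ

theorem integrable_ee_mul (μ : Measure ℝ) [IsFiniteMeasure μ] (s : ℝ) :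
    Integrable (fun x => ee (s * x)) μ := by
  refine Integrable.of_bound (by
    apply Continuous.aestronglyMeasurable
    exact continuous_ee.comp (by fun_prop)) 1 ?_
  exact Filter.Eventually.of_forall fun x => (norm_ee _).le

theorem norm_gf_le (μ : Measure ℝ) [IsProbabilityMeasure μ] (s : ℝ) : ‖gf μ s‖ ≤ 1 := by
  have := norm_integral_le_of_norm_le_const (μ := μ) (f := fun x => ee (s * x)) (C := 1) (by
    exact Filter.Eventually.of_forall fun x => (norm_ee _).le)
  simpa [gf] using this

theorem gf_lip {μ : Measure ℝ} [IsProbabilityMeasure μ] (hμ : μ (Ioo 0 1)ᶜ = 0) (s t : ℝ) :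
    ‖gf μ s - gf μ t‖ ≤ |s - t| := by
  rw [gf, gf, ← integral_sub (integrable_ee_mul μ s) (integrable_ee_mul μ t)]
  apply norm_integral_le_of_bdd hμ
  intro x hx
  refine (norm_ee_sub _ _).trans ?_
  rw [← sub_mul, abs_mul, abs_of_pos hx.1]
  exact mul_le_of_le_one_right (abs_nonneg _) hx.2.le

/-- Explicit bound for the characteristic function. -/
theorem norm_sq_gf_le {μ : Measure ℝ} [IsProbabilityMeasure μ] (hμ : μ (Ioo 0 1)ᶜ = 0) {s : ℝ}
    (hs0 : 0 ≤ s) (hs1 : s ≤ 1) :
    ‖gf μ s‖ ^ 2 ≤ 1 - s ^ 2 / 4 * ∫ x, ∫ y, (x - y) ^ 2 ∂μ ∂μ := by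
  have h1 : ((‖gf μ s‖ ^ 2 : ℝ) : ℂ) = ∫ x, ∫ y, ee (s * (x - y)) ∂μ ∂μ := by
    have h2 : ∀ x, ∫ y, ee (s * (x - y)) ∂μ = ee (s * x) * (starRingEnd ℂ) (gf μ s) := by
      intro x
      rw [gf, ← integral_conj, ← integral_const_mul]
      congr 1
      ext y
      have : (starRingEnd ℂ) (ee (s * y)) = ee (-(s * y)) := by
        simp only [ee]
        rw [← Complex.exp_conj]
        simp
      rw [this, ← ee_add]
      ring_nf
    simp_rw [h2]
    rw [integral_mul_const]
    change _ = gf μ s * (starRingEnd ℂ) (gf μ s)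
    rw [Complex.mul_conj, Complex.normSq_eq_norm_sq]
  have hae := ae_mem_of_supp hμ
  have h3 : (‖gf μ s‖ ^ 2 : ℝ) = ∫ x, ∫ y, Real.cos (s * (x - y)) ∂μ ∂μ := by
    have h4 : (∫ x, ∫ y, ee (s * (x - y)) ∂μ ∂μ).re = ∫ x, ∫ y, Real.cos (s * (x - y)) ∂μ ∂μ := by
      have h5 : ∀ x, (∫ y, ee (s * (x - y)) ∂μ).re = ∫ y, Real.cos (s * (x - y)) ∂μ := by
        intro x
        have h6 : Integrable (fun y => ee (s * (x - y))) μ := by
          refine Integrable.of_bound (by
            apply Continuous.aestronglyMeasurable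
            exact continuous_ee.comp (by fun_prop)) 1 ?_
          exact Filter.Eventually.of_forall fun x => (norm_ee _).le
        rw [← RCLike.re_eq_complex_re, ← integral_re h6]
        congr 1
        ext y
        simp only [ee, RCLike.re_eq_complex_re]
        rw [mul_comm, Complex.exp_ofReal_mul_I_re]
      have h7 : Integrable (fun x => ∫ y, ee (s * (x - y)) ∂μ) μ := by
        refine Integrable.of_bound ?_ 1 ?_
        · apply StronglyMeasurable.aestronglyMeasurable
          apply StronglyMeasurable.integral_prod_right (f := fun x y => ee (s * (x - y)))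
          apply Continuous.stronglyMeasurable
          exact continuous_ee.comp (by fun_prop)
        · refine Filter.Eventually.of_forall fun x => ?_
          have := norm_integral_le_of_norm_le_const (μ := μ) (f := fun y => ee (s * (x - y)))
            (C := 1) (Filter.Eventually.of_forall fun x => (norm_ee _).le)
          simpa using this
      rw [← RCLike.re_eq_complex_re, ← integral_re h7]
      congr 1
      ext x
      exact h5 x
    rw [← h4, ← h1, Complex.ofReal_re]
  rw [h3]
  have hcos : ∀ x ∈ Ioo (0 : ℝ) 1, ∀ y ∈ Ioo (0 : ℝ) 1,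
      Real.cos (s * (x - y)) ≤ 1 - s ^ 2 / 4 * (x - y) ^ 2 := by
    intro x hx y hy
    have hxy : |x - y| ≤ 1 := by
      rw [abs_le]
      constructor <;> linarith [hx.1, hx.2, hy.1, hy.2]
    have hu : |s * (x - y)| ≤ 1 := by
      rw [abs_mul, abs_of_nonneg hs0]
      exact mul_le_one₀ hs1 (abs_nonneg _) hxy
    have h8 := (abs_le.1 (Real.cos_bound hu)).2
    have h9 : |s * (x - y)| ^ 4 ≤ (s * (x - y)) ^ 2 := by
      rw [← sq_abs (s * (x - y))]
      have h0 := abs_nonneg (s * (x - y))
      nlinarith [pow_le_pow_of_le_one h0 hu (show 2 ≤ 4 by norm_num)]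
    nlinarith [sq_nonneg (s * (x - y))]
  have hI1 : ∀ x, Integrable (fun y => Real.cos (s * (x - y))) μ := by
    intro x
    refine Integrable.of_bound (by
      apply Continuous.aestronglyMeasurable
      fun_prop) 1 ?_
    exact Filter.Eventually.of_forall fun y => Real.abs_cos_le_one _
  have hI2 : ∀ x, Integrable (fun y => (x - y) ^ 2) μ := by
    intro x
    refine integrable_of_bdd hμ (by
      apply Continuous.aestronglyMeasurable
      fun_prop) (C := (|x| + 1) ^ 2) ?_
    intro y hy
    rw [norm_pow, Real.norm_eq_abs]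
    gcongr
    calc |x - y| ≤ |x| + |y| := abs_sub _ _
      _ ≤ |x| + 1 := by
        gcongr
        rw [abs_of_pos hy.1]
        exact hy.2.le
  have hI3 : Integrable (fun x => ∫ y, Real.cos (s * (x - y)) ∂μ) μ := by
    refine Integrable.of_bound ?_ 1 ?_
    · apply StronglyMeasurable.aestronglyMeasurable
      apply StronglyMeasurable.integral_prod_right (f := fun x y => Real.cos (s * (x - y)))
      apply Continuous.stronglyMeasurable
      fun_prop
    · refine Filter.Eventually.of_forall fun x => ?_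
      have := norm_integral_le_of_norm_le_const (μ := μ) (f := fun y => Real.cos (s * (x - y)))
        (C := 1) (Filter.Eventually.of_forall fun x => Real.abs_cos_le_one _)
      simpa using this
  have hI4 : Integrable (fun x => ∫ y, (x - y) ^ 2 ∂μ) μ := by
    refine integrable_of_bdd hμ ?_ (C := 4) ?_
    · apply StronglyMeasurable.aestronglyMeasurable
      apply StronglyMeasurable.integral_prod_right (f := fun x y : ℝ => (x - y) ^ 2)
      apply Continuous.stronglyMeasurable
      fun_prop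
    · intro x hx
      apply norm_integral_le_of_bdd hμ
      intro y hy
      rw [Real.norm_eq_abs, abs_of_nonneg (sq_nonneg _)]
      nlinarith [hx.1, hx.2, hy.1, hy.2]
  have hstep : ∀ᵐ x ∂μ, ∫ y, Real.cos (s * (x - y)) ∂μ ≤ 1 - s ^ 2 / 4 * ∫ y, (x - y) ^ 2 ∂μ := by
    filter_upwards [hae] with x hx
    have : ∫ y, (1 - s ^ 2 / 4 * (x - y) ^ 2) ∂μ = 1 - s ^ 2 / 4 * ∫ y, (x - y) ^ 2 ∂μ := by
      rw [integral_sub (integrable_const _) ((hI2 x).const_mul _), integral_const_mul]
      simp
    rw [← this]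
    apply integral_mono_ae (hI1 x) ((integrable_const _).sub ((hI2 x).const_mul _))
    filter_upwards [hae] with y hy
    exact hcos x hx y hy
  calc ∫ x, ∫ y, Real.cos (s * (x - y)) ∂μ ∂μ
      ≤ ∫ x, (1 - s ^ 2 / 4 * ∫ y, (x - y) ^ 2 ∂μ) ∂μ :=
        integral_mono_ae hI3 ((integrable_const _).sub (hI4.const_mul _)) hstep
    _ = 1 - s ^ 2 / 4 * ∫ x, ∫ y, (x - y) ^ 2 ∂μ ∂μ := by
        rw [integral_sub (integrable_const _) (hI4.const_mul _), integral_const_mul]
        simp

theorem integral_affine {μ : Measure ℝ} [IsProbabilityMeasure μ]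
    (hI : Integrable (fun x : ℝ => x) μ) (a b : ℝ) :
    ∫ x, (a * x + b) ∂μ = a * ∫ x, x ∂μ + b := by
  rw [integral_add (hI.const_mul a) (integrable_const b), integral_const_mul]
  simp

theorem integrable_affine {μ : Measure ℝ} [IsProbabilityMeasure μ]
    (hI : Integrable (fun x : ℝ => x) μ) (a b : ℝ) :
    Integrable (fun x => a * x + b) μ :=
  (hI.const_mul a).add (integrable_const b)

/-- The law `μ` is not degenerate. -/
theorem Sol.var_pos {p q : ℝ} {μ : Measure ℝ} (h : Sol p q μ) :
    0 < ∫ x, ∫ y, (x - y) ^ 2 ∂μ ∂μ := by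
  have := h.prob
  have hae := h.ae_mem
  set m : ℝ := ∫ x, x ∂μ with hm
  have hIx : Integrable (fun x : ℝ => x) μ := by
    refine integrable_of_bdd h.supp (by fun_prop) (C := 1) ?_
    intro x hx
    rw [Real.norm_eq_abs, abs_of_pos hx.1]
    exact hx.2.le
  have hm0 : 0 < m := by
    rw [hm, integral_pos_iff_support_of_nonneg_ae]
    · have h1 : μ (Function.support fun x : ℝ => x) = 1 := by
        have : ∀ᵐ x ∂μ, x ∈ Function.support fun x : ℝ => x := by
          filter_upwards [hae] with x hx using hx.1.ne'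
        rw [prob_compl_eq_zero_iff₀ (by measurability) |>.1]
        exact this
      rw [h1]
      exact one_pos
    · filter_upwards [hae] with x hx using hx.1.le
    · exact hIx
  have hm1 : m < 1 := by
    have h1 : 0 < ∫ x, (1 - x) ∂μ := by
      rw [integral_pos_iff_support_of_nonneg_ae]
      · have h1 : μ (Function.support fun x : ℝ => 1 - x) = 1 := by
          have : ∀ᵐ x ∂μ, x ∈ Function.support fun x : ℝ => 1 - x := by
            filter_upwards [hae] with x hx using (sub_pos.2 hx.2).ne'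
          rw [prob_compl_eq_zero_iff₀ (by measurability) |>.1]
          exact this
        rw [h1]
        exact one_pos
      · filter_upwards [hae] with x hx using (sub_pos.2 hx.2).le
      · exact (integrable_const _).sub hIx
    rw [integral_sub (integrable_const _) hIx] at h1
    simp only [integral_const, probReal_univ, smul_eq_mul, mul_one] at h1
    linarith
  have haff : ∀ a b, ∫ x, (a * x + b) ∂μ = a * m + b := fun a b => integral_affine hIx a b
  -- variance
  have hI2 : Integrable (fun x => (x - m) ^ 2) μ := by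
    refine integrable_of_bdd h.supp (by
      apply Continuous.aestronglyMeasurable
      fun_prop) (C := 1) ?_
    intro x hx
    rw [Real.norm_eq_abs, abs_of_nonneg (sq_nonneg _)]
    nlinarith [hx.1, hx.2]
  have hvar : p * (m ^ 2 - m) ^ 2 ≤ ∫ x, (x - m) ^ 2 ∂μ := by
    have h1 := h.integral_rde (F := fun x => (x - m) ^ 2) (by
      apply Continuous.stronglyMeasurable
      fun_prop) (C := 1) (by
      intro x hx
      rw [Real.norm_eq_abs, abs_of_nonneg (sq_nonneg _)]
      nlinarith [hx.1, hx.2])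
    rw [h1]
    have h2 : (0 : ℝ) ≤ q • ∫ v, ∫ x, (v + (1 - v) * x - m) ^ 2 ∂μ ∂(mulC μ μ) := by
      apply mul_nonneg h.q_pos.le
      apply integral_nonneg
      intro v
      apply integral_nonneg
      intro x
      positivity
    have h3 : (m ^ 2 - m) ^ 2 ≤ ∫ y, ∫ x, (x * y - m) ^ 2 ∂μ ∂μ := by
      have hIy : ∀ y, Integrable (fun x => (x * y - m) ^ 2) μ := by
        intro y
        refine integrable_of_bdd h.supp (by
          apply Continuous.aestronglyMeasurable
          fun_prop) (C := (|y| + |m|) ^ 2) ?_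
        intro x hx
        rw [norm_pow, Real.norm_eq_abs]
        have h8 : |x * y - m| ≤ |y| + |m| := by
          calc |x * y - m| ≤ |x * y| + |m| := abs_sub _ _
            _ ≤ |y| + |m| := by
              rw [abs_mul, abs_of_pos hx.1]
              linarith [mul_le_of_le_one_left (abs_nonneg y) hx.2.le]
        exact pow_le_pow_left₀ (abs_nonneg _) h8 2
      have h4 : ∀ y, 2 * (m ^ 2 - m) * m * y + ((m ^ 2 - m) ^ 2 - 2 * (m ^ 2 - m) * m ^ 2) ≤
          ∫ x, (x * y - m) ^ 2 ∂μ := by
        intro y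
        have h5 : ∫ x, (2 * (m ^ 2 - m) * y * x +
            ((m ^ 2 - m) ^ 2 - 2 * (m ^ 2 - m) * m ^ 2)) ∂μ =
            2 * (m ^ 2 - m) * m * y + ((m ^ 2 - m) ^ 2 - 2 * (m ^ 2 - m) * m ^ 2) := by
          rw [haff]
          ring
        rw [← h5]
        apply integral_mono (integrable_affine hIx _ _) (hIy y)
        intro x
        change 2 * (m ^ 2 - m) * y * x + ((m ^ 2 - m) ^ 2 - 2 * (m ^ 2 - m) * m ^ 2) ≤
          (x * y - m) ^ 2
        nlinarith [sq_nonneg (x * y - m - (m ^ 2 - m))]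
      calc (m ^ 2 - m) ^ 2
          = ∫ y, (2 * (m ^ 2 - m) * m * y +
              ((m ^ 2 - m) ^ 2 - 2 * (m ^ 2 - m) * m ^ 2)) ∂μ := by
            rw [haff]
            ring
        _ ≤ _ := by
            apply integral_mono (integrable_affine hIx _ _) _ h4
            refine integrable_of_bdd h.supp ?_ (C := 1) ?_
            · apply StronglyMeasurable.aestronglyMeasurable
              apply StronglyMeasurable.integral_prod_right (f := fun y x : ℝ => (x * y - m) ^ 2)
              apply Continuous.stronglyMeasurable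
              fun_prop
            · intro y hy
              apply norm_integral_le_of_bdd h.supp
              intro x hx
              rw [Real.norm_eq_abs, abs_of_nonneg (sq_nonneg _)]
              have h6 := mul_mem_Ioo hx hy
              nlinarith [h6.1, h6.2]
    have h7 : p * (m ^ 2 - m) ^ 2 ≤ p • ∫ y, ∫ x, (x * y - m) ^ 2 ∂μ ∂μ := by
      rw [smul_eq_mul]
      exact mul_le_mul_of_nonneg_left h3 h.p_pos.le
    linarith
  have hpos : 0 < p * (m ^ 2 - m) ^ 2 := by
    apply mul_pos h.p_pos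
    have : m ^ 2 - m ≠ 0 := by
      have : m ^ 2 - m = - (m * (1 - m)) := by ring
      rw [this, neg_ne_zero]
      exact (mul_pos hm0 (sub_pos.2 hm1)).ne'
    positivity
  refine hpos.trans_le (hvar.trans ?_)
  apply integral_mono hI2
  · refine integrable_of_bdd h.supp ?_ (C := 4) ?_
    · apply StronglyMeasurable.aestronglyMeasurable
      apply StronglyMeasurable.integral_prod_right (f := fun x y : ℝ => (x - y) ^ 2)
      apply Continuous.stronglyMeasurable
      fun_prop
    · intro x hx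
      apply norm_integral_le_of_bdd h.supp
      intro y hy
      rw [Real.norm_eq_abs, abs_of_nonneg (sq_nonneg _)]
      nlinarith [hx.1, hx.2, hy.1, hy.2]
  · intro x
    have hIy : Integrable (fun y => (x - y) ^ 2) μ := by
      refine integrable_of_bdd h.supp (by
        apply Continuous.aestronglyMeasurable
        fun_prop) (C := (|x| + 1) ^ 2) ?_
      intro y hy
      rw [norm_pow, Real.norm_eq_abs]
      have h8 : |x - y| ≤ |x| + 1 := by
        calc |x - y| ≤ |x| + |y| := abs_sub _ _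
          _ ≤ |x| + 1 := by
            rw [abs_of_pos hy.1]
            linarith [hy.2.le]
      exact pow_le_pow_left₀ (abs_nonneg _) h8 2
    have h5 : ∫ y, (-2 * (x - m) * y + ((x - m) ^ 2 + 2 * (x - m) * m)) ∂μ = (x - m) ^ 2 := by
      rw [haff]
      ring
    change (x - m) ^ 2 ≤ ∫ y, (x - y) ^ 2 ∂μ
    rw [← h5]
    apply integral_mono (integrable_affine hIx _ _) hIy
    intro y
    change -2 * (x - m) * y + ((x - m) ^ 2 + 2 * (x - m) * m) ≤ (x - y) ^ 2
    nlinarith [sq_nonneg (x - y - (x - m))]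

/-- A bounded subsolution for the overshoot of the multiplicative walk. -/
theorem Sol.exists_G {p q : ℝ} {μ : Measure ℝ} (h : Sol p q μ) {c : ℝ} (hc : 0 < c)
    (h1 : Integrable (fun z : ℝ × ℝ => z.2 ^ (-c)) (sig p q μ))
    (h2 : Integrable (fun z : ℝ × ℝ => z.2 ^ (-(2 * c))) (sig p q μ)) :
    ∃ c0 D θ : ℝ, ∃ G : ℝ → ℝ, 0 < c0 ∧ c0 ≤ 1 ∧ 0 < D ∧ 0 < θ ∧ Measurable G ∧
      (∀ s, 0 ≤ G s ∧ G s ≤ 1) ∧ (∀ s, s < c0 → G s = 0) ∧ (∀ s, 1 ≤ s → D ≤ G s) ∧
      (∀ s, 1 < s → G s + θ * s ^ (-c) ≤ ∫ z, G (s * z.2) ∂(sig p q μ)) := by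
  have := h.sig_prob
  set σ := sig p q μ with hσ
  have hae := h.sig_ae
  set θ₀ : ℝ := ∫ z, z.2 ^ (-c) ∂σ - 1 with hθ₀
  set M : ℝ := ∫ z, z.2 ^ (-(2 * c)) ∂σ with hM
  have hθpos : 0 < θ₀ := by
    have : θ₀ = ∫ z, (z.2 ^ (-c) - 1) ∂σ := by
      rw [integral_sub h1 (integrable_const _)]
      simp [hθ₀]
    rw [this, integral_pos_iff_support_of_nonneg_ae]
    · have hh : ∀ᵐ z ∂σ, z ∈ Function.support fun z : ℝ × ℝ => z.2 ^ (-c) - 1 := by
        filter_upwards [hae] with z hz
        have : 1 < z.2 ^ (-c) := Real.one_lt_rpow_of_pos_of_lt_one_of_neg hz.2.2.1 hz.2.2.2.1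
          (by linarith)
        exact (sub_pos.2 this).ne'
      have hh2 : σ (Function.support fun z : ℝ × ℝ => z.2 ^ (-c) - 1) = 1 := by
        rw [prob_compl_eq_zero_iff₀ (by measurability) |>.1]
        exact hh
      rw [hh2]
      exact one_pos
    · filter_upwards [hae] with z hz
      have : 1 ≤ z.2 ^ (-c) := Real.one_le_rpow_of_pos_of_le_one_of_nonpos hz.2.2.1
        hz.2.2.2.1.le (by linarith)
      exact sub_nonneg.2 this
    · exact h1.sub (integrable_const _)
  have hM1 : 1 ≤ M := by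
    have : (1 : ℝ) = ∫ _z, (1 : ℝ) ∂σ := by simp
    rw [this, hM]
    apply integral_mono_ae (integrable_const _) h2
    filter_upwards [hae] with z hz
    exact Real.one_le_rpow_of_pos_of_le_one_of_nonpos hz.2.2.1 hz.2.2.2.1.le (by linarith)
  -- choose c0
  set c0 : ℝ := min 1 ((θ₀ / (4 * M)) ^ (1 / c)) with hc0
  have hc0pos : 0 < c0 := lt_min one_pos (Real.rpow_pos_of_pos (by positivity) _)
  have hc01 : c0 ≤ 1 := min_le_left _ _
  have hc0M : c0 ^ c * M ≤ θ₀ / 4 := by
    have h3 : c0 ^ c ≤ θ₀ / (4 * M) := by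
      calc c0 ^ c ≤ ((θ₀ / (4 * M)) ^ (1 / c)) ^ c :=
            Real.rpow_le_rpow hc0pos.le (min_le_right _ _) hc.le
        _ = θ₀ / (4 * M) := by
            rw [← Real.rpow_mul (by positivity), one_div, inv_mul_cancel₀ hc.ne', Real.rpow_one]
    calc c0 ^ c * M ≤ θ₀ / (4 * M) * M := by gcongr
      _ = θ₀ / 4 := by field_simp
  have hc0c : 0 < c0 ^ c := Real.rpow_pos_of_pos hc0pos _
  have hc0c1 : c0 ^ c ≤ 1 := Real.rpow_le_one hc0pos.le hc01 hc.le
  set D : ℝ := c0 ^ c / 2 with hD
  have hDpos : 0 < D := by positivity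
  set G : ℝ → ℝ := fun s => if 1 < s then D * (1 + s ^ (-c)) else if c0 ≤ s then 1 else 0 with hG
  have hGm : Measurable G := by
    apply Measurable.ite measurableSet_Ioi (by fun_prop)
    exact Measurable.ite measurableSet_Ici (by fun_prop) (by fun_prop)
  have hG01 : ∀ s, 0 ≤ G s ∧ G s ≤ 1 := by
    intro s
    simp only [hG]
    split_ifs with h3 h4
    · have h5 : 0 ≤ s ^ (-c) := Real.rpow_nonneg (by linarith) _
      have h6 : s ^ (-c) ≤ 1 := Real.rpow_le_one_of_one_le_of_nonpos h3.le (by linarith)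
      constructor
      · positivity
      · nlinarith
    · norm_num
    · norm_num
  refine ⟨c0, D, D * θ₀ / 2, G, hc0pos, hc01, hDpos, by positivity, hGm, hG01, ?_, ?_, ?_⟩
  · intro s hs
    simp only [hG]
    rw [if_neg (by linarith), if_neg (by linarith)]
  · intro s hs
    simp only [hG]
    split_ifs with h3 h4
    · have h5 : 0 ≤ s ^ (-c) := Real.rpow_nonneg (by linarith) _
      nlinarith
    · linarith
    · exact absurd (hc01.trans hs) h4
  · intro s hs
    have hs0 : 0 < s := by linarith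
    have hX : 0 < s ^ (-c) := Real.rpow_pos_of_pos hs0 _
    have hpt : ∀ᵐ z ∂σ, D + D * s ^ (-c) * z.2 ^ (-c) -
        2 * D * s ^ (-c) * c0 ^ c * z.2 ^ (-(2 * c)) ≤ G (s * z.2) := by
      filter_upwards [hae] with z hz
      obtain ⟨-, -, hz0, hz1, -⟩ := hz
      have hsz : 0 < s * z.2 := mul_pos hs0 hz0
      have e1 : (s * z.2) ^ (-c) = s ^ (-c) * z.2 ^ (-c) := Real.mul_rpow hs0.le hz0.le
      have e2 : z.2 ^ (-(2 * c)) = z.2 ^ (-c) * z.2 ^ (-c) := by
        rw [← Real.rpow_add hz0]
        ring_nf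
      have hzc : 0 < z.2 ^ (-c) := Real.rpow_pos_of_pos hz0 _
      simp only [hG]
      split_ifs with h3 h4
      · rw [e1]
        have : 0 ≤ 2 * D * s ^ (-c) * c0 ^ c * z.2 ^ (-(2 * c)) := by
          rw [e2]
          positivity
        linarith
      · have h5 : s ^ (-c) * z.2 ^ (-c) ≤ c0 ^ (-c) := by
          rw [← e1]
          exact Real.rpow_le_rpow_of_nonpos hc0pos h4 (by linarith)
        have h6 : c0 ^ c * c0 ^ (-c) = 1 := by
          rw [← Real.rpow_add hc0pos]
          simp
        have : 0 ≤ 2 * D * s ^ (-c) * c0 ^ c * z.2 ^ (-(2 * c)) := by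
          rw [e2]
          positivity
        have h7 : D * (s ^ (-c) * z.2 ^ (-c)) ≤ D * c0 ^ (-c) := by gcongr
        have h8 : D * c0 ^ (-c) = 1 / 2 := by
          rw [hD]
          linear_combination h6 / 2
        have h9 : D ≤ 1 / 2 := by
          rw [hD]
          linarith
        linarith [mul_assoc D (s ^ (-c)) (z.2 ^ (-c))]
      · push Not at h3 h4
        have h5 : 1 ≤ (s * z.2) ^ (-c) := Real.one_le_rpow_of_pos_of_le_one_of_nonpos hsz
          (by linarith) (by linarith)
        have hz2 : z.2 ≤ c0 := by nlinarith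
        have h6 : 1 ≤ c0 ^ c * z.2 ^ (-c) := by
          have h7 : c0 ^ (-c) ≤ z.2 ^ (-c) := Real.rpow_le_rpow_of_nonpos hz0 hz2 (by linarith)
          have h8 : c0 ^ c * c0 ^ (-c) = 1 := by
            rw [← Real.rpow_add hc0pos]
            simp
          calc (1 : ℝ) = c0 ^ c * c0 ^ (-c) := h8.symm
            _ ≤ _ := by gcongr
        rw [e1] at h5
        rw [e2]
        have h9 : 2 * D * (s ^ (-c) * z.2 ^ (-c)) * 1 ≤
            2 * D * (s ^ (-c) * z.2 ^ (-c)) * (c0 ^ c * z.2 ^ (-c)) := by gcongr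
        nlinarith
    have hGint : Integrable (fun z : ℝ × ℝ => G (s * z.2)) σ := by
      refine Integrable.of_bound (by
        apply Measurable.aestronglyMeasurable
        exact hGm.comp (by fun_prop)) 1 ?_
      refine Filter.Eventually.of_forall fun z => ?_
      rw [Real.norm_eq_abs, abs_of_nonneg (hG01 _).1]
      exact (hG01 _).2
    have hLint : Integrable (fun z : ℝ × ℝ => D + D * s ^ (-c) * z.2 ^ (-c) -
        2 * D * s ^ (-c) * c0 ^ c * z.2 ^ (-(2 * c))) σ :=
      ((integrable_const D).add (h1.const_mul _)).sub (h2.const_mul _)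
    have hGs : G s = D * (1 + s ^ (-c)) := by
      simp only [hG]
      rw [if_pos hs]
    calc G s + D * θ₀ / 2 * s ^ (-c)
        ≤ D + D * s ^ (-c) * (θ₀ + 1) - 2 * D * s ^ (-c) * (c0 ^ c * M) := by
          have : 2 * D * s ^ (-c) * (c0 ^ c * M) ≤ 2 * D * s ^ (-c) * (θ₀ / 4) := by gcongr
          rw [hGs]
          linarith
      _ = ∫ z, (D + D * s ^ (-c) * z.2 ^ (-c) -
            2 * D * s ^ (-c) * c0 ^ c * z.2 ^ (-(2 * c))) ∂σ := by
          have hA : Integrable (fun z : ℝ × ℝ => D + D * s ^ (-c) * z.2 ^ (-c)) σ :=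
            (integrable_const D).add (h1.const_mul _)
          rw [integral_sub hA (h2.const_mul _),
            integral_add (integrable_const D) (h1.const_mul _), integral_const_mul,
            integral_const_mul]
          simp only [integral_const, probReal_univ, smul_eq_mul, one_mul, hθ₀, hM]
          ring
      _ ≤ _ := integral_mono_ae hLint hGint hpt

/-- The good event for the first step. -/
theorem Sol.exists_delta {p q : ℝ} {μ : Measure ℝ} (h : Sol p q μ) :
    ∃ δ : ℝ, 0 < δ ∧ δ < 1 ∧ 0 < (sig p q μ).real {z : ℝ × ℝ | δ ≤ z.1 ∧ δ ≤ z.2} := by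
  have := h.sig_prob
  have := h.prob
  by_contra hcon
  push Not at hcon
  have h1 : ∀ n : ℕ, sig p q μ {z : ℝ × ℝ | 1 / ((n : ℝ) + 2) ≤ z.1 ∧ 1 / ((n : ℝ) + 2) ≤ z.2} = 0 := by
    intro n
    have h2 := hcon (1 / ((n : ℝ) + 2)) (by positivity) (by
      rw [div_lt_one (by positivity)]
      linarith [n.cast_nonneg (α := ℝ)])
    have h3 := le_antisymm h2 measureReal_nonneg
    rwa [measureReal_eq_zero_iff] at h3
  have h2 : sig p q μ {z : ℝ × ℝ | 0 < z.1 ∧ 0 < z.2} = 0 := by
    have h3 : {z : ℝ × ℝ | 0 < z.1 ∧ 0 < z.2} ⊆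
        ⋃ n : ℕ, {z : ℝ × ℝ | 1 / ((n : ℝ) + 2) ≤ z.1 ∧ 1 / ((n : ℝ) + 2) ≤ z.2} := by
      rintro z ⟨hz1, hz2⟩
      obtain ⟨n, hn⟩ := exists_nat_gt (1 / min z.1 z.2)
      rw [mem_iUnion]
      have hmin : 0 < min z.1 z.2 := lt_min hz1 hz2
      have h4 : 1 / ((n : ℝ) + 2) ≤ min z.1 z.2 := by
        rw [div_le_iff₀ (by positivity)]
        rw [div_lt_iff₀ hmin] at hn
        nlinarith
      exact ⟨n, h4.trans (min_le_left _ _), h4.trans (min_le_right _ _)⟩
    exact measure_mono_null h3 (measure_iUnion_null h1)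
  have h3 : (mulC μ μ).map (fun v => (v, 1 - v)) {z : ℝ × ℝ | 0 < z.1 ∧ 0 < z.2} = 0 := by
    rw [sig, Measure.add_apply, Measure.smul_apply, Measure.smul_apply] at h2
    have h4 := (add_eq_zero.1 h2).2
    rw [smul_eq_mul, mul_eq_zero] at h4
    rcases h4 with h4 | h4
    · rw [ENNReal.ofReal_eq_zero] at h4
      linarith [h.q_pos]
    · exact h4
  rw [Measure.map_apply (by fun_prop) (by measurability)] at h3
  have h4 : ∀ᵐ v ∂(mulC μ μ), v ∈ (fun v : ℝ => (v, 1 - v)) ⁻¹' {z : ℝ × ℝ | 0 < z.1 ∧ 0 < z.2} := by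
    filter_upwards [h.ae_tau_mem] with v hv
    exact ⟨hv.1, sub_pos.2 hv.2⟩
  have h5 : mulC μ μ univ = 0 := by
    have h6 := measure_union_null h3 h4
    refine measure_mono_null ?_ h6
    intro v _
    by_cases hv : v ∈ (fun v : ℝ => (v, 1 - v)) ⁻¹' {z : ℝ × ℝ | 0 < z.1 ∧ 0 < z.2}
    · exact Or.inl hv
    · exact Or.inr hv
  simp at h5

end MP319742
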