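import Pool.Agent.Lib.MP_319742_pr.LinearDecay

open MeasureTheory Set
open scoped ENNReal ContDiff

namespace MP319742

/-- Increasing phases with `u' ≥ m` and `Lip u' ≤ θ` on `[0,1]`. -/
structure Ph (m θ : ℝ) (u : ℝ → ℝ) : Prop where
  meas : Measurable u
  deriv : ∃ u' : ℝ → ℝ, (∀ x ∈ Icc (0 : ℝ) 1, HasDerivAt u (u' x) x) ∧
    (∀ x ∈ Icc (0 : ℝ) 1, m ≤ u' x) ∧
    (∀ x ∈ Icc (0 : ℝ) 1, ∀ y ∈ Icc (0 : ℝ) 1, |u' x - u' y| ≤ θ * |x - y|)

theorem Ph.comp_affine {m θ : ℝ} {u : ℝ → ℝ} (hu : Ph m θ u) {a b : ℝ}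
    (ha : 0 ≤ a) (hb : 0 < b) (hab : a + b ≤ 1) :
    Ph (m * b) (θ * b ^ 2) (fun x => u (a + b * x)) := by
  obtain ⟨hmeas, u', h1, h2, h3⟩ := hu
  have hmem : ∀ x ∈ Icc (0 : ℝ) 1, a + b * x ∈ Icc (0 : ℝ) 1 := by
    intro x hx
    exact ⟨by nlinarith [mul_nonneg hb.le hx.1], by nlinarith [mul_le_of_le_one_right hb.le hx.2]⟩
  refine ⟨hmeas.comp (by fun_prop), fun x => u' (a + b * x) * b, ?_, ?_, ?_⟩
  · intro x hx
    have h4 : HasDerivAt (fun x => a + b * x) b x := by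
      simpa using ((hasDerivAt_id x).const_mul b).const_add a
    exact (h1 _ (hmem x hx)).comp x h4
  · intro x hx
    exact mul_le_mul_of_nonneg_right (h2 _ (hmem x hx)) hb.le
  · intro x hx y hy
    have h4 := h3 _ (hmem x hx) _ (hmem y hy)
    rw [← sub_mul, abs_mul, abs_of_pos hb]
    have h5 : a + b * x - (a + b * y) = b * (x - y) := by ring
    rw [h5, abs_mul, abs_of_pos hb] at h4
    calc |u' (a + b * x) - u' (a + b * y)| * b ≤ θ * (b * |x - y|) * b := by gcongr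
      _ = θ * b ^ 2 * |x - y| := by ring

/-- Linearisation. -/
theorem Ph.linear {μ : Measure ℝ} [IsProbabilityMeasure μ] (hμ : μ (Ioo 0 1)ᶜ = 0)
    {c K : ℝ} (hc : 0 < c) (hK : 0 ≤ K) (hdec : ∀ m : ℝ, 0 < m → ‖∫ x, ee (m * x) ∂μ‖ ≤ K * m ^ (-c))
    {m θ : ℝ} (hm : 0 < m) (hθ : 0 ≤ θ) {u : ℝ → ℝ} (hu : Ph m θ u) :
    ‖∫ x, ee (u x) ∂μ‖ ≤ K * m ^ (-c) + θ := by
  obtain ⟨hmeas, u', h1, h2, h3⟩ := hu
  have h0 : (0 : ℝ) ∈ Icc (0 : ℝ) 1 := by simp
  have hm0 : m ≤ u' 0 := h2 0 h0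
  have happ : ∀ x ∈ Ioo (0 : ℝ) 1, |u x - (u 0 + u' 0 * x)| ≤ θ := by
    intro x hx
    have hx' : x ∈ Icc (0 : ℝ) 1 := Ioo_subset_Icc_self hx
    have h4 := (convex_Icc (0 : ℝ) 1).norm_image_sub_le_of_norm_hasDerivWithin_le
      (f := fun x => u x - u' 0 * x) (f' := fun x => u' x - u' 0) (C := θ) (x := 0) (y := x)
      (fun y hy => by
        have h5 : HasDerivAt (fun x => u x - u' 0 * x) (u' y - u' 0 * 1) y :=
          (h1 y hy).sub ((hasDerivAt_id y).const_mul (u' 0))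
        rw [mul_one] at h5
        exact h5.hasDerivWithinAt)
      (fun y hy => by
        rw [Real.norm_eq_abs]
        refine (h3 y hy 0 h0).trans ?_
        rw [sub_zero, abs_of_nonneg hy.1]
        exact mul_le_of_le_one_right hθ hy.2) h0 hx'
    simp only [mul_zero, sub_zero, Real.norm_eq_abs] at h4
    rw [show u x - (u 0 + u' 0 * x) = u x - u' 0 * x - u 0 by ring]
    refine h4.trans ?_
    rw [abs_of_pos hx.1]
    exact mul_le_of_le_one_right hθ hx.2.le
  have hI1 : Integrable (fun x => ee (u x)) μ := by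
    refine Integrable.of_bound (by
      apply Measurable.aestronglyMeasurable
      exact continuous_ee.measurable.comp hmeas) 1 ?_
    exact Filter.Eventually.of_forall fun x => (norm_ee _).le
  have hI2 : Integrable (fun x => ee (u 0 + u' 0 * x)) μ := by
    refine Integrable.of_bound (by
      apply Continuous.aestronglyMeasurable
      exact continuous_ee.comp (by fun_prop)) 1 ?_
    exact Filter.Eventually.of_forall fun x => (norm_ee _).le
  have hd : ‖∫ x, ee (u x) ∂μ - ∫ x, ee (u 0 + u' 0 * x) ∂μ‖ ≤ θ := by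
    rw [← integral_sub hI1 hI2]
    apply norm_integral_le_of_bdd hμ
    intro x hx
    exact (norm_ee_sub _ _).trans (happ x hx)
  have hl : ‖∫ x, ee (u 0 + u' 0 * x) ∂μ‖ ≤ K * m ^ (-c) := by
    simp_rw [ee_add]
    rw [integral_const_mul, norm_mul, norm_ee, one_mul]
    refine (hdec _ (hm.trans_le hm0)).trans ?_
    gcongr ?_ * ?_
    exact Real.rpow_le_rpow_of_nonpos hm hm0 (by linarith)
  calc ‖∫ x, ee (u x) ∂μ‖ ≤ ‖∫ x, ee (u 0 + u' 0 * x) ∂μ‖ +
        ‖∫ x, ee (u x) ∂μ - ∫ x, ee (u 0 + u' 0 * x) ∂μ‖ := norm_le_norm_add_norm_sub' _ _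
    _ ≤ _ := add_le_add hl hd

/-- Decay for nonlinear phases. -/
theorem Sol.phase_decay {p q : ℝ} {μ : Measure ℝ} (h : Sol p q μ) :
    ∃ c₀ : ℝ, 0 < c₀ ∧ ∀ c : ℝ, 0 < c → c ≤ c₀ → ∃ K₁ K₂ : ℝ, 0 ≤ K₁ ∧ 0 ≤ K₂ ∧
      ∀ m θ : ℝ, 0 < m → 0 ≤ θ → ∀ u : ℝ → ℝ, Ph m θ u →
        ‖∫ x, ee (u x) ∂μ‖ ≤ K₁ * (θ ^ c * m ^ (-(3 / 2 * c))) + K₂ * m ^ (-(5 / 2 * c)) := by
  have := h.prob
  have := h.sig_prob
  obtain ⟨cD, K₀', hcD, hdec'⟩ := h.linear_decay
  obtain ⟨c₁, hc₁, hmom⟩ := h.moments one_pos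
  set K₀ : ℝ := max K₀' 0 with hK₀
  have hK₀0 : 0 ≤ K₀ := le_max_right _ _
  have hdec : ∀ m : ℝ, 0 < m → ‖∫ x, ee (m * x) ∂μ‖ ≤ K₀ * m ^ (-cD) := by
    intro m hm
    have h1 := hdec' m hm
    simp_rw [ee_eq] at h1
    refine h1.trans ?_
    gcongr
    exact le_max_left _ _
  refine ⟨min (min (2 / 5 * cD) (2 / 5)) (2 / 5 * c₁), by positivity, fun c hc hcle => ?_⟩
  have hcD' : 5 / 2 * c ≤ cD := by
    have := (hcle.trans (min_le_left _ _)).trans (min_le_left _ _)
    linarith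
  have hc1' : 5 / 2 * c ≤ 1 := by
    have := (hcle.trans (min_le_left _ _)).trans (min_le_right _ _)
    linarith
  have hcc₁ : 5 / 2 * c ≤ c₁ := by
    have := hcle.trans (min_le_right _ _)
    linarith
  obtain ⟨-, -, -, -, ⟨hie, he⟩⟩ := hmom (5 / 2 * c) (by positivity) hcc₁
  set e : ℝ := ∫ z, z.2 ^ (-(5 / 2 * c)) ∂(sig p q μ) with hedef
  have hiρ : Integrable (fun z : ℝ × ℝ => z.2 ^ (c / 2)) (sig p q μ) := by
    refine Integrable.of_bound (by
      apply Measurable.aestronglyMeasurable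
      fun_prop) 1 ?_
    filter_upwards [h.sig_ae] with z hz
    rw [Real.norm_eq_abs, abs_of_nonneg (Real.rpow_nonneg hz.2.2.1.le _)]
    exact Real.rpow_le_one hz.2.2.1.le hz.2.2.2.1.le (by positivity)
  set ρ : ℝ := ∫ z, z.2 ^ (c / 2) ∂(sig p q μ) with hρdef
  have hρ0 : 0 ≤ ρ := by
    apply integral_nonneg_of_ae
    filter_upwards [h.sig_ae] with z hz
    exact Real.rpow_nonneg hz.2.2.1.le _
  have hρ1 : ρ < 1 := by
    have h1 : 0 < ∫ z, (1 - z.2 ^ (c / 2)) ∂(sig p q μ) := by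
      rw [integral_pos_iff_support_of_nonneg_ae]
      · have hh : ∀ᵐ z ∂(sig p q μ), z ∈ Function.support fun z : ℝ × ℝ => 1 - z.2 ^ (c / 2) := by
          filter_upwards [h.sig_ae] with z hz
          have : z.2 ^ (c / 2) < 1 := Real.rpow_lt_one hz.2.2.1.le hz.2.2.2.1 (by positivity)
          exact (sub_pos.2 this).ne'
        have hh2 : (sig p q μ) (Function.support fun z : ℝ × ℝ => 1 - z.2 ^ (c / 2)) = 1 := by
          rw [prob_compl_eq_zero_iff₀ (by measurability) |>.1]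
          exact hh
        rw [hh2]
        exact one_pos
      · filter_upwards [h.sig_ae] with z hz
        have : z.2 ^ (c / 2) ≤ 1 := Real.rpow_le_one hz.2.2.1.le hz.2.2.2.1.le (by positivity)
        exact sub_nonneg.2 this
      · exact (integrable_const _).sub hiρ
    rw [integral_sub (integrable_const _) hiρ] at h1
    simp only [integral_const, probReal_univ, smul_eq_mul, mul_one] at h1
    linarith
  set K₂ : ℝ := K₀ + 1 with hK₂
  have hK₂1 : 1 ≤ K₂ := by linarith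
  set K₁ : ℝ := 4 * K₂ / (1 - ρ) with hK₁
  have hρ' : 0 < 1 - ρ := by linarith
  have hK₁0 : 0 ≤ K₁ := by positivity
  refine ⟨K₁, K₂, hK₁0, by linarith, ?_⟩
  set F : ℝ → ℝ → ℝ := fun m θ => K₁ * (θ ^ c * m ^ (-(3 / 2 * c))) + K₂ * m ^ (-(5 / 2 * c))
    with hF
  set ρ' : ℝ := (1 - ρ) / 2 with hρ'def
  have hρ'0 : 0 < ρ' := by positivity
  have hρ'1 : ρ' ≤ 1 / 2 := by rw [hρ'def]; linarith
  have hF0 : ∀ m θ : ℝ, 0 < m → 0 ≤ θ → 0 ≤ F m θ := by
    intro m θ hm hθ
    simp only [hF]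
    positivity
  -- trivial bound
  have htriv : ∀ u : ℝ → ℝ, ‖∫ x, ee (u x) ∂μ‖ ≤ 1 := fun u =>
    norm_integral_le_of_bdd h.supp (fun x _ => (norm_ee _).le)
  have hclaim : ∀ R : ℝ, 1 ≤ R → ∀ n : ℕ, ∀ m θ : ℝ, 0 < m → m ≤ R → 0 ≤ θ → ∀ u : ℝ → ℝ,
      Ph m θ u → ‖∫ x, ee (u x) ∂μ‖ ≤ max 1 ((1 - ρ') ^ n * R ^ (5 / 2 * c)) * F m θ := by
    intro R hR n
    induction n with
    | zero =>
      intro m θ hm hmR hθ u hu
      refine (htriv u).trans ?_
      have h1 : R ^ (-(5 / 2 * c)) ≤ F m θ := by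
        have h2 : R ^ (-(5 / 2 * c)) ≤ m ^ (-(5 / 2 * c)) :=
          Real.rpow_le_rpow_of_nonpos hm hmR (by linarith)
        have h3 : 0 ≤ K₁ * (θ ^ c * m ^ (-(3 / 2 * c))) := by positivity
        have h4 : 0 ≤ m ^ (-(5 / 2 * c)) := by positivity
        simp only [hF]
        nlinarith
      have h2 : R ^ (5 / 2 * c) * R ^ (-(5 / 2 * c)) = 1 := by
        rw [← Real.rpow_add (by linarith)]
        simp
      calc (1 : ℝ) = R ^ (5 / 2 * c) * R ^ (-(5 / 2 * c)) := h2.symm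
        _ ≤ R ^ (5 / 2 * c) * F m θ := by gcongr
        _ ≤ _ := by
          apply mul_le_mul_of_nonneg_right _ (hF0 m θ hm hθ)
          simp
    | succ n ih =>
      intro m θ hm hmR hθ u hu
      set Γ : ℝ := max 1 ((1 - ρ') ^ n * R ^ (5 / 2 * c)) with hΓ
      set Γ' : ℝ := max 1 ((1 - ρ') ^ (n + 1) * R ^ (5 / 2 * c)) with hΓ'
      have hΓ'1 : 1 ≤ Γ' := le_max_left _ _
      have hΓΓ' : (1 - ρ') * Γ ≤ Γ' := by
        rw [hΓ, hΓ']
        rcases le_total 1 ((1 - ρ') ^ n * R ^ (5 / 2 * c)) with h1 | h1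
        · rw [max_eq_right h1]
          refine le_trans (le_of_eq ?_) (le_max_right _ _)
          ring
        · rw [max_eq_left h1]
          refine le_trans ?_ (le_max_left _ _)
          linarith
      have hF00 := hF0 m θ hm hθ
      have hm5 : 0 < m ^ (-(5 / 2 * c)) := Real.rpow_pos_of_pos hm _
      have hθc : 0 ≤ K₁ * (θ ^ c * m ^ (-(3 / 2 * c))) := by positivity
      rcases lt_or_ge m 1 with hm1 | hm1
      · have h1 : 1 ≤ m ^ (-(5 / 2 * c)) :=
          Real.one_le_rpow_of_pos_of_le_one_of_nonpos hm hm1.le (by linarith)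
        have h2 : 1 ≤ F m θ := by
          simp only [hF]
          nlinarith
        refine (htriv u).trans ?_
        nlinarith
      · rcases le_or_gt θ (1 / m) with hθ1 | hθ1
        · have h1 := hu.linear h.supp hcD hK₀0 hdec hm hθ
          have h2 : m ^ (-cD) ≤ m ^ (-(5 / 2 * c)) :=
            Real.rpow_le_rpow_of_exponent_le hm1 (by linarith)
          have h3 : 1 / m ≤ m ^ (-(5 / 2 * c)) := by
            rw [one_div, ← Real.rpow_neg_one]
            exact Real.rpow_le_rpow_of_exponent_le hm1 (by linarith)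
          have h4 : ‖∫ x, ee (u x) ∂μ‖ ≤ F m θ := by
            simp only [hF]
            have h5 : K₀ * m ^ (-cD) ≤ K₀ * m ^ (-(5 / 2 * c)) := by gcongr
            have h6 : K₂ * m ^ (-(5 / 2 * c)) = K₀ * m ^ (-(5 / 2 * c)) + m ^ (-(5 / 2 * c)) := by
              rw [hK₂]
              ring
            linarith
          nlinarith
        · have hθpos : 0 < θ := lt_trans (by positivity) hθ1
          have hexp := h.integral_sig (F := fun x => ee (u x)) (by
            apply Measurable.stronglyMeasurable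
            exact continuous_ee.measurable.comp hu.meas) (C := 1) (fun x _ => (norm_ee _).le)
          rw [hexp]
          have hib : Integrable (fun z : ℝ × ℝ => Γ * (K₁ * (θ ^ c * m ^ (-(3 / 2 * c))) *
              z.2 ^ (c / 2) + K₂ * m ^ (-(5 / 2 * c)) * z.2 ^ (-(5 / 2 * c)))) (sig p q μ) :=
            ((hiρ.const_mul _).add (hie.const_mul _)).const_mul _
          have h1 : ‖∫ z, ∫ x, ee (u (z.1 + z.2 * x)) ∂μ ∂(sig p q μ)‖ ≤
              ∫ z, Γ * (K₁ * (θ ^ c * m ^ (-(3 / 2 * c))) * z.2 ^ (c / 2) +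
                K₂ * m ^ (-(5 / 2 * c)) * z.2 ^ (-(5 / 2 * c))) ∂(sig p q μ) := by
            apply norm_integral_le_of_norm_le hib
            filter_upwards [h.sig_ae] with z hz
            obtain ⟨hz1, -, hz2, hz2', hz3⟩ := hz
            have h2 := ih (m * z.2) (θ * z.2 ^ 2) (by positivity)
              ((mul_le_of_le_one_right hm.le hz2'.le).trans hmR) (by positivity) _
              (hu.comp_affine hz1 hz2 hz3)
            refine h2.trans (le_of_eq ?_)
            congr 1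
            simp only [hF]
            have e1 : (θ * z.2 ^ 2) ^ c * (m * z.2) ^ (-(3 / 2 * c)) =
                θ ^ c * m ^ (-(3 / 2 * c)) * z.2 ^ (c / 2) := by
              rw [Real.mul_rpow hθ (by positivity), Real.mul_rpow hm.le hz2.le,
                ← Real.rpow_natCast z.2 2, ← Real.rpow_mul hz2.le]
              have : z.2 ^ (((2 : ℕ) : ℝ) * c) * z.2 ^ (-(3 / 2 * c)) = z.2 ^ (c / 2) := by
                rw [← Real.rpow_add hz2]
                congr 1
                push_cast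
                ring
              rw [← this]
              ring
            have e2 : (m * z.2) ^ (-(5 / 2 * c)) =
                m ^ (-(5 / 2 * c)) * z.2 ^ (-(5 / 2 * c)) := Real.mul_rpow hm.le hz2.le
            rw [e1, e2]
            ring
          refine h1.trans ?_
          have h2 : ∫ z, Γ * (K₁ * (θ ^ c * m ^ (-(3 / 2 * c))) * z.2 ^ (c / 2) +
                K₂ * m ^ (-(5 / 2 * c)) * z.2 ^ (-(5 / 2 * c))) ∂(sig p q μ) =
              Γ * (K₁ * (θ ^ c * m ^ (-(3 / 2 * c))) * ρ + K₂ * m ^ (-(5 / 2 * c)) * e) := by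
            rw [integral_const_mul, integral_add (hiρ.const_mul _) (hie.const_mul _),
              integral_const_mul, integral_const_mul]
          rw [h2]
          set F1 : ℝ := θ ^ c * m ^ (-(3 / 2 * c)) with hF1
          set F2 : ℝ := m ^ (-(5 / 2 * c)) with hF2
          have hF12 : F2 ≤ F1 := by
            have h3 : m ^ (-c) ≤ θ ^ c := by
              rw [Real.rpow_neg hm.le, ← Real.inv_rpow hm.le, ← one_div]
              exact Real.rpow_le_rpow (by positivity) hθ1.le hc.le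
            have h4 : F2 = m ^ (-c) * m ^ (-(3 / 2 * c)) := by
              rw [hF2, ← Real.rpow_add hm]
              congr 1
              ring
            rw [h4, hF1]
            gcongr
          have hF2pos : 0 < F2 := hm5
          have hK1ρ : K₁ * (1 - ρ) = 4 * K₂ := by
            rw [hK₁]
            field_simp
          have h5 : K₁ * F1 * ρ + K₂ * F2 * e ≤ (1 - ρ') * (K₁ * F1 + K₂ * F2) := by
            have h6 : K₂ * F2 * (e - 1 + ρ') ≤ K₁ * F1 * ((1 - ρ) / 2) := by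
              have h7 : e - 1 + ρ' ≤ 2 := by linarith
              have h8 : K₂ * F2 * (e - 1 + ρ') ≤ K₂ * F2 * 2 := by gcongr
              have h9 : K₁ * F1 * ((1 - ρ) / 2) = 2 * K₂ * F1 := by
                linear_combination F1 / 2 * hK1ρ
              rw [h9]
              nlinarith
            have h10 : ρ' = (1 - ρ) / 2 := hρ'def
            nlinarith
          have hΓ0 : 0 ≤ Γ := le_trans zero_le_one (le_max_left _ _)
          calc Γ * (K₁ * F1 * ρ + K₂ * F2 * e) ≤ Γ * ((1 - ρ') * (K₁ * F1 + K₂ * F2)) := by gcongr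
            _ = ((1 - ρ') * Γ) * (K₁ * F1 + K₂ * F2) := by ring
            _ ≤ Γ' * (K₁ * F1 + K₂ * F2) := by
              apply mul_le_mul_of_nonneg_right hΓΓ' hF00
  intro m θ hm hθ u hu
  set R : ℝ := max 1 m with hR
  have hR1 : 1 ≤ R := le_max_left _ _
  obtain ⟨n, hn⟩ := exists_pow_lt_of_lt_one (x := R ^ (-(5 / 2 * c))) (y := 1 - ρ')
    (by positivity) (by linarith)
  have h1 := hclaim R hR1 n m θ hm (le_max_right _ _) hθ u hu
  have h2 : (1 - ρ') ^ n * R ^ (5 / 2 * c) ≤ 1 := by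
    have h3 : R ^ (-(5 / 2 * c)) * R ^ (5 / 2 * c) = 1 := by
      rw [← Real.rpow_add (by linarith)]
      simp
    calc (1 - ρ') ^ n * R ^ (5 / 2 * c) ≤ R ^ (-(5 / 2 * c)) * R ^ (5 / 2 * c) := by gcongr
      _ = 1 := h3
  rw [max_eq_left h2, one_mul] at h1
  exact h1

/-- L. Power decay of the Mellin transform on the line `Re s = 0`. -/
theorem Sol.log_decay {p q : ℝ} {μ : Measure ℝ} (h : Sol p q μ) :
    ∃ c K : ℝ, 0 < c ∧ ∀ t : ℝ, 0 < t →
      ‖∫ x, Complex.exp (Complex.I * t * Real.log x) ∂μ‖ ≤ K * t ^ (-c) := by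
  have := h.prob
  obtain ⟨c₀, hc₀, hph⟩ := h.phase_decay
  obtain ⟨c₁, hc₁, hmom⟩ := h.moments one_pos
  set c : ℝ := min c₀ (c₁ / 4) with hc
  have hcpos : 0 < c := by positivity
  have hcc₁ : 4 * c ≤ c₁ := by
    have := min_le_right c₀ (c₁ / 4)
    rw [← hc] at this
    linarith
  obtain ⟨K₁, K₂, hK₁, hK₂, hb⟩ := hph c hcpos (min_le_left _ _)
  obtain ⟨-, -, ⟨hi1, he1⟩, -, -⟩ := hmom (4 * c) (by positivity) hcc₁
  obtain ⟨-, -, -, ⟨hi2, he2⟩, -⟩ := hmom (3 * c) (by positivity) (by linarith)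
  obtain ⟨-, -, -, ⟨hi3, he3⟩, -⟩ := hmom (5 / 2 * c) (by positivity) (by linarith)
  refine ⟨c / 2, max 1 (4 * K₁ + 2 * K₂), by positivity, fun t ht => ?_⟩
  have hee : ∀ x : ℝ, Complex.exp (Complex.I * t * Real.log x) = ee (t * Real.log x) :=
    fun x => ee_eq t (Real.log x)
  simp_rw [hee]
  set φ : ℂ := ∫ x, ee (t * Real.log x) ∂μ with hφ
  have hmeas : Measurable (fun x : ℝ => ee (t * Real.log x)) :=
    continuous_ee.measurable.comp (by fun_prop)
  have hφ1 : ‖φ‖ ≤ 1 := norm_integral_le_of_bdd h.supp (fun x _ => (norm_ee _).le)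
  rcases lt_or_ge t 1 with ht1 | ht1
  · have h1 : 1 ≤ t ^ (-(c / 2)) :=
      Real.one_le_rpow_of_pos_of_le_one_of_nonpos ht ht1.le (by linarith)
    have h2 : (1 : ℝ) ≤ max 1 (4 * K₁ + 2 * K₂) := le_max_left _ _
    nlinarith
  -- the RDE
  have hrde := h.integral_rde (F := fun x => ee (t * Real.log x)) hmeas.stronglyMeasurable
    (C := 1) (fun x _ => (norm_ee _).le)
  have hbin : ∫ y, ∫ x, ee (t * Real.log (x * y)) ∂μ ∂μ = φ * φ := by
    have h1 : ∫ y, ∫ x, ee (t * Real.log (x * y)) ∂μ ∂μ =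
        ∫ y, ∫ x, ee (t * Real.log y) * ee (t * Real.log x) ∂μ ∂μ := by
      apply integral_congr_ae
      filter_upwards [h.ae_mem] with y hy
      apply integral_congr_ae
      filter_upwards [h.ae_mem] with x hx
      rw [Real.log_mul hx.1.ne' hy.1.ne', mul_add, add_comm, ee_add]
    rw [h1]
    simp_rw [integral_const_mul]
    rw [integral_mul_const]
  set T : ℂ := ∫ v, ∫ x, ee (t * Real.log (v + (1 - v) * x)) ∂μ ∂(mulC μ μ) with hT
  have hφT : ‖φ‖ ≤ ‖T‖ := by
    have h1 : φ = p • (φ * φ) + q • T := by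
      rw [← hbin]
      exact hrde
    have h2 : ‖φ‖ ≤ p * (‖φ‖ * ‖φ‖) + q * ‖T‖ := by
      calc ‖φ‖ = ‖p • (φ * φ) + q • T‖ := by rw [← h1]
        _ ≤ ‖p • (φ * φ)‖ + ‖q • T‖ := norm_add_le _ _
        _ = _ := by
          rw [norm_smul, norm_smul, norm_mul, Real.norm_eq_abs, Real.norm_eq_abs,
            abs_of_pos h.p_pos, abs_of_pos h.q_pos]
    have h3 : ‖φ‖ * ‖φ‖ ≤ ‖φ‖ := mul_le_of_le_one_left (norm_nonneg _) hφ1
    have h4 : p * (‖φ‖ * ‖φ‖) ≤ p * ‖φ‖ := mul_le_mul_of_nonneg_left h3 h.p_pos.le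
    have h5 : q * ‖φ‖ ≤ q * ‖T‖ := by
      have : q = 1 - p := by linarith [h.pq]
      rw [this] at h2 ⊢
      linarith
    exact le_of_mul_le_mul_left h5 h.q_pos
  have htc : 0 < t ^ (-(c / 2)) := Real.rpow_pos_of_pos ht _
  have hTb : ‖T‖ ≤ (4 * K₁ + 2 * K₂) * t ^ (-(c / 2)) := by
    have hib : Integrable (fun v : ℝ => t ^ (-(c / 2)) * (K₁ * (v ^ (-(4 * c)) +
        (1 - v) ^ (-(3 * c))) + K₂ * (1 - v) ^ (-(5 / 2 * c)))) (mulC μ μ) :=
      (((hi1.add hi2).const_mul K₁).add (hi3.const_mul K₂)).const_mul _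
    have h1 : ‖T‖ ≤ ∫ v, t ^ (-(c / 2)) * (K₁ * (v ^ (-(4 * c)) +
        (1 - v) ^ (-(3 * c))) + K₂ * (1 - v) ^ (-(5 / 2 * c))) ∂(mulC μ μ) := by
      apply norm_integral_le_of_norm_le hib
      filter_upwards [h.ae_tau_mem] with v hv
      have hv1 : 0 < 1 - v := sub_pos.2 hv.2
      have hphv : Ph (t * (1 - v)) (t * v ^ (-2 : ℝ)) (fun x => t * Real.log (v + (1 - v) * x)) := by
        have hpos : ∀ x ∈ Icc (0 : ℝ) 1, v ≤ v + (1 - v) * x ∧ v + (1 - v) * x ≤ 1 := by
          intro x hx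
          exact ⟨by nlinarith [mul_nonneg hv1.le hx.1], by nlinarith [mul_le_of_le_one_right hv1.le hx.2]⟩
        refine ⟨by fun_prop, fun x => t * ((1 - v) / (v + (1 - v) * x)), ?_, ?_, ?_⟩
        · intro x hx
          have h4 : HasDerivAt (fun x => v + (1 - v) * x) (1 - v) x := by
            simpa using ((hasDerivAt_id x).const_mul (1 - v)).const_add v
          exact (h4.log (hv.1.trans_le (hpos x hx).1).ne').const_mul t
        · intro x hx
          have h5 := (hpos x hx).2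
          have h6 := hv.1.trans_le (hpos x hx).1
          apply mul_le_mul_of_nonneg_left _ ht.le
          rw [le_div_iff₀ h6]
          nlinarith
        · intro x hx y hy
          have hx1 := (hpos x hx).1
          have hy1 := (hpos y hy).1
          have hx2 := hv.1.trans_le hx1
          have hy2 := hv.1.trans_le hy1
          have h5 : t * ((1 - v) / (v + (1 - v) * x)) - t * ((1 - v) / (v + (1 - v) * y)) =
              t * ((1 - v) ^ 2 / ((v + (1 - v) * x) * (v + (1 - v) * y))) * (y - x) := by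
            field_simp
            ring
          rw [h5, abs_mul, abs_sub_comm y x, abs_of_nonneg (by positivity)]
          apply mul_le_mul_of_nonneg_right _ (abs_nonneg _)
          apply mul_le_mul_of_nonneg_left _ ht.le
          have h6 : v ^ (-2 : ℝ) = 1 / (v * v) := by
            rw [Real.rpow_neg hv.1.le, Real.rpow_two, one_div, sq]
          rw [h6]
          have h7 : (1 - v) ^ 2 ≤ 1 := by nlinarith [hv.1, hv.2]
          exact div_le_div₀ zero_le_one h7 (mul_pos hv.1 hv.1)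
            (mul_le_mul hx1 hy1 hv.1.le hx2.le)
      have h2 := hb (t * (1 - v)) (t * v ^ (-2 : ℝ)) (mul_pos ht hv1)
        (mul_nonneg ht.le (Real.rpow_nonneg hv.1.le _)) _ hphv
      refine h2.trans ?_
      have e1 : (t * v ^ (-2 : ℝ)) ^ c * (t * (1 - v)) ^ (-(3 / 2 * c)) =
          t ^ (-(c / 2)) * (v ^ (-(2 * c)) * (1 - v) ^ (-(3 / 2 * c))) := by
        rw [Real.mul_rpow ht.le (Real.rpow_nonneg hv.1.le _), Real.mul_rpow ht.le hv1.le,
          ← Real.rpow_mul hv.1.le]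
        have h3 : t ^ c * t ^ (-(3 / 2 * c)) = t ^ (-(c / 2)) := by
          rw [← Real.rpow_add ht]
          congr 1
          ring
        have h4 : (-2 : ℝ) * c = -(2 * c) := by ring
        rw [h4, ← h3]
        ring
      have e2 : (t * (1 - v)) ^ (-(5 / 2 * c)) ≤ t ^ (-(c / 2)) * (1 - v) ^ (-(5 / 2 * c)) := by
        rw [Real.mul_rpow ht.le hv1.le]
        apply mul_le_mul_of_nonneg_right _ (Real.rpow_nonneg hv1.le _)
        exact Real.rpow_le_rpow_of_exponent_le ht1 (by linarith)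
      have e3 : v ^ (-(2 * c)) * (1 - v) ^ (-(3 / 2 * c)) ≤
          v ^ (-(4 * c)) + (1 - v) ^ (-(3 * c)) := by
        have h3 : v ^ (-(4 * c)) = (v ^ (-(2 * c))) ^ 2 := by
          rw [← Real.rpow_natCast, ← Real.rpow_mul hv.1.le]
          congr 1
          push_cast
          ring
        have h4 : (1 - v) ^ (-(3 * c)) = ((1 - v) ^ (-(3 / 2 * c))) ^ 2 := by
          rw [← Real.rpow_natCast, ← Real.rpow_mul hv1.le]
          congr 1
          push_cast
          ring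
        rw [h3, h4]
        have h5 : 0 ≤ v ^ (-(2 * c)) := Real.rpow_nonneg hv.1.le _
        have h6 : 0 ≤ (1 - v) ^ (-(3 / 2 * c)) := Real.rpow_nonneg hv1.le _
        nlinarith [sq_nonneg (v ^ (-(2 * c)) - (1 - v) ^ (-(3 / 2 * c)))]
      rw [e1]
      calc K₁ * (t ^ (-(c / 2)) * (v ^ (-(2 * c)) * (1 - v) ^ (-(3 / 2 * c)))) +
            K₂ * (t * (1 - v)) ^ (-(5 / 2 * c))
          ≤ K₁ * (t ^ (-(c / 2)) * (v ^ (-(4 * c)) + (1 - v) ^ (-(3 * c)))) +
            K₂ * (t ^ (-(c / 2)) * (1 - v) ^ (-(5 / 2 * c))) := by gcongr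
        _ = _ := by ring
    refine h1.trans ?_
    have hi12 : Integrable (fun v : ℝ => v ^ (-(4 * c)) + (1 - v) ^ (-(3 * c))) (mulC μ μ) :=
      hi1.add hi2
    rw [integral_const_mul, integral_add (hi12.const_mul K₁) (hi3.const_mul K₂),
      integral_const_mul, integral_const_mul, integral_add hi1 hi2]
    have h3 : K₁ * (∫ v, v ^ (-(4 * c)) ∂(mulC μ μ) + ∫ v, (1 - v) ^ (-(3 * c)) ∂(mulC μ μ)) ≤
        K₁ * 4 := by
      apply mul_le_mul_of_nonneg_left _ hK₁
      linarith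
    have h4 : K₂ * ∫ v, (1 - v) ^ (-(5 / 2 * c)) ∂(mulC μ μ) ≤ K₂ * 2 := by
      apply mul_le_mul_of_nonneg_left _ hK₂
      linarith
    nlinarith
  refine hφT.trans (hTb.trans ?_)
  exact mul_le_mul_of_nonneg_right (le_max_right _ _) htc.le

end MP319742
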