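import Pool.Agent.Lib.MP_319742_pr.Bootstrap

/-! Task B3: all orders for the solution of the RDE. -/

open MeasureTheory Set Filter Topology
open scoped ENNReal ContDiff

namespace MP319742

/-- Reflection `x ↦ 1 - x`. -/
noncomputable def refl (ν : Measure ℝ) : Measure ℝ := ν.map (fun x => 1 - x)

theorem measurable_refl' : Measurable (fun x : ℝ => 1 - x) := by fun_prop

instance {ν : Measure ℝ} [IsProbabilityMeasure ν] : IsProbabilityMeasure (refl ν) :=
  Measure.isProbabilityMeasure_map measurable_refl'.aemeasurable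

theorem refl_supp {ν : Measure ℝ} (h : ν (Ioo 0 1)ᶜ = 0) : refl ν (Ioo 0 1)ᶜ = 0 := by
  rw [refl, Measure.map_apply measurable_refl' measurableSet_Ioo.compl]
  have : (fun x : ℝ => 1 - x) ⁻¹' (Ioo 0 1)ᶜ = (Ioo (0 : ℝ) 1)ᶜ := by
    ext x
    simp only [mem_preimage, mem_compl_iff, mem_Ioo, sub_pos, sub_lt_self_iff]
    tauto
  rw [this, h]

theorem integral_refl {ν : Measure ℝ} {f : ℝ → ℂ} (hf : Continuous f) :
    ∫ x, f x ∂(refl ν) = ∫ x, f (1 - x) ∂ν := by
  rw [refl, integral_map measurable_refl'.aemeasurable hf.aestronglyMeasurable]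

theorem contDiff_comp_refl {w : ℝ → ℂ} (hw : ContDiff ℝ ∞ w) :
    ContDiff ℝ ∞ (fun x : ℝ => w (1 - x)) :=
  hw.comp (contDiff_const.sub contDiff_id)

theorem norm_iteratedDeriv_comp_refl (n : ℕ) (w : ℝ → ℂ) (x : ℝ) :
    ‖iteratedDeriv n (fun x : ℝ => w (1 - x)) x‖ = ‖iteratedDeriv n w (1 - x)‖ := by
  rw [iteratedDeriv_comp_const_sub]
  simp

theorem Sn.comp_refl {N : ℕ} {h K : ℝ} {w : ℝ → ℂ} (H : Sn N h K w) :
    Sn N h K (fun x : ℝ => w (1 - x)) := by
  intro i hi x
  rw [norm_iteratedDeriv_comp_refl]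
  exact H i hi _

theorem Good.refl {ν : Measure ℝ} {ε : ℝ} {m : ℕ} (hG : Good ν ε m) : Good (refl ν) ε m := by
  intro a b ha hb
  obtain ⟨N, C, hC0, H⟩ := hG (1 - b) (1 - a) (by linarith) (by linarith)
  refine ⟨N, C, hC0, fun h K hh hh1 w hw h0 hS => ?_⟩
  have h1 := H h K hh hh1 (fun x => w (1 - x)) (contDiff_comp_refl hw)
    (fun x hx => h0 _ (fun hx' => hx ⟨by linarith [hx'.2], by linarith [hx'.1]⟩)) hS.comp_refl
  rw [integral_refl (contDiff_iteratedDeriv hw m).continuous]
  refine le_trans (le_of_eq ?_) h1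
  rw [iteratedDeriv_comp_const_sub]
  simp only [integral_smul]
  rw [norm_smul]
  simp

theorem TBd.refl {ν : Measure ℝ} {ε C : ℝ} (hT : TBd ν ε C) : TBd (refl ν) ε C := by
  intro R hR v hv hv1 hv2
  have hd : ∀ x, deriv (fun x : ℝ => v (1 - x)) x = -deriv v (1 - x) := fun x => by
    rw [deriv_comp_const_sub]
  have h1 := hT R hR (fun x => v (1 - x)) (contDiff_comp_refl hv) (fun x => hv1 _)
    (fun x => by rw [hd, norm_neg]; exact hv2 _)
  simp only [hd] at h1
  rw [integral_neg, norm_neg] at h1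
  rw [integral_refl (contDiff_deriv hv).continuous]
  exact h1

theorem opl_eq_refl {ν₁ ν₂ : Measure ℝ} [SFinite ν₁] [SFinite ν₂] :
    opl ν₁ ν₂ = refl (mulC (refl ν₁) (refl ν₂)) := by
  have h1 : (refl ν₁).prod (refl ν₂) =
      (ν₁.prod ν₂).map (Prod.map (fun x : ℝ => 1 - x) (fun x : ℝ => 1 - x)) := by
    unfold refl
    rw [Measure.map_prod_map _ _ measurable_refl' measurable_refl']
  unfold opl mulC
  rw [h1, refl, Measure.map_map measurable_mul' (by fun_prop),
    Measure.map_map measurable_refl' (by fun_prop)]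
  congr 1
  funext z
  simp only [Function.comp_apply, Prod.map]
  ring

theorem Good.zero {ν : Measure ℝ} [IsProbabilityMeasure ν] {ε : ℝ} : Good ν ε 0 := by
  intro a b _ _
  refine ⟨0, 1, zero_le_one, fun h K hh hh1 w hw h0 hS => ?_⟩
  rw [iteratedDeriv_zero]
  have h1 : ∀ x, ‖w x‖ ≤ K := fun x => by
    have := hS 0 le_rfl x
    simpa using this
  have := norm_integral_le_of_norm_le_const (μ := ν) (Eventually.of_forall h1)
  simpa using this

theorem Good.opl_succ {ν₁ ν₂ : Measure ℝ} [IsProbabilityMeasure ν₁] [IsProbabilityMeasure ν₂]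
    (h₁ : ν₁ (Ioo 0 1)ᶜ = 0) (h₂ : ν₂ (Ioo 0 1)ᶜ = 0) {ε C : ℝ} (hε : 0 < ε) (hε' : ε < 1)
    (hT₁ : TBd ν₁ ε C) (hT₂ : TBd ν₂ ε C) {M : ℕ} (hG₁ : ∀ m ≤ M, Good ν₁ ε m)
    (hG₂ : ∀ m ≤ M, Good ν₂ ε m) : Good (opl ν₁ ν₂) ε (M + 1) := by
  rw [opl_eq_refl]
  exact (Good.mulC_succ (refl_supp h₁) (refl_supp h₂) hε hε' hT₁.refl hT₂.refl
    (fun m hm => (hG₁ m hm).refl) (fun m hm => (hG₂ m hm).refl)).refl

/-- B3. All orders for the solution of the RDE (uses B1 for `(μ, μ)` and for the reflected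
measures). -/
theorem Sol.good {p q : ℝ} {μ : Measure ℝ} (h : Sol p q μ) {ε C : ℝ} (hε : 0 < ε) (hε' : ε < 1)
    (hT : TBd μ ε C) (hT' : TBd (mulC μ μ) ε C) (m : ℕ) : Good μ ε m := by
  have := h.prob
  have key : ∀ M : ℕ, (∀ m ≤ M, Good μ ε m) ∧ ∀ m ≤ M, Good (mulC μ μ) ε m := by
    intro M
    induction M with
    | zero =>
      constructor
      · intro m hm
        obtain rfl : m = 0 := by omega
        exact Good.zero
      · intro m hm
        obtain rfl : m = 0 := by omega
        exact Good.zero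
    | succ M ih =>
      obtain ⟨ih1, ih2⟩ := ih
      have g1 : Good (mulC μ μ) ε (M + 1) :=
        Good.mulC_succ h.supp h.supp hε hε' hT hT ih1 ih1
      have g2 : Good (opl μ (mulC μ μ)) ε (M + 1) :=
        Good.opl_succ h.supp h.tau_supp hε hε' hT hT' ih1 ih2
      have g3 : Good μ ε (M + 1) := by
        intro a b ha hb
        obtain ⟨N₁, C₁, hC₁, H₁⟩ := g1 a b ha hb
        obtain ⟨N₂, C₂, hC₂, H₂⟩ := g2 a b ha hb
        have hp := h.p_pos
        have hq := h.q_pos
        refine ⟨max N₁ N₂, p * C₁ + q * C₂, by positivity, fun r K hr hr1 w hw h0 hS => ?_⟩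
        have e1 := H₁ r K hr hr1 w hw h0 (hS.mono (le_max_left _ _))
        have e2 := H₂ r K hr hr1 w hw h0 (hS.mono (le_max_right _ _))
        set W := iteratedDeriv (M + 1) w with hW
        have hWc : Continuous W := (contDiff_iteratedDeriv hw _).continuous
        have hWs : HasCompactSupport W :=
          hasCompactSupport_of_off (iteratedDeriv_eq_zero_off h0 _)
        have i1 : Integrable W (mulC μ μ) := hWc.integrable_of_hasCompactSupport hWs
        have i2 : Integrable W (opl μ (mulC μ μ)) := hWc.integrable_of_hasCompactSupport hWs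
        have hsum : ∫ x, W x ∂μ =
            (p : ℂ) * ∫ x, W x ∂(mulC μ μ) + (q : ℂ) * ∫ x, W x ∂(opl μ (mulC μ μ)) := by
          calc ∫ x, W x ∂μ
              = ∫ x, W x ∂(ENNReal.ofReal p • mulC μ μ +
                  ENNReal.ofReal q • opl μ (mulC μ μ)) := by rw [← h.rde]
            _ = _ := by
              rw [integral_add_measure (i1.smul_measure (by simp)) (i2.smul_measure (by simp)),
                integral_smul_measure, integral_smul_measure, ENNReal.toReal_ofReal hp.le,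
                ENNReal.toReal_ofReal hq.le, Complex.real_smul, Complex.real_smul]
        rw [hsum]
        calc ‖(p : ℂ) * ∫ x, W x ∂(mulC μ μ) + (q : ℂ) * ∫ x, W x ∂(opl μ (mulC μ μ))‖
            ≤ p * ‖∫ x, W x ∂(mulC μ μ)‖ + q * ‖∫ x, W x ∂(opl μ (mulC μ μ))‖ := by
              refine (norm_add_le _ _).trans (le_of_eq ?_)
              rw [norm_mul, norm_mul, Complex.norm_real, Complex.norm_real, Real.norm_eq_abs,
                Real.norm_eq_abs, abs_of_pos hp, abs_of_pos hq]
          _ ≤ p * (C₁ * K * r ^ (-(((M + 1 : ℕ) : ℝ) * (1 - ε)))) +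
              q * (C₂ * K * r ^ (-(((M + 1 : ℕ) : ℝ) * (1 - ε)))) := by gcongr
          _ = (p * C₁ + q * C₂) * K * r ^ (-(((M + 1 : ℕ) : ℝ) * (1 - ε))) := by ring
      constructor
      · intro m hm
        rcases Nat.lt_or_ge M m with hlt | hge
        · obtain rfl : m = M + 1 := by omega
          exact g3
        · exact ih1 m hge
      · intro m hm
        rcases Nat.lt_or_ge M m with hlt | hge
        · obtain rfl : m = M + 1 := by omega
          exact g1
        · exact ih2 m hge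
  exact (key m).1 m le_rfl

end MP319742
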