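import Pool.Agent.Lib.MP_319742_pr.DerivBound

/-! Task W2 of MP_319742_pr: smoothness bound for the law of a product of many independent
copies. -/

open MeasureTheory Set
open scoped ENNReal ContDiff

namespace MP319742

/-! ### The powers `mulPow μ k` -/

theorem mulC_dirac_one (μ : Measure ℝ) [SFinite μ] : mulC (Measure.dirac 1) μ = μ := by
  rw [mulC, Measure.dirac_prod, Measure.map_map measurable_mul' measurable_prodMk_left]
  have : (fun z : ℝ × ℝ => z.1 * z.2) ∘ Prod.mk 1 = id := by
    ext x; simp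
  rw [this, Measure.map_id]

theorem mulPow_one (μ : Measure ℝ) [SFinite μ] : mulPow μ 1 = μ := mulC_dirac_one μ

theorem mulPow_supp {μ : Measure ℝ} [IsProbabilityMeasure μ] (h : μ (Ioo 0 1)ᶜ = 0) (k : ℕ) :
    mulPow μ (k + 1) (Ioo 0 1)ᶜ = 0 := by
  induction k with
  | zero => rw [zero_add, mulPow_one]; exact h
  | succ k ih => exact mulC_supp ih h

theorem mulPow_integrable_rpow {μ : Measure ℝ} [IsProbabilityMeasure μ]
    (h : μ (Ioo 0 1)ᶜ = 0) {a : ℝ} (hmom : Integrable (fun x => x ^ a) μ) (k : ℕ) :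
    Integrable (fun x => x ^ a) (mulPow μ (k + 1)) := by
  induction k with
  | zero => rw [zero_add, mulPow_one]; exact hmom
  | succ k ih =>
    change Integrable _ (mulC (mulPow μ (k + 1)) μ)
    unfold mulC
    have hm : Measurable (fun x : ℝ => x ^ a) := by fun_prop
    rw [integrable_map_measure hm.aestronglyMeasurable measurable_mul'.aemeasurable]
    refine (ih.mul_prod hmom).congr ?_
    have h1 : ∀ᵐ z ∂((mulPow μ (k + 1)).prod μ), z.1 ∈ Ioo (0 : ℝ) 1 :=
      Measure.quasiMeasurePreserving_fst.ae (ae_mem_of_supp (mulPow_supp h k))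
    have h2 : ∀ᵐ z ∂((mulPow μ (k + 1)).prod μ), z.2 ∈ Ioo (0 : ℝ) 1 :=
      Measure.quasiMeasurePreserving_snd.ae (ae_mem_of_supp h)
    filter_upwards [h1, h2] with z hz1 hz2
    simp only [Function.comp_apply]
    rw [Real.mul_rpow hz1.1.le hz2.1.le]

theorem norm_cexp_I_mul (t y : ℝ) : ‖Complex.exp (Complex.I * t * y)‖ = 1 := by
  rw [Complex.norm_exp]
  simp

theorem mulPow_char {μ : Measure ℝ} [IsProbabilityMeasure μ]
    (h : μ (Ioo 0 1)ᶜ = 0) (t : ℝ) (k : ℕ) :
    ∫ x, Complex.exp (Complex.I * t * Real.log x) ∂(mulPow μ (k + 1)) =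
      (∫ x, Complex.exp (Complex.I * t * Real.log x) ∂μ) ^ (k + 1) := by
  induction k with
  | zero => rw [zero_add, mulPow_one, pow_one]
  | succ k ih =>
    change ∫ x, _ ∂(mulC (mulPow μ (k + 1)) μ) = _
    have hmeas : Measurable (fun x : ℝ => Complex.exp (Complex.I * t * Real.log x)) := by fun_prop
    rw [integral_mulC (Integrable.of_bound hmeas.aestronglyMeasurable 1
      (Filter.Eventually.of_forall fun x => (norm_cexp_I_mul t _).le))]
    have h1 : ∀ᵐ x ∂(mulPow μ (k + 1)),
        ∫ y, Complex.exp (Complex.I * t * Real.log (x * y)) ∂μ =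
          Complex.exp (Complex.I * t * Real.log x) *
            ∫ y, Complex.exp (Complex.I * t * Real.log y) ∂μ := by
      filter_upwards [ae_mem_of_supp (mulPow_supp h k)] with x hx
      rw [← integral_const_mul]
      apply integral_congr_ae
      filter_upwards [ae_mem_of_supp h] with y hy
      rw [Real.log_mul hx.1.ne' hy.1.ne', ← Complex.exp_add]
      congr 1
      push_cast
      ring
    rw [integral_congr_ae h1, integral_mul_const, ih, ← pow_succ]

theorem char_neg {μ : Measure ℝ} (t : ℝ) :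
    ∫ x, Complex.exp (Complex.I * (-t : ℝ) * Real.log x) ∂μ =
      (starRingEnd ℂ) (∫ x, Complex.exp (Complex.I * t * Real.log x) ∂μ) := by
  rw [← integral_conj]
  apply integral_congr_ae
  filter_upwards with x
  rw [← Complex.exp_conj]
  congr 1
  simp

/-- The derivative of the smooth transition is bounded. -/
theorem exists_transition_bound : ∃ D : ℝ, 0 ≤ D ∧ ∀ x, |deriv Real.smoothTransition x| ≤ D := by
  have hc : Continuous (deriv Real.smoothTransition) :=
    (Real.smoothTransition.contDiff (n := 1)).continuous_deriv le_rfl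
  have hs : HasCompactSupport (deriv Real.smoothTransition) := by
    apply HasCompactSupport.intro (isCompact_Icc (a := (0 : ℝ)) (b := 1))
    intro x hx
    rw [mem_Icc, not_and_or, not_le, not_le] at hx
    rcases hx with hx | hx
    · have : Real.smoothTransition =ᶠ[nhds x] fun _ => 0 := by
        filter_upwards [Iio_mem_nhds hx] with y hy
        exact Real.smoothTransition.zero_of_nonpos (le_of_lt hy)
      rw [this.deriv_eq]; simp
    · have : Real.smoothTransition =ᶠ[nhds x] fun _ => 1 := by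
        filter_upwards [Ioi_mem_nhds hx] with y hy
        exact Real.smoothTransition.one_of_one_le (le_of_lt hy)
      rw [this.deriv_eq]; simp
  obtain ⟨D, hD⟩ := hc.bounded_above_of_compact_support hs
  exact ⟨D, (norm_nonneg _).trans (hD 0), hD⟩

/-- The cutoff `ζ(s)`, equal to `1` on `[log ρ, 0]` and to `0` off `[log ρ - 1, 1]`. -/
noncomputable def zet (a : ℝ) (s : ℝ) : ℝ :=
  Real.smoothTransition (s - a + 1) * Real.smoothTransition (1 - s)

theorem zet_nonneg (a s : ℝ) : 0 ≤ zet a s :=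
  mul_nonneg (Real.smoothTransition.nonneg _) (Real.smoothTransition.nonneg _)

theorem zet_le_one (a s : ℝ) : zet a s ≤ 1 :=
  mul_le_one₀ (Real.smoothTransition.le_one _) (Real.smoothTransition.nonneg _)
    (Real.smoothTransition.le_one _)

theorem zet_eq_one {a s : ℝ} (h1 : a ≤ s) (h2 : s ≤ 0) : zet a s = 1 := by
  rw [zet, Real.smoothTransition.one_of_one_le (by linarith),
    Real.smoothTransition.one_of_one_le (by linarith), one_mul]

theorem zet_eq_zero_left {a s : ℝ} (h1 : s ≤ a - 1) : zet a s = 0 := by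
  rw [zet, Real.smoothTransition.zero_of_nonpos (by linarith), zero_mul]

theorem zet_eq_zero_right {a s : ℝ} (h1 : 1 ≤ s) : zet a s = 0 := by
  rw [zet, Real.smoothTransition.zero_of_nonpos (x := 1 - s) (by linarith), mul_zero]

theorem zet_contDiff (a : ℝ) : ContDiff ℝ ∞ (zet a) := by
  unfold zet
  apply ContDiff.mul
  · exact (Real.smoothTransition.contDiff (n := ⊤)).comp (by fun_prop)
  · exact (Real.smoothTransition.contDiff (n := ⊤)).comp (by fun_prop)

theorem zet_hasDerivAt (a s : ℝ) : HasDerivAt (zet a) (deriv (zet a) s) s :=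
  ((zet_contDiff a).differentiable (by simp) s).hasDerivAt

theorem abs_deriv_zet_le {D : ℝ} (hD : ∀ x, |deriv Real.smoothTransition x| ≤ D) (a s : ℝ) :
    |deriv (zet a) s| ≤ 2 * D := by
  have h1 : HasDerivAt (fun s => Real.smoothTransition (s - a + 1))
      (deriv Real.smoothTransition (s - a + 1) * 1) s :=
    HasDerivAt.comp (h₂ := Real.smoothTransition) s
      (((Real.smoothTransition.contDiff (n := 1)).differentiable (by simp) _).hasDerivAt)
      (((hasDerivAt_id s).sub_const a).add_const 1)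
  have h2 : HasDerivAt (fun s => Real.smoothTransition (1 - s))
      (deriv Real.smoothTransition (1 - s) * (-1)) s :=
    HasDerivAt.comp (h₂ := Real.smoothTransition) s
      (((Real.smoothTransition.contDiff (n := 1)).differentiable (by simp) _).hasDerivAt)
      ((hasDerivAt_id s).const_sub 1)
  have h3 := (h1.mul h2).deriv
  change deriv (zet a) s = _ at h3
  rw [h3]
  have e1 := hD (s - a + 1)
  have e2 := hD (1 - s)
  have f1 := Real.smoothTransition.nonneg (s - a + 1)
  have f2 := Real.smoothTransition.nonneg (1 - s)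
  have g1 := Real.smoothTransition.le_one (s - a + 1)
  have g2 := Real.smoothTransition.le_one (1 - s)
  have hD0 : 0 ≤ D := (abs_nonneg _).trans e1
  calc _ ≤ |deriv Real.smoothTransition (s - a + 1) * 1 * Real.smoothTransition (1 - s)| +
        |Real.smoothTransition (s - a + 1) * (deriv Real.smoothTransition (1 - s) * -1)| :=
        abs_add_le _ _
    _ ≤ D * 1 + 1 * D := by
        rw [mul_one, abs_mul, abs_mul, mul_neg_one, abs_neg, abs_of_nonneg f1, abs_of_nonneg f2]
        gcongr
    _ = 2 * D := by ring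

/-- The test function `G(s) = ζ(s) e^{-s} v(e^s)`. -/
noncomputable def tG (a : ℝ) (v : ℝ → ℂ) (s : ℝ) : ℂ :=
  ((zet a s * Real.exp (-s) : ℝ) : ℂ) * v (Real.exp s)

theorem tG_contDiff (a : ℝ) {v : ℝ → ℂ} (hv : ContDiff ℝ ∞ v) : ContDiff ℝ ∞ (tG a v) := by
  unfold tG
  apply ContDiff.mul
  · apply Complex.ofRealCLM.contDiff.comp
    exact (zet_contDiff a).mul (Real.contDiff_exp.comp contDiff_neg)
  · exact hv.comp Real.contDiff_exp

theorem tG_compact (a : ℝ) (v : ℝ → ℂ) : HasCompactSupport (tG a v) := by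
  apply HasCompactSupport.intro (isCompact_Icc (a := a - 1) (b := 1))
  intro x hx
  rw [mem_Icc, not_and_or, not_le, not_le] at hx
  have : zet a x = 0 := by
    rcases hx with hx | hx
    · exact zet_eq_zero_left hx.le
    · exact zet_eq_zero_right hx.le
  simp [tG, this]

theorem tG_norm_integral_le (a : ℝ) {v : ℝ → ℂ} (hv1 : ∀ x, ‖v x‖ ≤ 1) :
    ∫ s, ‖tG a v s‖ ≤ Real.exp (1 - a) := by
  have h1 : ∫ s : ℝ, (Ioi (a - 1)).indicator (fun s => Real.exp (-s)) s = Real.exp (1 - a) := by
    rw [integral_indicator measurableSet_Ioi, integral_exp_neg_Ioi]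
    congr 1; ring
  rw [← h1]
  apply integral_mono_of_nonneg
  · exact Filter.Eventually.of_forall fun s => norm_nonneg _
  · rw [integrable_indicator_iff measurableSet_Ioi]
    exact integrableOn_exp_neg_Ioi _
  · refine Filter.Eventually.of_forall fun s => ?_
    simp only
    by_cases hs : s ∈ Ioi (a - 1)
    · rw [indicator_of_mem hs, tG, norm_mul, Complex.norm_real, Real.norm_eq_abs, abs_mul,
        abs_of_nonneg (zet_nonneg a s), abs_of_nonneg (Real.exp_pos _).le]
      have e1 := zet_le_one a s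
      have e2 := zet_nonneg a s
      have e3 := hv1 (Real.exp s)
      have e4 := (Real.exp_pos (-s)).le
      calc zet a s * Real.exp (-s) * ‖v (Real.exp s)‖ ≤ 1 * Real.exp (-s) * 1 := by gcongr
        _ = _ := by ring
    · rw [indicator_of_notMem hs]
      have : zet a s = 0 := zet_eq_zero_left (by simpa using hs)
      simp [tG, this]

theorem tG_deriv (a : ℝ) {v : ℝ → ℂ} (hv : ContDiff ℝ ∞ v) (s : ℝ) :
    deriv (tG a v) s = ((deriv (zet a) s - zet a s : ℝ) : ℂ) * (Real.exp (-s) : ℝ) *
      v (Real.exp s) + (zet a s : ℂ) * deriv v (Real.exp s) := by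
  have h1 : HasDerivAt (fun s => zet a s * Real.exp (-s))
      (deriv (zet a) s * Real.exp (-s) + zet a s * (Real.exp (-s) * (-1))) s :=
    (zet_hasDerivAt a s).mul ((Real.hasDerivAt_exp (-s)).comp s (hasDerivAt_neg s))
  have h2 : HasDerivAt (fun s => v (Real.exp s)) (Real.exp s • deriv v (Real.exp s)) s :=
    HasDerivAt.scomp s ((hv.differentiable (by simp) _).hasDerivAt) (Real.hasDerivAt_exp s)
  have h3 := (h1.ofReal_comp.mul h2).deriv
  change deriv (tG a v) s = _ at h3
  rw [h3]
  have h4 : ((Real.exp (-s) : ℝ) : ℂ) * (Real.exp s : ℝ) = 1 := by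
    rw [← Complex.ofReal_mul, ← Real.exp_add]; simp
  rw [Complex.real_smul]
  push_cast at h4 ⊢
  linear_combination ((zet a s : ℂ) * deriv v (Real.exp s)) * h4

theorem smooth_deriv_continuous {G : ℝ → ℂ} (hG : ContDiff ℝ ∞ G) : Continuous (deriv G) :=
  hG.continuous_deriv (by simp)

/-- Pointwise comparison of `v'` with the derivative of the test function. -/
theorem pointwise_bound {D : ℝ} (hD : ∀ x, |deriv Real.smoothTransition x| ≤ D)
    {ρ : ℝ} (hρ : 0 < ρ) {c₁ : ℝ} (hc₁ : 0 < c₁) {v : ℝ → ℂ}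
    (hv : ContDiff ℝ ∞ v) (hv1 : ∀ x, ‖v x‖ ≤ 1) {R : ℝ} (hR : 0 ≤ R)
    (hv2 : ∀ x, ‖deriv v x‖ ≤ R) {w : ℝ} (hw : w ∈ Ioo (0 : ℝ) 1) :
    ‖deriv v w - deriv (tG (Real.log ρ) v) (Real.log w)‖ ≤
      R * ρ ^ c₁ * w ^ (-c₁) + (2 * D + 1) * (Real.exp 1 / ρ) := by
  have hD0 : 0 ≤ D := (abs_nonneg _).trans (hD 0)
  set a := Real.log ρ with ha
  set s := Real.log w with hs
  have hexp : Real.exp s = w := Real.exp_log hw.1
  have hs0 : s < 0 := Real.log_neg hw.1 hw.2
  rw [tG_deriv a hv, hexp]
  have h1 : deriv v w - (((deriv (zet a) s - zet a s : ℝ) : ℂ) * (Real.exp (-s) : ℝ) * v w +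
      (zet a s : ℂ) * deriv v w) = ((1 - zet a s : ℝ) : ℂ) * deriv v w -
      (((deriv (zet a) s - zet a s) * Real.exp (-s) : ℝ) : ℂ) * v w := by
    push_cast; ring
  rw [h1]
  refine (norm_sub_le _ _).trans (add_le_add ?_ ?_)
  · rw [norm_mul, Complex.norm_real, Real.norm_eq_abs]
    by_cases hlt : w < ρ
    · have e1 : |1 - zet a s| ≤ 1 := by
        rw [abs_le]; constructor <;> linarith [zet_nonneg a s, zet_le_one a s]
      have e2 : 1 ≤ ρ ^ c₁ * w ^ (-c₁) := by
        rw [Real.rpow_neg hw.1.le, ← div_eq_mul_inv, ← Real.div_rpow hρ.le hw.1.le]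
        apply Real.one_le_rpow _ hc₁.le
        rw [le_div_iff₀ hw.1, one_mul]; exact hlt.le
      calc |1 - zet a s| * ‖deriv v w‖ ≤ 1 * R := by
            gcongr
            exact hv2 w
        _ = R * 1 := by ring
        _ ≤ R * (ρ ^ c₁ * w ^ (-c₁)) := by gcongr
        _ = _ := by ring
    · rw [not_lt] at hlt
      have : zet a s = 1 := zet_eq_one (Real.log_le_log hρ hlt) hs0.le
      rw [this, sub_self, abs_zero, zero_mul]
      have := hw.1
      positivity
  · rw [norm_mul, Complex.norm_real, Real.norm_eq_abs]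
    by_cases hsa : s ≤ a - 1
    · have hz : zet a s = 0 := zet_eq_zero_left hsa
      have hz' : deriv (zet a) s = 0 := by
        have : IsLocalMin (zet a) s := by
          filter_upwards with y
          rw [hz]; exact zet_nonneg a y
        exact this.deriv_eq_zero
      rw [hz, hz', sub_zero, zero_mul, abs_zero, zero_mul]
      positivity
    · rw [not_le] at hsa
      have e1 : Real.exp (-s) ≤ Real.exp 1 / ρ := by
        have : Real.exp 1 / ρ = Real.exp (1 - a) := by
          rw [Real.exp_sub, ha, Real.exp_log hρ]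
        rw [this]
        exact Real.exp_le_exp.2 (by linarith)
      have e2 : |deriv (zet a) s - zet a s| ≤ 2 * D + 1 := by
        calc _ ≤ |deriv (zet a) s| + |zet a s| := abs_sub _ _
          _ ≤ 2 * D + 1 := add_le_add (abs_deriv_zet_le hD a s) (by
              rw [abs_of_nonneg (zet_nonneg a s)]; exact zet_le_one a s)
      rw [abs_mul, abs_of_nonneg (Real.exp_pos (-s)).le]
      calc |deriv (zet a) s - zet a s| * Real.exp (-s) * ‖v w‖
          ≤ (2 * D + 1) * (Real.exp 1 / ρ) * 1 := by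
            gcongr
            exact hv1 w
        _ = _ := by ring

/-- W2. Bound for a product of many independent copies. -/
theorem product_bound {μ : Measure ℝ} [IsProbabilityMeasure μ] (hsupp : μ (Ioo 0 1)ᶜ = 0)
    {c K : ℝ} (hc : 0 < c)
    (hdec : ∀ t : ℝ, 0 < t → ‖∫ x, Complex.exp (Complex.I * t * Real.log x) ∂μ‖ ≤ K * t ^ (-c))
    {c₁ : ℝ} (hc₁ : 0 < c₁) (hmom : Integrable (fun x => x ^ (-c₁)) μ) :
    ∃ k : ℕ, 1 ≤ k ∧ ∃ ε C : ℝ, 0 < ε ∧ ε < 1 ∧ TBd (mulPow μ k) ε C := by
  obtain ⟨j, hj⟩ := exists_nat_ge (3 / c)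
  have hW := mulPow_supp hsupp j
  have hWmom := mulPow_integrable_rpow hsupp hmom j
  have hchar := fun t => mulPow_char hsupp t j
  set W := mulPow μ (j + 1) with hWdef
  set ψ : ℝ → ℂ := fun t => ∫ x, Complex.exp (Complex.I * t * Real.log x) ∂W with hψdef
  set B := max K 1 with hBdef
  have hB : 1 ≤ B := le_max_right _ _
  have hBk : 1 ≤ B ^ (j + 1) := one_le_pow₀ hB
  have hψ1 : ∀ t, ‖ψ t‖ ≤ 1 := by
    intro t
    refine (norm_integral_le_of_norm_le_const (C := 1)
      (Filter.Eventually.of_forall fun x => (norm_cexp_I_mul t _).le)).trans ?_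
    simp
  have hψpos : ∀ t : ℝ, 0 < t → ‖ψ t‖ ≤ B ^ (j + 1) * t ^ (-(c * (j + 1))) := by
    intro t ht
    have e1 : ψ t = (∫ x, Complex.exp (Complex.I * t * Real.log x) ∂μ) ^ (j + 1) := hchar t
    rw [e1, norm_pow]
    have e2 : ‖∫ x, Complex.exp (Complex.I * t * Real.log x) ∂μ‖ ≤ B * t ^ (-c) := by
      refine (hdec t ht).trans ?_
      gcongr
      exact le_max_left _ _
    calc _ ≤ (B * t ^ (-c)) ^ (j + 1) := by gcongr
      _ = B ^ (j + 1) * t ^ (-(c * (j + 1))) := by
        rw [mul_pow, ← Real.rpow_natCast (t ^ (-c)), ← Real.rpow_mul ht.le]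
        congr 2
        push_cast; ring
  have hψabs : ∀ t : ℝ, ‖ψ t‖ = ‖ψ |t|‖ := by
    intro t
    rcases le_total 0 t with h | h
    · rw [abs_of_nonneg h]
    · rw [abs_of_nonpos h]
      have : ψ (-t) = (starRingEnd ℂ) (ψ t) := char_neg (μ := W) t
      rw [this, RCLike.norm_conj]
  have hψ : ∀ t : ℝ, ‖ψ t‖ * |t| ^ 3 ≤ B ^ (j + 1) := by
    intro t
    rcases le_total |t| 1 with h | h
    · calc ‖ψ t‖ * |t| ^ 3 ≤ 1 * 1 := by
            apply mul_le_mul (hψ1 t) (pow_le_one₀ (abs_nonneg _) h) (by positivity) (by norm_num)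
        _ ≤ B ^ (j + 1) := by linarith
    · have ht : 0 < |t| := by linarith
      rw [hψabs t]
      have e1 : |t| ^ (-(c * (j + 1))) * |t| ^ 3 ≤ 1 := by
        rw [← Real.rpow_natCast |t| 3, ← Real.rpow_add ht]
        apply Real.rpow_le_one_of_one_le_of_nonpos h
        have : 3 ≤ c * j := by
          rw [div_le_iff₀ hc] at hj; linarith
        push_cast; nlinarith
      calc ‖ψ |t|‖ * |t| ^ 3 ≤ (B ^ (j + 1) * |t| ^ (-(c * (j + 1)))) * |t| ^ 3 := by
            gcongr; exact hψpos _ ht
        _ = B ^ (j + 1) * (|t| ^ (-(c * (j + 1))) * |t| ^ 3) := by ring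
        _ ≤ B ^ (j + 1) * 1 := by gcongr
        _ = _ := mul_one _
  have hlogm : Measurable Real.log := Real.measurable_log
  have hνp : IsProbabilityMeasure (W.map Real.log) :=
    Measure.isProbabilityMeasure_map hlogm.aemeasurable
  obtain ⟨C₁, hC₁⟩ := deriv_bound_of_decay (ν := W.map Real.log) (K := B ^ (j + 1)) (by
    intro t
    rw [integral_map hlogm.aemeasurable (by
      apply Continuous.aestronglyMeasurable
      fun_prop)]
    exact hψ t)
  obtain ⟨D, hD0, hD⟩ := exists_transition_bound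
  set M := ∫ x, x ^ (-c₁) ∂W with hM
  have hM0 : 0 ≤ M := by
    apply integral_nonneg_of_ae
    filter_upwards [ae_mem_of_supp hW] with x hx
    have := hx.1
    positivity
  have h1ε : 1 - c₁ / (1 + c₁) = 1 / (1 + c₁) := by field_simp; ring
  refine ⟨j + 1, by omega, c₁ / (1 + c₁),
    max 1 (|C₁| * Real.exp 1 + M + (2 * D + 1) * Real.exp 1), by positivity, ?_, ?_⟩
  · rw [div_lt_one (by positivity)]; linarith
  intro R hR v hv hv1 hv2
  rw [h1ε]
  have hint : Integrable (deriv v) W :=
    integrable_of_bdd hW (smooth_deriv_continuous hv).aestronglyMeasurable (C := R)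
      (fun x _ => hv2 x)
  rcases le_or_gt R 1 with hR1 | hR1
  · have e1 : ‖∫ x, deriv v x ∂W‖ ≤ R := norm_integral_le_of_bdd hW (fun x _ => hv2 x)
    have e2 : R ≤ R ^ (1 / (1 + c₁)) := by
      conv_lhs => rw [← Real.rpow_one R]
      apply Real.rpow_le_rpow_of_exponent_ge hR hR1
      rw [div_le_one (by positivity)]; linarith
    calc ‖∫ x, deriv v x ∂W‖ ≤ 1 * R ^ (1 / (1 + c₁)) := by rw [one_mul]; exact e1.trans e2
      _ ≤ _ := by
        gcongr
        exact le_max_left _ _
  · set ρ : ℝ := R ^ (-(1 / (1 + c₁))) with hρdef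
    have hρ : 0 < ρ := by positivity
    have hinv : 1 / ρ = R ^ (1 / (1 + c₁)) := by
      rw [hρdef, Real.rpow_neg hR.le, one_div, inv_inv]
    have hRρ : R * ρ ^ c₁ = R ^ (1 / (1 + c₁)) := by
      rw [hρdef, ← Real.rpow_mul hR.le]
      conv_lhs => rw [← Real.rpow_one R, ← Real.rpow_mul hR.le, one_mul]
      rw [← Real.rpow_add hR]
      congr 1
      field_simp
      ring
    set G := tG (Real.log ρ) v with hGdef
    have hG := tG_contDiff (Real.log ρ) hv
    have hGc : HasCompactSupport G := tG_compact (Real.log ρ) v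
    have hG'c : Continuous (deriv G) := smooth_deriv_continuous hG
    have e1 := hC₁ G hG hGc
    have e2 : ∫ s, ‖G s‖ ≤ Real.exp 1 / ρ := by
      refine (tG_norm_integral_le (Real.log ρ) hv1).trans_eq ?_
      rw [Real.exp_sub, Real.exp_log hρ]
    have e2' : 0 ≤ ∫ s, ‖G s‖ := integral_nonneg fun _ => norm_nonneg _
    rw [integral_map hlogm.aemeasurable hG'c.aestronglyMeasurable] at e1
    have hGint : Integrable (fun w => deriv G (Real.log w)) W := by
      obtain ⟨b, hb⟩ := hG'c.bounded_above_of_compact_support hGc.deriv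
      exact Integrable.of_bound (hG'c.measurable.comp hlogm).aestronglyMeasurable b
        (Filter.Eventually.of_forall fun x => hb _)
    have e3 : ∫ x, deriv v x ∂W = ∫ x, deriv G (Real.log x) ∂W +
        ∫ x, (deriv v x - deriv G (Real.log x)) ∂W := by
      rw [integral_sub hint hGint]; ring
    have e4 : ‖∫ x, (deriv v x - deriv G (Real.log x)) ∂W‖ ≤
        ∫ x, (R * ρ ^ c₁ * x ^ (-c₁) + (2 * D + 1) * (Real.exp 1 / ρ)) ∂W := by
      apply norm_integral_le_of_norm_le
      · exact (hWmom.const_mul _).add (integrable_const _)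
      · filter_upwards [ae_mem_of_supp hW] with w hw
        exact pointwise_bound hD hρ hc₁ hv hv1 hR.le hv2 hw
    rw [integral_add (hWmom.const_mul _) (integrable_const _), integral_const_mul, ← hM,
      integral_const, probReal_univ, one_smul, hRρ] at e4
    have e5 : Real.exp 1 / ρ = Real.exp 1 * R ^ (1 / (1 + c₁)) := by
      rw [← hinv]; ring
    rw [e5] at e4 e2
    have e6 : C₁ * ∫ s, ‖G s‖ ≤ |C₁| * (Real.exp 1 * R ^ (1 / (1 + c₁))) := by
      calc C₁ * ∫ s, ‖G s‖ ≤ |C₁| * ∫ s, ‖G s‖ := by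
            gcongr
            exact le_abs_self _
        _ ≤ _ := by gcongr
    calc ‖∫ x, deriv v x ∂W‖ ≤ ‖∫ x, deriv G (Real.log x) ∂W‖ +
          ‖∫ x, (deriv v x - deriv G (Real.log x)) ∂W‖ := by rw [e3]; exact norm_add_le _ _
      _ ≤ |C₁| * (Real.exp 1 * R ^ (1 / (1 + c₁))) + (R ^ (1 / (1 + c₁)) * M +
          (2 * D + 1) * (Real.exp 1 * R ^ (1 / (1 + c₁)))) :=
          add_le_add (e1.trans e6) e4
      _ = (|C₁| * Real.exp 1 + M + (2 * D + 1) * Real.exp 1) * R ^ (1 / (1 + c₁)) := by ring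
      _ ≤ _ := by
        gcongr
        exact le_max_right _ _

end MP319742
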