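import Pool.Agent.Lib.MP_319742_pr.Defs

/-! Task R: reduction of the RDE `η = χ (η₁ + (1 - η₁) η₂ η₃)` to the atom-free part. -/

open MeasureTheory Set
open scoped ENNReal ContDiff

namespace MP319742

/-- The law of `χ`. -/
noncomputable def chi (α : ℝ) : Measure ℝ :=
  ENNReal.ofReal (1 / (α + 1)) • Measure.dirac 0 + ENNReal.ofReal (α / (α + 1)) • Measure.dirac 1

/-- `ν` solves the RDE `η = χ (η₁ + (1 - η₁) η₂ η₃)`. -/
def SolvesRDE (α : ℝ) (ν : Measure ℝ) : Prop :=
  ν = ((chi α).prod (ν.prod (ν.prod ν))).map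
    (fun w => w.1 * (w.2.1 + (1 - w.2.1) * w.2.2.1 * w.2.2.2))

instance (α : ℝ) : IsFiniteMeasure (chi α) := by
  unfold chi
  have h1 : IsFiniteMeasure (ENNReal.ofReal (1 / (α + 1)) • Measure.dirac (0 : ℝ)) :=
    Measure.smul_finite _ ENNReal.ofReal_ne_top
  have h2 : IsFiniteMeasure (ENNReal.ofReal (α / (α + 1)) • Measure.dirac (1 : ℝ)) :=
    Measure.smul_finite _ ENNReal.ofReal_ne_top
  infer_instance

theorem measurable_rde : Measurable
    (fun w : ℝ × ℝ × ℝ × ℝ => w.1 * (w.2.1 + (1 - w.2.1) * w.2.2.1 * w.2.2.2)) := by fun_prop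

section

variable {α : ℝ} {ν : Measure ℝ} [IsProbabilityMeasure ν]

/-- The RDE, for nonnegative integrals. -/
theorem lintegral_solves (hν : SolvesRDE α ν) {F : ℝ → ℝ≥0∞} (hF : Measurable F) :
    ∫⁻ x, F x ∂ν = ENNReal.ofReal (1 / (α + 1)) * F 0 +
      ENNReal.ofReal (α / (α + 1)) *
        ∫⁻ x, ∫⁻ y, ∫⁻ z, F (x + (1 - x) * y * z) ∂ν ∂ν ∂ν := by
  calc ∫⁻ x, F x ∂ν
      = ∫⁻ x, F x ∂(((chi α).prod (ν.prod (ν.prod ν))).map
          (fun w => w.1 * (w.2.1 + (1 - w.2.1) * w.2.2.1 * w.2.2.2))) := by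
        rw [← hν]
    _ = ∫⁻ s, ∫⁻ x, ∫⁻ y, ∫⁻ z, F (s * (x + (1 - x) * y * z)) ∂ν ∂ν ∂ν ∂(chi α) := by
        rw [lintegral_map hF measurable_rde, lintegral_prod _ (by fun_prop)]
        refine lintegral_congr fun s => ?_
        rw [lintegral_prod _ (by fun_prop)]
        refine lintegral_congr fun x => ?_
        rw [lintegral_prod _ (by fun_prop)]
    _ = _ := by
        rw [chi, lintegral_add_measure, lintegral_smul_measure, lintegral_smul_measure,
          lintegral_dirac, lintegral_dirac]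
        simp

/-- The RDE, for Bochner integrals. -/
theorem integral_solves (hα : 0 < α) (hν : SolvesRDE α ν) {F : ℝ → ℝ} (hF : Integrable F ν) :
    ∫ x, F x ∂ν = (1 / (α + 1)) * F 0 + (α / (α + 1)) *
      ∫ r, F (r.1 + (1 - r.1) * r.2.1 * r.2.2) ∂(ν.prod (ν.prod ν)) := by
  have h0 : Integrable F (((chi α).prod (ν.prod (ν.prod ν))).map
          (fun w => w.1 * (w.2.1 + (1 - w.2.1) * w.2.2.1 * w.2.2.2))) := by
    rw [← hν]; exact hF
  have h1 := h0
  rw [integrable_map_measure h0.aestronglyMeasurable measurable_rde.aemeasurable] at h1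
  have h2 := h1.integral_prod_left
  calc ∫ x, F x ∂ν
      = ∫ x, F x ∂(((chi α).prod (ν.prod (ν.prod ν))).map
          (fun w => w.1 * (w.2.1 + (1 - w.2.1) * w.2.2.1 * w.2.2.2))) := by
        rw [← hν]
    _ = ∫ s, ∫ r, F (s * (r.1 + (1 - r.1) * r.2.1 * r.2.2)) ∂(ν.prod (ν.prod ν)) ∂(chi α) := by
        rw [integral_map measurable_rde.aemeasurable h0.aestronglyMeasurable]
        exact integral_prod _ h1
    _ = _ := by
        simp only [Function.comp_apply] at h2
        rw [chi, integrable_add_measure] at h2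
        rw [chi, integral_add_measure h2.1 h2.2, integral_smul_measure, integral_smul_measure,
          integral_dirac, integral_dirac, ENNReal.toReal_ofReal (by positivity),
          ENNReal.toReal_ofReal (by positivity)]
        simp

/-- Scalar equations. -/
theorem scalar_eq (hα : 0 < α) (hsupp : ν (Icc 0 1)ᶜ = 0) (hν : SolvesRDE α ν) {G : ℝ → ℝ}
    (hG : Measurable G) (hb : ∀ x ∈ Icc (0 : ℝ) 1, |G x| ≤ 1) (h0 : G 0 = 0)
    (hmul : ∀ x ∈ Icc (0 : ℝ) 1, ∀ y ∈ Icc (0 : ℝ) 1, ∀ z ∈ Icc (0 : ℝ) 1,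
      G (x + (1 - x) * y * z) = G x + (1 - G x) * (G y * G z)) :
    Integrable G ν ∧ ∫ x, G x ∂ν = (α / (α + 1)) *
      (∫ x, G x ∂ν + (1 - ∫ x, G x ∂ν) * ((∫ x, G x ∂ν) * ∫ x, G x ∂ν)) := by
  have hae : ∀ᵐ x ∂ν, x ∈ Icc (0 : ℝ) 1 := by rw [ae_iff]; exact hsupp
  have hint : Integrable G ν := by
    refine Integrable.of_bound hG.aestronglyMeasurable 1 ?_
    filter_upwards [hae] with x hx using hb x hx
  refine ⟨hint, ?_⟩
  have h1 : ∀ᵐ r ∂(ν.prod (ν.prod ν)), r.1 ∈ Icc (0 : ℝ) 1 :=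
    Measure.quasiMeasurePreserving_fst.ae hae
  have h2' : ∀ᵐ r ∂(ν.prod ν), r.1 ∈ Icc (0 : ℝ) 1 :=
    Measure.quasiMeasurePreserving_fst.ae hae
  have h3' : ∀ᵐ r ∂(ν.prod ν), r.2 ∈ Icc (0 : ℝ) 1 :=
    Measure.quasiMeasurePreserving_snd.ae hae
  have h2 : ∀ᵐ r ∂(ν.prod (ν.prod ν)), r.2.1 ∈ Icc (0 : ℝ) 1 :=
    Measure.quasiMeasurePreserving_snd.ae h2'
  have h3 : ∀ᵐ r ∂(ν.prod (ν.prod ν)), r.2.2 ∈ Icc (0 : ℝ) 1 :=
    Measure.quasiMeasurePreserving_snd.ae h3'
  have hI2 : Integrable (fun s : ℝ × ℝ => G s.1 * G s.2) (ν.prod ν) := hint.mul_prod hint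
  have hI1 : Integrable (fun r : ℝ × ℝ × ℝ => (1 - G r.1) * (G r.2.1 * G r.2.2))
      (ν.prod (ν.prod ν)) :=
    Integrable.mul_prod (f := fun x => 1 - G x) (g := fun s : ℝ × ℝ => G s.1 * G s.2)
      ((integrable_const _).sub hint) hI2
  have hI0 : Integrable (fun r : ℝ × ℝ × ℝ => G r.1) (ν.prod (ν.prod ν)) := hint.comp_fst _
  have key : ∫ r, G (r.1 + (1 - r.1) * r.2.1 * r.2.2) ∂(ν.prod (ν.prod ν)) =
      ∫ x, G x ∂ν + (1 - ∫ x, G x ∂ν) * ((∫ x, G x ∂ν) * ∫ x, G x ∂ν) := by
    calc ∫ r, G (r.1 + (1 - r.1) * r.2.1 * r.2.2) ∂(ν.prod (ν.prod ν))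
        = ∫ r, (G r.1 + (1 - G r.1) * (G r.2.1 * G r.2.2)) ∂(ν.prod (ν.prod ν)) := by
          apply integral_congr_ae
          filter_upwards [h1, h2, h3] with r hr1 hr2 hr3
          exact hmul _ hr1 _ hr2 _ hr3
      _ = _ := by
          rw [integral_add hI0 hI1, integral_fun_fst,
            integral_prod_mul (f := fun x => 1 - G x) (g := fun s : ℝ × ℝ => G s.1 * G s.2),
            integral_prod_mul, integral_sub (integrable_const _) hint]
          simp
  have := integral_solves hα hν hint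
  rw [key, h0, mul_zero, zero_add] at this
  exact this

theorem scalar_alt {α z : ℝ} (hα : 0 < α) (h : z = (α / (α + 1)) * (z + (1 - z) * (z * z))) :
    z = 0 ∨ α * (z - z ^ 2) = 1 := by
  have h1 : (α + 1) * z = α * (z + (1 - z) * (z * z)) := by
    have h2 : α + 1 ≠ 0 := by positivity
    calc (α + 1) * z = (α + 1) * ((α / (α + 1)) * (z + (1 - z) * (z * z))) := by rw [← h]
      _ = _ := by field_simp
  have h2 : z * (α * (z - z ^ 2) - 1) = 0 := by nlinarith
  rcases mul_eq_zero.1 h2 with h3 | h3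
  · exact Or.inl h3
  · exact Or.inr (by linarith)

/-- The three scalar quantities: mass at one, mean, mass of `(0, 1]`. -/
theorem masses (hα : 0 < α) (hsupp : ν (Icc 0 1)ᶜ = 0) (hν : SolvesRDE α ν)
    (hnt : 0 < ν (Ioo 0 1)) :
    ν {1} = 0 ∧ ∃ w : ℝ, 1 / 2 < w ∧ w < 1 ∧ α * (w - w ^ 2) = 1 ∧ ν.real {0} = 1 - w := by
  have hae : ∀ᵐ x ∂ν, x ∈ Icc (0 : ℝ) 1 := by rw [ae_iff]; exact hsupp
  obtain ⟨hiu, hu⟩ := scalar_eq hα hsupp hν (G := indicator {1} (fun _ => (1 : ℝ)))
    (measurable_const.indicator (measurableSet_singleton 1))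
    (by
      intro x hx
      by_cases h : x = 1
      · simp [h]
      · simp [indicator, h])
    (by simp [indicator])
    (by
      intro x hx y hy z hz
      by_cases h : x = 1
      · simp [h]
      · have hx1 : x < 1 := lt_of_le_of_ne hx.2 h
        by_cases h' : y = 1 ∧ z = 1
        · obtain ⟨rfl, rfl⟩ := h'
          simp [indicator, h]
        · have hyz : y * z < 1 := by
            rcases not_and_or.1 h' with h'' | h''
            · have : y < 1 := lt_of_le_of_ne hy.2 h''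
              nlinarith [hz.1, hz.2, hy.1]
            · have : z < 1 := lt_of_le_of_ne hz.2 h''
              nlinarith [hz.1, hz.2, hy.1, hy.2]
          have h3 : x + (1 - x) * y * z ≠ 1 := by
            have : (1 - x) * (y * z) < (1 - x) * 1 := by
              apply mul_lt_mul_of_pos_left hyz; linarith
            nlinarith
          rcases not_and_or.1 h' with h'' | h''
          · simp [indicator, h, h3, h'']
          · simp [indicator, h, h3, h''])
  obtain ⟨hiw, hw⟩ := scalar_eq hα hsupp hν (G := indicator (Ioi 0) (fun _ => (1 : ℝ)))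
    (measurable_const.indicator measurableSet_Ioi)
    (by
      intro x hx
      by_cases h : 0 < x
      · simp [indicator, h]
      · simp [indicator, h])
    (by simp [indicator])
    (by
      intro x hx y hy z hz
      by_cases h : 0 < x
      · have h3 : 0 < x + (1 - x) * y * z := by
          have : 0 ≤ (1 - x) * y * z :=
            mul_nonneg (mul_nonneg (by linarith [hx.2]) hy.1) hz.1
          linarith
        simp [indicator, h, h3]
      · have hx0 : x = 0 := le_antisymm (not_lt.1 h) hx.1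
        subst hx0
        by_cases hy0 : 0 < y
        · by_cases hz0 : 0 < z
          · have h3 : 0 < y * z := mul_pos hy0 hz0
            simp [indicator, hy0, hz0, h3]
          · have : z = 0 := le_antisymm (not_lt.1 hz0) hz.1
            simp [indicator, this]
        · have : y = 0 := le_antisymm (not_lt.1 hy0) hy.1
          simp [indicator, this])
  obtain ⟨him, hm⟩ := scalar_eq hα hsupp hν (G := fun x => x)
    measurable_id (by intro x hx; rw [abs_le]; constructor <;> linarith [hx.1, hx.2]) rfl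
    (by intro x hx y hy z hz; ring)
  set u := ∫ x, indicator {1} (fun _ => (1 : ℝ)) x ∂ν with hudef
  set w := ∫ x, indicator (Ioi 0) (fun _ => (1 : ℝ)) x ∂ν with hwdef
  set m := ∫ x, x ∂ν with hmdef
  have hu0 : u = ν.real {1} := by
    rw [hudef, integral_indicator (measurableSet_singleton 1)]
    simp [Measure.real]
  have hw0 : w = ν.real (Ioi 0) := by
    rw [hwdef, integral_indicator measurableSet_Ioi]
    simp
  have hum : u < m := by
    have h1 : 0 < ∫ x, (x - indicator {1} (fun _ => (1 : ℝ)) x) ∂ν := by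
      refine (integral_pos_iff_support_of_nonneg_ae ?_ (him.sub hiu)).2 ?_
      rotate_left
      · refine lt_of_lt_of_le hnt (measure_mono ?_)
        intro x hx
        have : x ≠ 1 := hx.2.ne
        simp [this, hx.1.ne']
      · filter_upwards [hae] with x hx
        by_cases h : x = 1
        · simp [h]
        · simp [h, hx.1]
    rw [integral_sub him hiu] at h1
    linarith
  have hmw : m < w := by
    have h1 : 0 < ∫ x, (indicator (Ioi 0) (fun _ => (1 : ℝ)) x - x) ∂ν := by
      refine (integral_pos_iff_support_of_nonneg_ae ?_ (hiw.sub him)).2 ?_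
      rotate_left
      · refine lt_of_lt_of_le hnt (measure_mono ?_)
        intro x hx
        have : 1 - x ≠ 0 := by linarith [hx.2] |> fun h : 0 < 1 - x => h.ne'
        simp [indicator, hx.1, this]
      · filter_upwards [hae] with x hx
        by_cases h : 0 < x
        · simp [indicator, h, hx.2]
        · have : x = 0 := le_antisymm (not_lt.1 h) hx.1
          simp [this]
    rw [integral_sub hiw him] at h1
    linarith
  have hu_nn : 0 ≤ u := by rw [hu0]; exact measureReal_nonneg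
  rcases scalar_alt hα hw with h1 | h1
  · exfalso; linarith
  rcases scalar_alt hα hm with h2 | h2
  · exfalso; linarith
  have hmw1 : m + w = 1 := by
    have h3 : α * ((w - m) * (1 - (m + w))) = 0 := by linarith [h1, h2] |> fun h : α * (w - w ^ 2) = α * (m - m ^ 2) => by nlinarith
    rcases mul_eq_zero.1 h3 with h4 | h4
    · exact absurd h4 hα.ne'
    · rcases mul_eq_zero.1 h4 with h5 | h5
      · exfalso; linarith
      · linarith
  have hu1 : u = 0 := by
    rcases scalar_alt hα hu with h3 | h3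
    · exact h3
    · exfalso
      have h4 : α * ((w - u) * (1 - (u + w))) = 0 := by
        have h : α * (w - w ^ 2) = α * (u - u ^ 2) := by linarith
        nlinarith
      rcases mul_eq_zero.1 h4 with h4 | h4
      · exact absurd h4 hα.ne'
      · rcases mul_eq_zero.1 h4 with h5 | h5
        · linarith
        · linarith
  refine ⟨?_, w, by linarith, ?_, h1, ?_⟩
  · rw [hu1] at hu0
    exact (measureReal_eq_zero_iff).1 hu0.symm
  · by_contra h
    push Not at h
    have : α * (w - w ^ 2) ≤ 0 := by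
      apply mul_nonpos_of_nonneg_of_nonpos hα.le
      nlinarith
    linarith
  · rw [hw0]
    have h3 : ν.real (Ioi 0) + ν.real {0} = 1 := by
      rw [← measureReal_union (by simp) (measurableSet_singleton 0)]
      have h4 : ν (Ioi 0 ∪ {0}) = 1 := by
        rw [← prob_compl_eq_zero_iff (measurableSet_Ioi.union (measurableSet_singleton 0))]
        refine measure_mono_null ?_ hsupp
        intro x hx hx'
        apply hx
        rcases hx'.1.lt_or_eq with h5 | h5
        · exact Or.inl h5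
        · exact Or.inr h5.symm
      rw [Measure.real, h4, ENNReal.toReal_one]
    linarith

/-- Expansion of the triple integral over `ν = a δ₀ + W μ`. -/
theorem triple_expand {μ : Measure ℝ} [IsProbabilityMeasure μ] {a W : ℝ≥0∞}
    {f : ℝ → ℝ≥0∞} (hf : Measurable f) (f0 : f 0 = 0) :
    ∫⁻ x, ∫⁻ y, ∫⁻ z, f (x + (1 - x) * y * z) ∂(a • Measure.dirac 0 + W • μ)
      ∂(a • Measure.dirac 0 + W • μ) ∂(a • Measure.dirac 0 + W • μ) =
    a * (W * (W * ∫⁻ y, ∫⁻ z, f (y * z) ∂μ ∂μ)) +
      W * (a * (a * ∫⁻ x, f x ∂μ + W * ∫⁻ x, f x ∂μ) +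
        W * (a * ∫⁻ x, f x ∂μ + W * ∫⁻ x, ∫⁻ y, ∫⁻ z, f (x + (1 - x) * y * z) ∂μ ∂μ ∂μ)) := by
  have inner : ∀ x y, ∫⁻ z, f (x + (1 - x) * y * z) ∂(a • Measure.dirac 0 + W • μ) =
      a * f x + W * ∫⁻ z, f (x + (1 - x) * y * z) ∂μ := by
    intro x y
    rw [lintegral_add_measure, lintegral_smul_measure, lintegral_smul_measure, lintegral_dirac]
    simp
  have hm1 : Measurable (fun w : ℝ × ℝ => ∫⁻ z, f (w.1 + (1 - w.1) * w.2 * z) ∂μ) := by
    apply Measurable.lintegral_prod_right' (f := fun w : (ℝ × ℝ) × ℝ =>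
      f (w.1.1 + (1 - w.1.1) * w.1.2 * w.2))
    fun_prop
  have hm1' : ∀ x, Measurable (fun y => ∫⁻ z, f (x + (1 - x) * y * z) ∂μ) := fun x =>
    hm1.comp (f := fun y : ℝ => (x, y)) (by fun_prop)
  have hm2 : Measurable (fun x => ∫⁻ y, ∫⁻ z, f (x + (1 - x) * y * z) ∂μ ∂μ) :=
    hm1.lintegral_prod_right'
  have mid : ∀ x, ∫⁻ y, ∫⁻ z, f (x + (1 - x) * y * z) ∂(a • Measure.dirac 0 + W • μ)
      ∂(a • Measure.dirac 0 + W • μ) =
      a * (a * f x + W * f x) +
        W * (a * f x + W * ∫⁻ y, ∫⁻ z, f (x + (1 - x) * y * z) ∂μ ∂μ) := by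
    intro x
    simp_rw [inner]
    rw [lintegral_add_measure, lintegral_smul_measure, lintegral_smul_measure, lintegral_dirac,
      lintegral_add_left (by fun_prop), lintegral_const_mul _ (hm1' x)]
    simp
  simp_rw [mid]
  rw [lintegral_add_measure, lintegral_smul_measure, lintegral_smul_measure, lintegral_dirac,
    lintegral_add_left (by fun_prop), lintegral_const_mul _ (by fun_prop),
    lintegral_add_left (by fun_prop), lintegral_const_mul _ (by fun_prop),
    lintegral_const_mul _ (by fun_prop), lintegral_const_mul _ (by fun_prop),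
    lintegral_add_left (by fun_prop), lintegral_const_mul _ (by fun_prop),
    lintegral_const_mul _ (by fun_prop)]
  simp [f0]

end

/-- R. Reduction to `Sol`. -/
theorem reduction {α : ℝ} (hα : 4 < α) {ν : Measure ℝ} [IsProbabilityMeasure ν]
    (hsupp : ν (Icc 0 1)ᶜ = 0) (hν : SolvesRDE α ν) (hnt : 0 < ν (Ioo 0 1)) :
    ∃ p q w : ℝ, ∃ μ : Measure ℝ, 0 < w ∧ Sol p q μ ∧
      ν.restrict ({0} : Set ℝ)ᶜ = ENNReal.ofReal w • μ := by
  have hα0 : 0 < α := by linarith
  obtain ⟨hν1, w, hw, hw1, hwα, hν0⟩ := masses hα0 hsupp hν hnt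
  have hw0 : 0 < w := by linarith
  set W := ENNReal.ofReal w with hWdef
  have hWpos : W ≠ 0 := by rw [hWdef]; simpa using hw0
  have hWtop : W ≠ ⊤ := ENNReal.ofReal_ne_top
  have hν0' : ν {0} = ENNReal.ofReal (1 - w) := by
    rw [← hν0, Measure.real, ENNReal.ofReal_toReal (measure_ne_top _ _)]
  set μ : Measure ℝ := W⁻¹ • ν.restrict ({0} : Set ℝ)ᶜ with hμdef
  have hWμ : ν.restrict ({0} : Set ℝ)ᶜ = W • μ := by
    rw [hμdef, smul_smul, ENNReal.mul_inv_cancel hWpos hWtop, one_smul]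
  have hmass : ν ({0} : Set ℝ)ᶜ = W := by
    have h1 := prob_compl_eq_one_sub (μ := ν) (measurableSet_singleton (0 : ℝ))
    rw [h1, hν0', hWdef, ← ENNReal.ofReal_one, ← ENNReal.ofReal_sub _ (by linarith)]
    congr 1
    ring
  have hprob : IsProbabilityMeasure μ := by
    constructor
    rw [hμdef, Measure.smul_apply, Measure.restrict_apply_univ, hmass, smul_eq_mul,
      ENNReal.inv_mul_cancel hWpos hWtop]
  have hμsupp : μ (Ioo 0 1)ᶜ = 0 := by
    rw [hμdef, Measure.smul_apply, Measure.restrict_apply measurableSet_Ioo.compl, smul_eq_mul]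
    have : ν ((Ioo 0 1)ᶜ ∩ {0}ᶜ) = 0 := by
      refine measure_mono_null (t := (Icc 0 1)ᶜ ∪ {1}) ?_ (by
        rw [measure_union_null_iff]; exact ⟨hsupp, hν1⟩)
      rintro x ⟨hx1, hx2⟩
      by_cases h1 : x = 1
      · exact Or.inr h1
      · refine Or.inl fun h2 => hx1 ⟨lt_of_le_of_ne h2.1 (fun h => hx2 h.symm),
          lt_of_le_of_ne h2.2 h1⟩
    rw [this, mul_zero]
  have hdec : ν = ENNReal.ofReal (1 - w) • Measure.dirac 0 + W • μ := by
    rw [← hWμ]
    calc ν = ν.restrict {0} + ν.restrict ({0} : Set ℝ)ᶜ :=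
          (Measure.restrict_add_restrict_compl (measurableSet_singleton 0)).symm
      _ = _ := by rw [Measure.restrict_singleton, hν0']
  refine ⟨1 - w, w, w, μ, hw0, ⟨hprob, by linarith, by linarith, by ring, hμsupp, ?_⟩, hWμ⟩
  clear_value μ
  -- the RDE
  have key : ∀ f : ℝ → ℝ≥0∞, Measurable f → f 0 = 0 → (∀ x, f x ≤ 1) →
      ∫⁻ x, f x ∂μ = ENNReal.ofReal (1 - w) * ∫⁻ y, ∫⁻ z, f (y * z) ∂μ ∂μ +
        ENNReal.ofReal w * ∫⁻ x, ∫⁻ y, ∫⁻ z, f (x + (1 - x) * y * z) ∂μ ∂μ ∂μ := by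
    intro f hf f0 f1
    have h1 := lintegral_solves hν hf
    rw [f0, mul_zero, zero_add, hdec, triple_expand hf f0, lintegral_add_measure,
      lintegral_smul_measure, lintegral_smul_measure, lintegral_dirac, f0] at h1
    have hle : ∀ g : ℝ → ℝ≥0∞, (∀ x, g x ≤ 1) → ∫⁻ x, g x ∂μ ≤ 1 := by
      intro g hg
      calc ∫⁻ x, g x ∂μ ≤ ∫⁻ _, 1 ∂μ := lintegral_mono hg
        _ = 1 := by simp
    have hI : ∫⁻ x, f x ∂μ ≠ ⊤ := ((hle _ f1).trans_lt ENNReal.one_lt_top).ne
    have hJ : ∫⁻ y, ∫⁻ z, f (y * z) ∂μ ∂μ ≠ ⊤ :=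
      ((hle _ fun y => hle _ fun z => f1 _).trans_lt ENNReal.one_lt_top).ne
    have hL : ∫⁻ x, ∫⁻ y, ∫⁻ z, f (x + (1 - x) * y * z) ∂μ ∂μ ∂μ ≠ ⊤ :=
      ((hle _ fun x => hle _ fun y => hle _ fun z => f1 _).trans_lt ENNReal.one_lt_top).ne
    generalize ∫⁻ x, f x ∂μ = I at *
    generalize ∫⁻ y, ∫⁻ z, f (y * z) ∂μ ∂μ = J at *
    generalize ∫⁻ x, ∫⁻ y, ∫⁻ z, f (x + (1 - x) * y * z) ∂μ ∂μ ∂μ = L at *
    lift I to NNReal using hI
    lift J to NNReal using hJ
    lift L to NNReal using hL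
    have e : ∀ r : NNReal, (r : ℝ≥0∞) = ENNReal.ofReal (r : ℝ) := fun r => by simp
    rw [e I, e J, e L] at h1 ⊢
    have hw1' : 0 ≤ 1 - w := by linarith
    have hc : 0 ≤ α / (α + 1) := by positivity
    have hI0 : 0 ≤ (I : ℝ) := I.2
    have hJ0 : 0 ≤ (J : ℝ) := J.2
    have hL0 : 0 ≤ (L : ℝ) := L.2
    generalize (I : ℝ) = i at *
    generalize (J : ℝ) = j at *
    generalize (L : ℝ) = l at *
    have h2 : w * i = (α / (α + 1)) * ((1 - w) * (w * (w * j)) + w * ((1 - w) * ((1 - w) * i +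
        w * i) + w * ((1 - w) * i + w * l))) := by
      rw [hWdef] at h1
      simp only [smul_eq_mul, mul_zero, zero_add] at h1
      have n1 : 0 ≤ w * (w * j) := by positivity
      have n2 : 0 ≤ (1 - w) * i := by positivity
      have n3 : 0 ≤ w * i := by positivity
      have n4 : 0 ≤ w * l := by positivity
      have n5 : 0 ≤ (1 - w) * ((1 - w) * i + w * i) := by positivity
      have n6 : 0 ≤ w * ((1 - w) * i + w * l) := by positivity
      have n7 : 0 ≤ (1 - w) * (w * (w * j)) := by positivity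
      have n8 : 0 ≤ w * ((1 - w) * ((1 - w) * i + w * i) + w * ((1 - w) * i + w * l)) := by
        positivity
      rw [← ENNReal.ofReal_mul hw0.le, ← ENNReal.ofReal_mul hw0.le, ← ENNReal.ofReal_mul hw0.le,
        ← ENNReal.ofReal_mul hw0.le, ← ENNReal.ofReal_mul hw1', ← ENNReal.ofReal_mul hw1',
        ← ENNReal.ofReal_add n2 n3, ← ENNReal.ofReal_add n2 n4, ← ENNReal.ofReal_mul hw1',
        ← ENNReal.ofReal_mul hw0.le, ← ENNReal.ofReal_add n5 n6, ← ENNReal.ofReal_mul hw0.le,
        ← ENNReal.ofReal_add n7 n8, ← ENNReal.ofReal_mul hc] at h1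
      exact (ENNReal.ofReal_eq_ofReal_iff n3 (by positivity)).1 h1
    rw [← ENNReal.ofReal_mul hw1', ← ENNReal.ofReal_mul hw0.le,
      ← ENNReal.ofReal_add (by positivity) (by positivity)]
    congr 1
    have h3 : (α + 1) * (w * i) = α * ((1 - w) * (w * (w * j)) + w * ((1 - w) * ((1 - w) * i +
        w * i) + w * ((1 - w) * i + w * l))) := by
      have h3' : ∀ X, w * i = (α / (α + 1)) * X → (α + 1) * (w * i) = α * X := by
        intro X hX
        rw [hX]
        field_simp
      exact h3' _ h2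
    have h4 : α * w * (w * i) = α * w * (w * ((1 - w) * j + w * l)) := by
      linear_combination h3 + w * i * hwα
    have h6 : α * w ≠ 0 := by positivity
    exact mul_left_cancel₀ hw0.ne' (mul_left_cancel₀ h6 h4)
  have := hprob
  have htau : mulC μ μ (Ioo 0 1)ᶜ = 0 := mulC_supp hμsupp hμsupp
  refine Measure.ext fun A hA => ?_
  have hA' : MeasurableSet (A ∩ Ioo 0 1) := hA.inter measurableSet_Ioo
  have hcut : ∀ ρ : Measure ℝ, ρ (Ioo 0 1)ᶜ = 0 → ρ A = ∫⁻ x, indicator (A ∩ Ioo 0 1) 1 x ∂ρ := by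
    intro ρ hρ
    rw [lintegral_indicator_one hA']
    exact (measure_inter_conull' (by
      refine measure_mono_null ?_ hρ
      exact fun x hx => hx.2)).symm
  rw [Measure.add_apply, Measure.smul_apply, Measure.smul_apply, hcut _ hμsupp,
    hcut _ htau, hcut _ (opl_supp hμsupp htau), key _ (measurable_one.indicator hA')
      (by simp) (by intro x; exact indicator_le_self' (by simp) x |>.trans (by simp))]
  congr 2
  · rw [lintegral_mulC (measurable_one.indicator hA')]
  · rw [lintegral_opl (measurable_one.indicator hA')]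
    refine lintegral_congr fun x => ?_
    rw [lintegral_mulC (by
      exact (measurable_one.indicator hA').comp (by fun_prop))]
    refine lintegral_congr fun y => lintegral_congr fun z => ?_
    congr 1
    ring

end MP319742
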