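import Pool.Agent.Lib.MP_319742_pr.Defs

/-! Task S1: a probability measure on `(0,1)` all of whose smooth localisations have rapidly
decreasing Fourier transform has a smooth density on `(0,1)`. -/

open MeasureTheory Set
open scoped ENNReal ContDiff FourierTransform

namespace MP319742

section S1

variable {μ : Measure ℝ}

/-- Fourier transform of `χ μ`, with a constant `c` in the exponent. -/
noncomputable def ftm (μ : Measure ℝ) (c : ℂ) (χ : ℝ → ℂ) (t : ℝ) : ℂ :=
  ∫ x, χ x * Complex.exp (c * t * x) ∂μ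

theorem bdd_of_supp {χ : ℝ → ℂ} (hχ : Continuous χ) {a b : ℝ} (h0 : ∀ x, x ∉ Icc a b → χ x = 0) :
    ∃ C : ℝ, 0 ≤ C ∧ ∀ x, ‖χ x‖ ≤ C := by
  have h1 : HasCompactSupport χ := HasCompactSupport.intro isCompact_Icc h0
  obtain ⟨C, hC⟩ := hχ.bounded_above_of_compact_support h1
  exact ⟨C, (norm_nonneg _).trans (hC 0), hC⟩

theorem norm_exp_eq_one {c : ℂ} (hc : c.re = 0) (t x : ℝ) : ‖Complex.exp (c * t * x)‖ = 1 := by
  rw [Complex.norm_exp]
  simp [hc]

theorem hasDerivAt_ftm [IsProbabilityMeasure μ] {c : ℂ} (hc : c.re = 0) {χ : ℝ → ℂ}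
    (hχ : Continuous χ) {a b : ℝ} (h0 : ∀ x, x ∉ Icc a b → χ x = 0) (t : ℝ) :
    HasDerivAt (ftm μ c χ) (ftm μ c (fun x => c * x * χ x) t) t := by
  obtain ⟨C, hC0, hC⟩ := bdd_of_supp hχ h0
  have h0' : ∀ x, x ∉ Icc a b → (fun x : ℝ => c * x * χ x) x = 0 := fun x hx => by
    simp [h0 x hx]
  obtain ⟨C', hC0', hC'⟩ := bdd_of_supp (χ := fun x : ℝ => c * x * χ x) (by fun_prop) h0'
  have key := hasDerivAt_integral_of_dominated_loc_of_deriv_le (μ := μ) (𝕜 := ℝ)
    (F := fun t x => χ x * Complex.exp (c * t * x))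
    (F' := fun t x => c * x * χ x * Complex.exp (c * t * x)) (x₀ := t)
    (s := univ) (bound := fun _ => C') Filter.univ_mem
    (Filter.Eventually.of_forall fun s => (by fun_prop : Continuous fun x : ℝ =>
      χ x * Complex.exp (c * s * x)).aestronglyMeasurable)
    (Integrable.of_bound (by fun_prop : Continuous fun x : ℝ =>
      χ x * Complex.exp (c * t * x)).aestronglyMeasurable C (Filter.Eventually.of_forall fun x => by
        rw [norm_mul, norm_exp_eq_one hc, mul_one]; exact hC x))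
    (by fun_prop : Continuous fun x : ℝ =>
      c * x * χ x * Complex.exp (c * t * x)).aestronglyMeasurable
    (Filter.Eventually.of_forall fun x s _ => by
      rw [norm_mul, norm_exp_eq_one hc, mul_one]; exact hC' x)
    (integrable_const _)
    (Filter.Eventually.of_forall fun x s _ => by
      have h1 : HasDerivAt (fun s : ℝ => (c * s * x : ℂ)) (c * x) s := by
        have h2 : HasDerivAt (fun s : ℝ => (s : ℂ)) 1 s := Complex.ofRealCLM.hasDerivAt
        have h3 := (h2.const_mul c).mul_const (x : ℂ)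
        simpa using h3
      have h4 := h1.cexp.const_mul (χ x)
      have h5 : c * x * χ x * Complex.exp (c * s * x) =
          χ x * (Complex.exp (c * s * x) * (c * x)) := by ring
      show HasDerivAt (fun s : ℝ => χ x * Complex.exp (c * s * x))
        (c * x * χ x * Complex.exp (c * s * x)) s
      rw [h5]
      exact h4)
  exact key.2

theorem iteratedDeriv_ftm [IsProbabilityMeasure μ] {c : ℂ} (hc : c.re = 0) (n : ℕ) :
    ∀ {χ : ℝ → ℂ}, Continuous χ → ∀ {a b : ℝ}, (∀ x, x ∉ Icc a b → χ x = 0) →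
    iteratedDeriv n (ftm μ c χ) = ftm μ c (fun x => (c * x) ^ n * χ x) := by
  induction n with
  | zero => intro χ hχ a b h0; simp
  | succ n ih =>
    intro χ hχ a b h0
    have h1 : deriv (ftm μ c χ) = ftm μ c (fun x => c * x * χ x) :=
      funext fun t => (hasDerivAt_ftm hc hχ h0 t).deriv
    rw [iteratedDeriv_succ', h1]
    rw [ih (χ := fun x => c * x * χ x) (by fun_prop) (a := a) (b := b)
      (fun x hx => by simp [h0 x hx])]
    congr 1
    ext x
    ring

theorem contDiff_ftm [IsProbabilityMeasure μ] {c : ℂ} (hc : c.re = 0) {χ : ℝ → ℂ}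
    (hχ : Continuous χ) {a b : ℝ} (h0 : ∀ x, x ∉ Icc a b → χ x = 0) :
    ContDiff ℝ ∞ (ftm μ c χ) := by
  apply contDiff_of_differentiable_iteratedDeriv
  intro m _
  rw [iteratedDeriv_ftm hc m hχ h0]
  intro t
  exact (hasDerivAt_ftm hc (χ := fun x => (c * x) ^ m * χ x) (by fun_prop) (a := a) (b := b)
    (fun x hx => by simp [h0 x hx]) t).differentiableAt

theorem norm_ftm_le [IsProbabilityMeasure μ] {c : ℂ} (hc : c.re = 0) {χ : ℝ → ℂ} {C : ℝ}
    (hC : ∀ x, ‖χ x‖ ≤ C) (t : ℝ) : ‖ftm μ c χ t‖ ≤ C := by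
  have := norm_integral_le_of_norm_le_const (μ := μ) (f := fun x => χ x * Complex.exp (c * t * x))
    (C := C) (Filter.Eventually.of_forall fun x => by
      rw [norm_mul, norm_exp_eq_one hc, mul_one]; exact hC x)
  simpa [ftm] using this

/-- The hypothesis of rapid decay. -/
def RapidDecay (μ : Measure ℝ) : Prop :=
  ∀ (a b : ℝ), 0 < a → b < 1 → ∀ χ : ℝ → ℂ, ContDiff ℝ ∞ χ →
      (∀ x, x ∉ Icc a b → χ x = 0) → ∀ k : ℕ, ∃ C : ℝ, ∀ t : ℝ, 1 ≤ |t| →
        ‖∫ x, χ x * Complex.exp (Complex.I * t * x) ∂μ‖ * |t| ^ k ≤ C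

/-- `-2πi`. -/
noncomputable def c0 : ℂ := -(2 * Real.pi) * Complex.I

theorem c0_re : c0.re = 0 := by simp [c0]

theorem ftm_decay [IsProbabilityMeasure μ] (hdec : RapidDecay μ) {a b : ℝ} (ha : 0 < a)
    (hb : b < 1) {χ : ℝ → ℂ} (hχ : ContDiff ℝ ∞ χ) (h0 : ∀ x, x ∉ Icc a b → χ x = 0) (k : ℕ) :
    ∃ C : ℝ, ∀ t : ℝ, |t| ^ k * ‖ftm μ c0 χ t‖ ≤ C := by
  obtain ⟨C₁, hC₁⟩ := hdec a b ha hb χ hχ h0 k
  obtain ⟨C₂, hC0, hC₂⟩ := bdd_of_supp hχ.continuous h0
  refine ⟨max C₁ C₂, fun t => ?_⟩
  have hpi : (1 : ℝ) ≤ 2 * Real.pi := by linarith [Real.pi_gt_three]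
  rcases le_or_gt 1 |t| with ht | ht
  · have h1 : 1 ≤ |-(2 * Real.pi) * t| := by
      rw [abs_mul, abs_neg, abs_of_pos (by positivity : 0 < 2 * Real.pi)]
      nlinarith [abs_nonneg t]
    have h2 := hC₁ _ h1
    have h3 : (∫ x, χ x * Complex.exp (Complex.I * ((-(2 * Real.pi) * t : ℝ) : ℂ) * x) ∂μ) =
        ftm μ c0 χ t := by
      unfold ftm c0
      congr 1
      ext x
      congr 2
      push_cast
      ring
    rw [h3] at h2
    refine le_trans ?_ (le_max_left _ _)
    refine le_trans ?_ h2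
    rw [mul_comm]
    apply mul_le_mul_of_nonneg_left _ (norm_nonneg _)
    apply pow_le_pow_left₀ (abs_nonneg _)
    rw [abs_mul, abs_neg, abs_of_pos (by positivity : 0 < 2 * Real.pi)]
    nlinarith [abs_nonneg t]
  · refine le_trans ?_ (le_max_right _ _)
    have h1 : |t| ^ k ≤ 1 := pow_le_one₀ (abs_nonneg _) ht.le
    have h2 := norm_ftm_le (μ := μ) c0_re hC₂ t
    calc |t| ^ k * ‖ftm μ c0 χ t‖ ≤ 1 * C₂ :=
          mul_le_mul h1 h2 (norm_nonneg _) zero_le_one
      _ = C₂ := one_mul _

/-- The Fourier transform as a Schwartz function. -/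
noncomputable def sch [IsProbabilityMeasure μ] (hdec : RapidDecay μ) {a b : ℝ} (ha : 0 < a)
    (hb : b < 1) {χ : ℝ → ℂ} (hχ : ContDiff ℝ ∞ χ) (h0 : ∀ x, x ∉ Icc a b → χ x = 0) :
    SchwartzMap ℝ ℂ where
  toFun := ftm μ c0 χ
  smooth' := contDiff_ftm c0_re hχ.continuous h0
  decay' := by
    intro k n
    obtain ⟨C, hC⟩ := ftm_decay hdec ha hb (χ := fun x => (c0 * x) ^ n * χ x)
      (by
        have : ContDiff ℝ ∞ (fun x : ℝ => (x : ℂ)) := Complex.ofRealCLM.contDiff
        exact ((contDiff_const.mul this).pow n).mul hχ)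
      (fun x hx => by simp [h0 x hx]) k
    refine ⟨C, fun t => ?_⟩
    rw [norm_iteratedFDeriv_eq_norm_iteratedDeriv, iteratedDeriv_ftm c0_re n hχ.continuous h0]
    exact hC t

/-- The Fourier inversion: `χ μ` has the Fourier transform of a Schwartz function `f`. -/
theorem exists_schwartz [IsProbabilityMeasure μ] (hdec : RapidDecay μ) {a b : ℝ} (ha : 0 < a)
    (hb : b < 1) {χ : ℝ → ℂ} (hχ : ContDiff ℝ ∞ χ) (h0 : ∀ x, x ∉ Icc a b → χ x = 0) :
    ∃ f : SchwartzMap ℝ ℂ, ∀ t : ℝ, ∫ x, f x * Complex.exp (Complex.I * t * x) =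
      ∫ x, χ x * Complex.exp (Complex.I * t * x) ∂μ := by
  refine ⟨𝓕⁻ (sch hdec ha hb hχ h0), fun t => ?_⟩
  have h1 : 𝓕 (𝓕⁻ (sch hdec ha hb hχ h0)) = sch hdec ha hb hχ h0 :=
    FourierTransform.fourier_fourierInv_eq _
  set f := 𝓕⁻ (sch hdec ha hb hχ h0) with hf
  have h2 : (𝓕 f : SchwartzMap ℝ ℂ) (-t / (2 * Real.pi)) = ftm μ c0 χ (-t / (2 * Real.pi)) := by
    rw [h1]
    rfl
  have h3 : (𝓕 f : SchwartzMap ℝ ℂ) (-t / (2 * Real.pi)) =
      ∫ x, f x * Complex.exp (Complex.I * t * x) := by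
    rw [SchwartzMap.fourier_coe, Real.fourier_eq']
    congr 1
    ext x
    rw [smul_eq_mul, mul_comm]
    congr 2
    have : (Real.pi : ℂ) ≠ 0 := by exact_mod_cast Real.pi_ne_zero
    simp
    field_simp
  rw [← h3, h2]
  unfold ftm c0
  congr 1
  ext x
  congr 2
  have : (Real.pi : ℂ) ≠ 0 := by exact_mod_cast Real.pi_ne_zero
  push_cast
  field_simp

/-- Local density. -/
theorem exists_local_density [IsProbabilityMeasure μ] (hdec : RapidDecay μ) {a b : ℝ} (ha : 0 < a)
    (hb : b < 1) {χ : ℝ → ℝ} (hχ : ContDiff ℝ ∞ χ) (hχ0 : ∀ x, 0 ≤ χ x)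
    (h0 : ∀ x, x ∉ Icc a b → χ x = 0) :
    ∃ g : ℝ → ℝ, (∀ x, 0 ≤ g x) ∧ ContDiff ℝ ∞ g ∧
      μ.withDensity (fun x => ENNReal.ofReal (χ x)) =
        volume.withDensity (fun x => ENNReal.ofReal (g x)) := by
  have hχC : ContDiff ℝ ∞ (fun x => (χ x : ℂ)) := Complex.ofRealCLM.contDiff.comp hχ
  have h0C : ∀ x, x ∉ Icc a b → (χ x : ℂ) = 0 := fun x hx => by simp [h0 x hx]
  obtain ⟨f, hf⟩ := exists_schwartz hdec ha hb hχC h0C
  obtain ⟨C, hC0, hC⟩ := bdd_of_supp hχC.continuous h0C
  set g : ℝ → ℝ := fun x => (f x).re with hg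
  have hgs : ContDiff ℝ ∞ g := Complex.reCLM.contDiff.comp (f.smooth ⊤)
  have hgm : Measurable g := hgs.continuous.measurable
  have hfi : Integrable (fun x => f x) volume := f.integrable
  have hgi : Integrable g volume := hfi.re
  have hχi : Integrable χ μ := Integrable.of_bound hχ.continuous.aestronglyMeasurable C
    (Filter.Eventually.of_forall fun x => by simpa using hC x)
  -- the measures
  set ν := μ.withDensity (fun x => ENNReal.ofReal (χ x)) with hν
  set P := (volume : Measure ℝ).withDensity (fun x => ENNReal.ofReal (g x)) with hP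
  set N := (volume : Measure ℝ).withDensity (fun x => ENNReal.ofReal (-g x)) with hN
  have hνf : IsFiniteMeasure ν := isFiniteMeasure_withDensity_ofReal hχi.2
  have hPf : IsFiniteMeasure P := isFiniteMeasure_withDensity_ofReal hgi.2
  have hNf : IsFiniteMeasure N := isFiniteMeasure_withDensity_ofReal hgi.neg.2
  have hexp : ∀ t x : ℝ, ‖Complex.exp (Complex.I * t * x)‖ = 1 := fun t x =>
    norm_exp_eq_one (by simp) t x
  have hexpc : ∀ t : ℝ, Continuous fun x : ℝ => Complex.exp (Complex.I * t * x) := fun t => by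
    fun_prop
  have hexpi : ∀ (ρ : Measure ℝ) [IsFiniteMeasure ρ] (t : ℝ),
      Integrable (fun x : ℝ => Complex.exp (Complex.I * t * x)) ρ := fun ρ _ t =>
    Integrable.of_bound (hexpc t).aestronglyMeasurable 1
      (Filter.Eventually.of_forall fun x => (hexp t x).le)
  have hcf : ∀ (ρ : Measure ℝ) (t : ℝ), charFun ρ t = ∫ x, Complex.exp (Complex.I * t * x) ∂ρ := by
    intro ρ t
    rw [charFun_apply_real]
    congr 1
    ext x
    congr 1
    ring
  have hIν : ∀ t : ℝ, ∫ x, Complex.exp (Complex.I * t * x) ∂ν =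
      ∫ x, (χ x : ℂ) * Complex.exp (Complex.I * t * x) ∂μ := by
    intro t
    rw [hν, integral_withDensity_eq_integral_toReal_smul (by
      exact hχ.continuous.measurable.ennreal_ofReal) (Filter.Eventually.of_forall fun x => by
        exact ENNReal.ofReal_lt_top)]
    congr 1
    ext x
    rw [ENNReal.toReal_ofReal (hχ0 x), Complex.real_smul]
  have hIP : ∀ t : ℝ, ∫ x, Complex.exp (Complex.I * t * x) ∂P =
      ∫ x, ((max (g x) 0 : ℝ) : ℂ) * Complex.exp (Complex.I * t * x) := by
    intro t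
    rw [hP, integral_withDensity_eq_integral_toReal_smul hgm.ennreal_ofReal
      (Filter.Eventually.of_forall fun x => ENNReal.ofReal_lt_top)]
    congr 1
  have hIN : ∀ t : ℝ, ∫ x, Complex.exp (Complex.I * t * x) ∂N =
      ∫ x, ((max (-g x) 0 : ℝ) : ℂ) * Complex.exp (Complex.I * t * x) := by
    intro t
    have hgm' : Measurable (fun x => ENNReal.ofReal (-g x)) := hgm.neg.ennreal_ofReal
    rw [hN, integral_withDensity_eq_integral_toReal_smul hgm'
      (Filter.Eventually.of_forall fun x => ENNReal.ofReal_lt_top)]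
    congr 1
  have hmi : ∀ (u : ℝ → ℝ) (t : ℝ), Integrable u volume →
      Integrable (fun x : ℝ => (u x : ℂ) * Complex.exp (Complex.I * t * x)) volume := by
    intro u t hu
    exact hu.ofReal.mul_bdd (hexpc t).aestronglyMeasurable
      (Filter.Eventually.of_forall fun x => (hexp t x).le)
  have hPN : ∀ t : ℝ, (∫ x, Complex.exp (Complex.I * t * x) ∂P) =
      (∫ x, (g x : ℂ) * Complex.exp (Complex.I * t * x)) +
        ∫ x, Complex.exp (Complex.I * t * x) ∂N := by
    intro t
    have hneg : Integrable (fun x => max (-g x) 0) volume := hgi.neg.pos_part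
    rw [hIP, hIN, ← integral_add (hmi g t hgi) (hmi _ t hneg)]
    congr 1
    ext x
    rw [← add_mul]
    congr 1
    rw [← Complex.ofReal_add]
    congr 1
    rcases le_total (g x) 0 with h | h
    · rw [max_eq_right h, max_eq_left (by linarith)]; ring
    · rw [max_eq_left h, max_eq_right (by linarith)]; ring
  have hre : ∀ t : ℝ, ∫ x, (g x : ℂ) * Complex.exp (Complex.I * t * x) =
      ∫ x, (χ x : ℂ) * Complex.exp (Complex.I * t * x) ∂μ := by
    intro t
    have h1 := hf t
    have h2 := hf (-t)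
    have h3 : (∫ x, (starRingEnd ℂ) (f x) * Complex.exp (Complex.I * t * x)) =
        (starRingEnd ℂ) (∫ x, f x * Complex.exp (Complex.I * ((-t : ℝ) : ℂ) * x)) := by
      rw [← integral_conj]
      congr 1
      ext x
      rw [map_mul, ← Complex.exp_conj]
      congr 2
      simp
    have h4 : (starRingEnd ℂ) (∫ x, (χ x : ℂ) * Complex.exp (Complex.I * ((-t : ℝ) : ℂ) * x) ∂μ) =
        ∫ x, (χ x : ℂ) * Complex.exp (Complex.I * t * x) ∂μ := by
      rw [← integral_conj]
      congr 1
      ext x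
      rw [map_mul, ← Complex.exp_conj, Complex.conj_ofReal]
      congr 2
      simp
    have hfi1 : Integrable (fun x : ℝ => f x * Complex.exp (Complex.I * t * x)) volume :=
      hfi.mul_bdd (hexpc t).aestronglyMeasurable
        (Filter.Eventually.of_forall fun x => (hexp t x).le)
    have hfi2 : Integrable (fun x : ℝ => (starRingEnd ℂ) (f x) *
        Complex.exp (Complex.I * t * x)) volume := by
      have : Integrable (fun x : ℝ => (starRingEnd ℂ) (f x)) volume := by
        exact (Complex.conjCLE.toContinuousLinearMap.integrable_comp hfi)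
      exact this.mul_bdd (hexpc t).aestronglyMeasurable
        (Filter.Eventually.of_forall fun x => (hexp t x).le)
    have h5 : ∀ x : ℝ, (g x : ℂ) * Complex.exp (Complex.I * t * x) =
        (f x * Complex.exp (Complex.I * t * x) +
          (starRingEnd ℂ) (f x) * Complex.exp (Complex.I * t * x)) / 2 := by
      intro x
      have : (g x : ℂ) = (f x + (starRingEnd ℂ) (f x)) / 2 := by
        rw [Complex.add_conj]
        simp [hg]
      rw [this]
      ring
    simp_rw [h5]
    rw [integral_div, integral_add hfi1 hfi2, h3, h1, h2, h4]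
    ring
  have hmeas : ν + N = P := by
    apply Measure.ext_of_charFun
    ext t
    rw [hcf, hcf, integral_add_measure (hexpi ν t) (hexpi N t), hPN, hre t, hIν t]
  have hA : volume {x | g x < 0} = 0 := by
    have hAm : MeasurableSet {x | g x < 0} := measurableSet_lt hgm measurable_const
    have h1 : P {x | g x < 0} = 0 := by
      rw [hP, withDensity_apply _ hAm]
      rw [setLIntegral_congr_fun hAm (g := fun _ => 0)]
      · simp
      · intro x hx
        exact ENNReal.ofReal_of_nonpos (le_of_lt hx)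
    have h2 : N {x | g x < 0} = 0 := by
      have : (ν + N) {x | g x < 0} = 0 := by rw [hmeas, h1]
      rw [Measure.add_apply] at this
      exact (add_eq_zero.1 this).2
    by_contra hne
    have h3 : 0 < N {x | g x < 0} := by
      have hgm' : Measurable (fun x => ENNReal.ofReal (-g x)) := hgm.neg.ennreal_ofReal
      rw [hN, withDensity_apply _ hAm, setLIntegral_pos_iff hgm']
      have : Function.support (fun x => ENNReal.ofReal (-g x)) ∩ {x | g x < 0} =
          {x | g x < 0} := by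
        apply inter_eq_right.2
        intro x hx
        rw [Function.mem_support]
        simp only [mem_setOf_eq] at hx
        simp only [ne_eq, ENNReal.ofReal_eq_zero, not_le]
        linarith
      rw [this]
      exact pos_iff_ne_zero.2 hne
    exact h3.ne' h2
  have hgnn : ∀ x, 0 ≤ g x := by
    have hopen : IsOpen {x | g x < 0} := isOpen_lt hgs.continuous continuous_const
    have := (hopen.measure_eq_zero_iff volume).1 hA
    intro x
    by_contra h
    have hx : x ∈ {x | g x < 0} := lt_of_not_ge h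
    rw [this] at hx
    exact hx
  refine ⟨g, hgnn, hgs, ?_⟩
  have hN0 : N = 0 := by
    rw [hN]
    have : (fun x => ENNReal.ofReal (-g x)) = 0 := by
      ext x
      simp [hgnn x]
    rw [this, withDensity_zero]
  rw [hN0, add_zero] at hmeas
  exact hmeas

/-- The exhausting intervals. -/
noncomputable def Un (n : ℕ) : Set ℝ := Ioo (1 / ((n : ℝ) + 3)) (1 - 1 / ((n : ℝ) + 3))

theorem iUnion_Un : ⋃ n, Un n = Ioo (0 : ℝ) 1 := by
  ext x
  simp only [Un, mem_iUnion, mem_Ioo]
  constructor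
  · rintro ⟨n, h1, h2⟩
    have : (0 : ℝ) < 1 / ((n : ℝ) + 3) := by positivity
    exact ⟨by linarith, by linarith⟩
  · rintro ⟨h1, h2⟩
    obtain ⟨n, hn⟩ := exists_nat_one_div_lt (lt_min h1 (sub_pos.2 h2))
    have h3 : 1 / ((n : ℝ) + 3) ≤ 1 / ((n : ℝ) + 1) := by
      apply one_div_le_one_div_of_le (by positivity)
      linarith
    have h4 := lt_of_le_of_lt h3 hn
    rw [lt_min_iff] at h4
    exact ⟨n, h4.1, by linarith [h4.2]⟩

theorem exists_density_Un [IsProbabilityMeasure μ] (hdec : RapidDecay μ) (n : ℕ) :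
    ∃ g : ℝ → ℝ, (∀ x, 0 ≤ g x) ∧ ContDiff ℝ ∞ g ∧
      μ.restrict (Un n) = (volume.restrict (Un n)).withDensity (fun x => ENNReal.ofReal (g x)) := by
  have hn : (0 : ℝ) < 1 / ((n : ℝ) + 3) := by positivity
  have hn' : 1 / ((n : ℝ) + 3) ≤ 1 / 3 := by
    apply one_div_le_one_div_of_le (by positivity)
    have : (0 : ℝ) ≤ n := by positivity
    linarith
  set δ := 1 / ((n : ℝ) + 3) with hδ
  let β : ContDiffBump (1 / 2 : ℝ) :=
    { rIn := 1 / 2 - δ
      rOut := 1 / 2 - δ / 2
      rIn_pos := by linarith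
      rIn_lt_rOut := by linarith }
  obtain ⟨g, hg0, hgs, hg⟩ := exists_local_density hdec (a := δ / 2) (b := 1 - δ / 2)
    (by linarith) (by linarith) (χ := fun x => β x) β.contDiff (fun x => β.nonneg) (by
      intro x hx
      apply β.zero_of_le_dist
      show 1 / 2 - δ / 2 ≤ dist x (1 / 2)
      rw [Real.dist_eq]
      by_contra h
      push Not at h
      rw [abs_lt] at h
      exact hx ⟨by linarith [h.1], by linarith [h.2]⟩)
  refine ⟨g, hg0, hgs, ?_⟩
  have hm : MeasurableSet (Un n) := measurableSet_Ioo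
  rw [← restrict_withDensity hm, ← hg, restrict_withDensity hm]
  symm
  calc (μ.restrict (Un n)).withDensity (fun x => ENNReal.ofReal (β x))
      = (μ.restrict (Un n)).withDensity 1 := by
        apply withDensity_congr_ae
        filter_upwards [ae_restrict_mem hm] with x hx
        have h1 : β x = 1 := by
          apply β.one_of_mem_closedBall
          show dist x (1 / 2) ≤ 1 / 2 - δ
          rw [Real.dist_eq, abs_le]
          have h2 : δ < x := hx.1
          have h3 : x < 1 - δ := hx.2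
          exact ⟨by linarith, by linarith⟩
        simp [h1]
    _ = μ.restrict (Un n) := withDensity_one

/-- S1. If all `χ μ` have rapidly decreasing Fourier transform, `μ` has a smooth density. -/
theorem smooth_density_of_decay {μ : Measure ℝ} [IsProbabilityMeasure μ]
    (hμ : μ (Ioo 0 1)ᶜ = 0)
    (hdec : ∀ (a b : ℝ), 0 < a → b < 1 → ∀ χ : ℝ → ℂ, ContDiff ℝ ∞ χ →
      (∀ x, x ∉ Icc a b → χ x = 0) → ∀ k : ℕ, ∃ C : ℝ, ∀ t : ℝ, 1 ≤ |t| →
        ‖∫ x, χ x * Complex.exp (Complex.I * t * x) ∂μ‖ * |t| ^ k ≤ C) :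
    ∃ g : ℝ → ℝ, (∀ x, 0 ≤ g x) ∧ ContDiffOn ℝ ∞ g (Ioo 0 1) ∧
      μ = (volume.restrict (Ioo 0 1)).withDensity (fun x => ENNReal.ofReal (g x)) := by
  classical
  choose G hG0 hGs hG using exists_density_Un (μ := μ) hdec
  have hopen : ∀ n, IsOpen (Un n) := fun n => isOpen_Ioo
  have hm : ∀ n, MeasurableSet (Un n) := fun n => measurableSet_Ioo
  -- the local densities agree on overlaps
  have hag : ∀ n m x, x ∈ Un n → x ∈ Un m → G n x = G m x := by
    intro n m x hxn hxm
    have hU : MeasurableSet (Un n ∩ Un m) := (hm n).inter (hm m)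
    have h1 : ∀ k, Un n ∩ Un m ⊆ Un k → μ.restrict (Un n ∩ Un m) =
        (volume.restrict (Un n ∩ Un m)).withDensity (fun x => ENNReal.ofReal (G k x)) := by
      intro k hk
      have h2 : μ.restrict (Un n ∩ Un m) = (μ.restrict (Un k)).restrict (Un n ∩ Un m) := by
        rw [Measure.restrict_restrict hU, inter_eq_left.2 hk]
      rw [h2, hG k, restrict_withDensity hU, Measure.restrict_restrict hU, inter_eq_left.2 hk]
    have h3 := (h1 n inter_subset_left).symm.trans (h1 m inter_subset_right)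
    rw [withDensity_eq_iff_of_sigmaFinite
      ((hGs n).continuous.measurable.ennreal_ofReal.aemeasurable)
      ((hGs m).continuous.measurable.ennreal_ofReal.aemeasurable)] at h3
    have h4 : G n =ᵐ[volume.restrict (Un n ∩ Un m)] G m := by
      filter_upwards [h3] with y hy
      exact (ENNReal.ofReal_eq_ofReal_iff (hG0 n y) (hG0 m y)).1 hy
    exact Measure.eqOn_open_of_ae_eq h4 ((hopen n).inter (hopen m)) (hGs n).continuous.continuousOn
      (hGs m).continuous.continuousOn ⟨hxn, hxm⟩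
  set g : ℝ → ℝ := fun x => if h : ∃ n, x ∈ Un n then G (Nat.find h) x else 0 with hg
  have hgU : ∀ n x, x ∈ Un n → g x = G n x := by
    intro n x hx
    have h : ∃ n, x ∈ Un n := ⟨n, hx⟩
    simp only [hg, dif_pos h]
    exact hag _ _ x (Nat.find_spec h) hx
  refine ⟨g, ?_, ?_, ?_⟩
  · intro x
    simp only [hg]
    split_ifs with h
    · exact hG0 _ x
    · exact le_rfl
  · intro x hx
    rw [← iUnion_Un] at hx
    obtain ⟨n, hn⟩ := mem_iUnion.1 hx
    apply ContDiffAt.contDiffWithinAt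
    have h1 : g =ᶠ[nhds x] G n := by
      filter_upwards [(hopen n).mem_nhds hn] with y hy using hgU n y hy
    exact (hGs n).contDiffAt.congr_of_eventuallyEq h1
  · have h1 : μ = μ.restrict (Ioo 0 1) :=
      (Measure.restrict_eq_self_of_ae_mem (ae_mem_of_supp hμ)).symm
    rw [← restrict_withDensity measurableSet_Ioo]
    rw [h1, ← iUnion_Un, Measure.restrict_iUnion_congr]
    intro n
    rw [restrict_withDensity (hm n), hG n]
    apply withDensity_congr_ae
    filter_upwards [ae_restrict_mem (hm n)] with x hx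
    rw [hgU n x hx]

end S1

end MP319742
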